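import Mathlib

set_option autoImplicit false

open Complex Metric Set Filter Topology Classical ZeroAtInfty

namespace Pool.Agent.Helper621.DAP

/-- the ambient space of bounded continuous functions on the closed disc -/
abbrev Amb := BoundedContinuousFunction (Metric.closedBall (0:ℂ) 1) ℂ

/-- the disc algebra -/
def DA : Submodule ℂ Amb where
  carrier := {f | ∃ g : ℂ → ℂ, DifferentiableOn ℂ g (Metric.ball (0:ℂ) 1) ∧
    ∀ z : Metric.closedBall (0:ℂ) 1, g (z : ℂ) = f z}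
  add_mem' := by
    rintro f₁ f₂ ⟨g₁, h₁, e₁⟩ ⟨g₂, h₂, e₂⟩
    exact ⟨fun z => g₁ z + g₂ z, h₁.add h₂, fun z => by simp [e₁, e₂]⟩
  zero_mem' := ⟨fun _ => 0, differentiableOn_const 0, fun z => by simp⟩
  smul_mem' := by
    rintro c f ⟨g, h, e⟩
    exact ⟨fun z => c * g z, h.const_mul c, fun z => by simp [e]⟩

/-- functions of the disc algebra type -/
def IsDA (f : ℂ → ℂ) : Prop :=
  ContinuousOn f (closedBall (0:ℂ) 1) ∧ DifferentiableOn ℂ f (ball (0:ℂ) 1)

/-- values of an element of the disc algebra, zero off the closed disc -/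
noncomputable def ev (F : DA) (z : ℂ) : ℂ :=
  if h : z ∈ closedBall (0:ℂ) 1 then F.1 ⟨z, h⟩ else 0

/-- the element of the disc algebra given by a function -/
noncomputable def mk (f : ℂ → ℂ) (hf : IsDA f) : DA :=
  ⟨BoundedContinuousFunction.mkOfCompact
    ⟨fun z : Metric.closedBall (0:ℂ) 1 => f z, by
      have := hf.1
      rw [continuousOn_iff_continuous_domRestrict] at this
      exact this⟩,
    ⟨f, hf.2, fun z => rfl⟩⟩

theorem ev_eq (F : DA) (z : ℂ) (h : z ∈ closedBall (0:ℂ) 1) : ev F z = F.1 ⟨z, h⟩ := by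
  simp only [ev, dif_pos h]

theorem ev_mk (f : ℂ → ℂ) (hf : IsDA f) (z : ℂ) (h : z ∈ closedBall (0:ℂ) 1) :
    ev (mk f hf) z = f z := by
  rw [ev_eq _ _ h]; rfl

theorem ev_ext {F G : DA} (h : ∀ z ∈ closedBall (0:ℂ) 1, ev F z = ev G z) : F = G := by
  apply Subtype.ext
  ext z
  have := h z.1 z.2
  rw [ev_eq _ _ z.2, ev_eq _ _ z.2] at this
  exact this

theorem ev_add (F G : DA) (z : ℂ) : ev (F + G) z = ev F z + ev G z := by
  unfold ev; split <;> simp

theorem ev_sub (F G : DA) (z : ℂ) : ev (F - G) z = ev F z - ev G z := by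
  unfold ev; split <;> simp

theorem ev_smul (c : ℂ) (F : DA) (z : ℂ) : ev (c • F) z = c * ev F z := by
  unfold ev; split <;> simp

theorem ev_zero (z : ℂ) : ev (0 : DA) z = 0 := by
  unfold ev; split <;> simp

theorem ev_neg (F : DA) (z : ℂ) : ev (-F) z = - ev F z := by
  unfold ev; split <;> simp

theorem ev_isDA (F : DA) : IsDA (ev F) := by
  constructor
  · rw [continuousOn_iff_continuous_domRestrict]
    have : (closedBall (0:ℂ) 1).domRestrict (ev F) = F.1 := by
      ext z; rw [Set.domRestrict_apply, ev_eq _ _ z.2]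
    rw [this]; exact F.1.continuous
  · obtain ⟨g, hg, he⟩ := F.2
    apply hg.congr
    intro z hz
    have hz' := ball_subset_closedBall hz
    rw [ev_eq _ _ hz']; exact (he ⟨z, hz'⟩).symm

theorem norm_ev_le (F : DA) (z : ℂ) : ‖ev F z‖ ≤ ‖F‖ := by
  unfold ev; split
  · exact F.1.norm_coe_le_norm _
  · simp

theorem norm_le_of (F : DA) {M : ℝ} (hM : 0 ≤ M)
    (h : ∀ z ∈ closedBall (0:ℂ) 1, ‖ev F z‖ ≤ M) : ‖F‖ ≤ M := by
  change ‖F.1‖ ≤ M
  rw [BoundedContinuousFunction.norm_le hM]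
  intro z
  have := h z.1 z.2
  rwa [ev_eq _ _ z.2] at this

theorem isDA_const (c : ℂ) : IsDA (fun _ => c) := ⟨continuousOn_const, differentiableOn_const c⟩

theorem IsDA.mul {f g : ℂ → ℂ} (hf : IsDA f) (hg : IsDA g) : IsDA (fun z => f z * g z) :=
  ⟨hf.1.mul hg.1, hf.2.mul hg.2⟩

/-- the constant function 1 -/
noncomputable def one : DA := mk (fun _ => 1) (isDA_const 1)

theorem ev_one (z : ℂ) (h : z ∈ closedBall (0:ℂ) 1) : ev one z = 1 := ev_mk _ _ z h

/-- multiplication by an element of the disc algebra -/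
noncomputable def mulL (h : DA) : DA →L[ℂ] DA :=
  LinearMap.mkContinuous
    { toFun := fun g => mk (fun z => ev h z * ev g z) ((ev_isDA h).mul (ev_isDA g))
      map_add' := by
        intro x y; apply ev_ext; intro z hz
        rw [ev_add, ev_mk _ _ z hz, ev_mk _ _ z hz, ev_mk _ _ z hz, ev_add]; ring
      map_smul' := by
        intro c x; apply ev_ext; intro z hz
        rw [RingHom.id_apply, ev_smul, ev_mk _ _ z hz, ev_mk _ _ z hz, ev_smul]; ring }
    ‖h‖ (by
      intro x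
      apply norm_le_of _ (by positivity)
      intro z hz
      simp only [LinearMap.coe_mk, AddHom.coe_mk]
      rw [ev_mk _ _ z hz, norm_mul]
      exact mul_le_mul (norm_ev_le _ _) (norm_ev_le _ _) (norm_nonneg _) (norm_nonneg _))

theorem ev_mulL (h g : DA) (z : ℂ) (hz : z ∈ closedBall (0:ℂ) 1) :
    ev (mulL h g) z = ev h z * ev g z := ev_mk _ _ z hz

theorem norm_mulL_le (h g : DA) : ‖mulL h g‖ ≤ ‖h‖ * ‖g‖ := by
  apply norm_le_of _ (by positivity)
  intro z hz
  rw [ev_mulL _ _ z hz, norm_mul]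
  exact mul_le_mul (norm_ev_le _ _) (norm_ev_le _ _) (norm_nonneg _) (norm_nonneg _)

/-- an admissible inner map -/
structure Inner (φ : ℂ → ℂ) : Prop where
  isDA : IsDA φ
  mapsC : ∀ z ∈ closedBall (0:ℂ) 1, φ z ∈ closedBall (0:ℂ) 1
  mapsB : ∀ z ∈ ball (0:ℂ) 1, φ z ∈ ball (0:ℂ) 1

theorem IsDA.comp {f φ : ℂ → ℂ} (hf : IsDA f) (hφ : Inner φ) : IsDA (fun z => f (φ z)) :=
  ⟨hf.1.comp hφ.isDA.1 hφ.mapsC, hf.2.comp hφ.isDA.2 hφ.mapsB⟩

/-- composition with an admissible inner map -/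
noncomputable def compL (φ : ℂ → ℂ) (hφ : Inner φ) : DA →L[ℂ] DA :=
  LinearMap.mkContinuous
    { toFun := fun g => mk (fun z => ev g (φ z)) ((ev_isDA g).comp hφ)
      map_add' := by
        intro x y; apply ev_ext; intro z hz
        rw [ev_add, ev_mk _ _ z hz, ev_mk _ _ z hz, ev_mk _ _ z hz, ev_add]
      map_smul' := by
        intro c x; apply ev_ext; intro z hz
        rw [RingHom.id_apply, ev_smul, ev_mk _ _ z hz, ev_mk _ _ z hz, ev_smul] }
    1 (by
      intro x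
      apply norm_le_of _ (by positivity)
      intro z hz
      simp only [LinearMap.coe_mk, AddHom.coe_mk]
      rw [ev_mk _ _ z hz, one_mul]
      exact norm_ev_le _ _)

theorem ev_compL (φ : ℂ → ℂ) (hφ : Inner φ) (g : DA) (z : ℂ) (hz : z ∈ closedBall (0:ℂ) 1) :
    ev (compL φ hφ g) z = ev g (φ z) := ev_mk _ _ z hz

theorem norm_compL_le (φ : ℂ → ℂ) (hφ : Inner φ) (g : DA) : ‖compL φ hφ g‖ ≤ ‖g‖ := by
  apply norm_le_of _ (by positivity)
  intro z hz
  rw [ev_compL _ _ _ z hz]; exact norm_ev_le _ _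


/-! ## strip side definitions -/

/-- `tanh (l/2)` -/
noncomputable def th (l : ℂ) : ℂ := (exp l - 1) / (exp l + 1)

/-- inverse of `th` on the strip `|Im l| ≤ π/2` -/
noncomputable def Lg (q : ℂ) : ℂ := log ((1 + q) / (1 - q))

/-- affine bijection from the strip `-π/2 ≤ Im ≤ π/4` onto the strip `|Im| ≤ π/2` -/
noncomputable def al (l : ℂ) : ℂ := (4 / 3 : ℝ) * l + (Real.pi / 6 : ℝ) * I

/-- inverse of `al` -/
noncomputable def alInv (l : ℂ) : ℂ := (3 / 4 : ℝ) * l - (Real.pi / 8 : ℝ) * I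

/-- the closed strip -/
def cs (a b : ℝ) : Set ℂ := {l | a ≤ l.im ∧ l.im ≤ b}

/-- the open strip -/
def os (a b : ℝ) : Set ℂ := {l | a < l.im ∧ l.im < b}

/-- continuous on the closed strip, holomorphic in the open strip, limits `Lp`, `Lm` at both ends -/
structure SF (a b : ℝ) (F : ℂ → ℂ) (Lp Lm : ℂ) : Prop where
  cont : ContinuousOn F (cs a b)
  diff : DifferentiableOn ℂ F (os a b)
  top : ∀ ε > 0, ∃ X : ℝ, ∀ l ∈ cs a b, X ≤ l.re → ‖F l - Lp‖ ≤ ε
  bot : ∀ ε > 0, ∃ X : ℝ, ∀ l ∈ cs a b, l.re ≤ X → ‖F l - Lm‖ ≤ ε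

/-- the map whose composition embeds the disc algebra -/
noncomputable def mm (x : ℂ) : ℂ :=
  if x = 1 then 1 else if x = -1 then 1 else (th (alInv (Lg x))) ^ 2

/-- the kernel -/
noncomputable def kk (u : ℂ) : ℂ := 16 / (u * (u ^ 2 + 16))

/-- the point `s + iπ/8` -/
noncomputable def pt (s : ℝ) : ℂ := (s : ℂ) + (Real.pi / 8 : ℝ) * I

/-- the Cauchy type integral over the line `Im = π/8` -/
noncomputable def Kint (d : ℝ → ℂ) (l : ℂ) : ℂ :=
  -(1 / (2 * Real.pi * I)) * ∫ s : ℝ, d s * kk (pt s - l)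

/-- lower half formula -/
noncomputable def HH (G : ℂ → ℂ) (l : ℂ) : ℂ := G l - Kint (fun s => G (pt s) - G (-(pt s))) l

/-- even extension -/
noncomputable def FE (G : ℂ → ℂ) (l : ℂ) : ℂ := if l.im ≤ 0 then HH G l else HH G (-l)

/-- transport of a function on the closed disc to the strip `-π/2 ≤ Im ≤ π/4` -/
noncomputable def GG (g : ℂ → ℂ) (l : ℂ) : ℂ := g (th (al l))

/-- the left inverse on the level of functions -/
noncomputable def Rv (g : ℂ → ℂ) (w : ℂ) : ℂ :=
  if w = 1 then (g 1 + g (-1)) / 2 else FE (GG g) (Lg (w ^ (1 / 2 : ℂ)))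

end Pool.Agent.Helper621.DAP
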