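import Pool.Agent.Helper621.DAP.Defs

set_option autoImplicit false

open Complex Metric Set Filter Topology Classical ZeroAtInfty

namespace Pool.Agent.Helper621.DAP


/-- for `0 < Im u ≤ 2` the kernel is at most `16 / (Im u * (1 + (Re u)^2))` -/
theorem kk_bound {u : ℂ} (h0 : 0 < u.im) (h2 : u.im ≤ 2) :
    ‖kk u‖ ≤ 16 / (u.im * (1 + u.re ^ 2)) := by
  unfold kk
  rw [norm_div, norm_mul]
  have h16 : ‖(16 : ℂ)‖ = 16 := by norm_num
  rw [h16]
  have h3 : u.im ≤ ‖u‖ := (le_abs_self _).trans (Complex.abs_im_le_norm u)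
  have h4 : 1 + u.re ^ 2 ≤ ‖u ^ 2 + 16‖ := by
    have h5 : (u ^ 2 + 16).re ≤ ‖u ^ 2 + 16‖ := (le_abs_self _).trans (Complex.abs_re_le_norm _)
    have h6 : (u ^ 2 + 16).re = u.re ^ 2 - u.im ^ 2 + 16 := by
      rw [pow_two, Complex.add_re, Complex.mul_re]
      norm_num
      ring
    rw [h6] at h5
    nlinarith
  have h5 : 0 < 1 + u.re ^ 2 := by positivity
  have h6 : 0 < u.im * (1 + u.re ^ 2) := mul_pos h0 h5
  exact div_le_div_of_nonneg_left (by norm_num) h6 (mul_le_mul h3 h4 h5.le (norm_nonneg _))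

end Pool.Agent.Helper621.DAP
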