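import Pool.Agent.Helper621.DAP.Defs
import Pool.Agent.Helper621.DAP.P_kk_bound

set_option autoImplicit false

open Complex Metric Set Filter Topology Classical ZeroAtInfty

namespace Pool.Agent.Helper621.DAP


open MeasureTheory in
theorem kk_int_arctan_aux (c : ℝ) (hc : c ≠ 0) :
    Integrable (fun x : ℝ => c / (x ^ 2 + c ^ 2)) ∧
      ∫ x : ℝ, c / (x ^ 2 + c ^ 2) = c⁻¹ * |c| * Real.pi := by
  have h1 : (fun x : ℝ => c / (x ^ 2 + c ^ 2)) = fun x : ℝ => c⁻¹ * (1 + (x / c) ^ 2)⁻¹ := by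
    funext x
    have h2 : x ^ 2 + c ^ 2 ≠ 0 := by positivity
    have h3 : 1 + (x / c) ^ 2 = (x ^ 2 + c ^ 2) / c ^ 2 := by
      field_simp
      ring
    rw [h3]
    field_simp
  rw [h1]
  constructor
  · exact (integrable_inv_one_add_sq.comp_div hc).const_mul _
  · rw [integral_const_mul, Measure.integral_comp_div (fun x : ℝ => (1 + x ^ 2)⁻¹) c,
      integral_univ_inv_one_add_sq, smul_eq_mul]
    ring

theorem kk_int_partial (u : ℂ) (h0 : u ≠ 0) (h1 : u - 4 * I ≠ 0) (h2 : u + 4 * I ≠ 0) :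
    kk u = u⁻¹ - (1 / 2) * ((u - 4 * I)⁻¹ + (u + 4 * I)⁻¹) := by
  have h3 : u ^ 2 + 16 = (u - 4 * I) * (u + 4 * I) := by
    linear_combination (16 : ℂ) * I_sq
  have h4 : u⁻¹ - (1 / 2) * ((u - 4 * I)⁻¹ + (u + 4 * I)⁻¹) =
      ((u - 4 * I) * (u + 4 * I) - u ^ 2) / (u * ((u - 4 * I) * (u + 4 * I))) := by
    field_simp
    ring
  rw [h4, kk, h3]
  congr 1
  linear_combination (16 : ℂ) * I_sq

theorem kk_int_im {y : ℝ} (h0 : 0 < y) (h2 : y ≤ 2) (x : ℝ) :
    (kk ((x : ℂ) + y * I)).im = -(y / (x ^ 2 + y ^ 2)) +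
      (1 / 2) * ((y - 4) / (x ^ 2 + (y - 4) ^ 2)) + (1 / 2) * ((y + 4) / (x ^ 2 + (y + 4) ^ 2)) := by
  have e0 : (x : ℂ) + y * I ≠ 0 := by
    intro h
    have := congrArg Complex.im h
    simp at this
    linarith
  have e1 : (x : ℂ) + y * I - 4 * I ≠ 0 := by
    intro h
    have := congrArg Complex.im h
    simp at this
    linarith
  have e2 : (x : ℂ) + y * I + 4 * I ≠ 0 := by
    intro h
    have := congrArg Complex.im h
    simp at this
    linarith
  rw [kk_int_partial _ e0 e1 e2]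
  have f : ∀ c : ℝ, (((x : ℂ) + c * I)⁻¹).im = -(c / (x ^ 2 + c ^ 2)) := by
    intro c
    rw [Complex.inv_im, Complex.normSq_add_mul_I]
    simp [neg_div]
  have g1 : (x : ℂ) + y * I - 4 * I = (x : ℂ) + ((y - 4 : ℝ) : ℂ) * I := by
    push_cast; ring
  have g2 : (x : ℂ) + y * I + 4 * I = (x : ℂ) + ((y + 4 : ℝ) : ℂ) * I := by
    push_cast; ring
  rw [g1, g2, Complex.sub_im, f y]
  have h3 : ((1 / 2 : ℂ) * (((x : ℂ) + ((y - 4 : ℝ) : ℂ) * I)⁻¹ +
      ((x : ℂ) + ((y + 4 : ℝ) : ℂ) * I)⁻¹)).im =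
      (1 / 2) * ((((x : ℂ) + ((y - 4 : ℝ) : ℂ) * I)⁻¹).im +
        (((x : ℂ) + ((y + 4 : ℝ) : ℂ) * I)⁻¹).im) := by
    have h4 : (1 / 2 : ℂ) = ((1 / 2 : ℝ) : ℂ) := by push_cast; rfl
    rw [h4, Complex.im_ofReal_mul, Complex.add_im]
  rw [h3, f, f]
  ring

open MeasureTheory in
theorem kk_int {y : ℝ} (h0 : 0 < y) (h2 : y ≤ 2) :
    MeasureTheory.Integrable (fun x : ℝ => kk ((x : ℂ) + y * I)) ∧
      ∫ x : ℝ, kk ((x : ℂ) + y * I) = -(Real.pi * I) := by
  have hmeas : Measurable (fun x : ℝ => kk ((x : ℂ) + y * I)) := by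
    have hu : Measurable (fun x : ℝ => (x : ℂ) + y * I) :=
      Complex.measurable_ofReal.add_const _
    unfold kk
    exact measurable_const.div (hu.mul ((hu.pow_const 2).add_const 16))
  have hint : Integrable (fun x : ℝ => kk ((x : ℂ) + y * I)) := by
    apply Integrable.mono' (integrable_inv_one_add_sq.const_mul (16 / y)) hmeas.aestronglyMeasurable
    filter_upwards with x
    have h1 := kk_bound (u := (x : ℂ) + y * I) (by simpa using h0) (by simpa using h2)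
    refine h1.trans (le_of_eq ?_)
    have e1 : ((x : ℂ) + y * I).im = y := by simp
    have e2 : ((x : ℂ) + y * I).re = x := by simp
    rw [e1, e2]
    field_simp
  refine ⟨hint, ?_⟩
  -- symmetry
  have hsym : ∫ x : ℝ, kk ((x : ℂ) + y * I) = - (starRingEnd ℂ) (∫ x : ℝ, kk ((x : ℂ) + y * I)) := by
    conv_lhs => rw [← integral_neg_eq_self (fun x : ℝ => kk ((x : ℂ) + y * I)) volume]
    rw [← integral_conj, ← integral_neg]
    congr 1
    ext x
    unfold kk
    simp only [map_div₀, map_mul, map_add, map_pow, Complex.conj_ofReal, Complex.conj_I, map_ofNat]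
    push_cast
    have e1 : (-(x : ℂ) + y * I) = -((x : ℂ) + y * -I) := by ring
    rw [e1, neg_sq, neg_mul, div_neg]
  have hre : (∫ x : ℝ, kk ((x : ℂ) + y * I)).re = 0 := by
    have h3 := congrArg Complex.re hsym
    rw [Complex.neg_re, Complex.conj_re] at h3
    linarith
  have him : (∫ x : ℝ, kk ((x : ℂ) + y * I)).im = -Real.pi := by
    have h3 : (∫ x : ℝ, kk ((x : ℂ) + y * I)).im = ∫ x : ℝ, (kk ((x : ℂ) + y * I)).im :=
      (integral_im hint).symm
    rw [h3]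
    simp only [kk_int_im h0 h2]
    obtain ⟨a1, a2⟩ := kk_int_arctan_aux y h0.ne'
    obtain ⟨b1, b2⟩ := kk_int_arctan_aux (y - 4) (by linarith)
    obtain ⟨c1, c2⟩ := kk_int_arctan_aux (y + 4) (by linarith)
    have a1' : Integrable (fun x : ℝ => -(y / (x ^ 2 + y ^ 2))) := a1.neg
    have b1' : Integrable (fun x : ℝ => (1 / 2) * ((y - 4) / (x ^ 2 + (y - 4) ^ 2))) :=
      b1.const_mul _
    have c1' : Integrable (fun x : ℝ => (1 / 2) * ((y + 4) / (x ^ 2 + (y + 4) ^ 2))) :=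
      c1.const_mul _
    have ab : Integrable (fun x : ℝ => -(y / (x ^ 2 + y ^ 2)) +
      (1 / 2) * ((y - 4) / (x ^ 2 + (y - 4) ^ 2))) := a1'.add b1'
    rw [integral_add ab c1', integral_add a1' b1', integral_neg, integral_const_mul,
      integral_const_mul, a2, b2, c2,
      abs_of_pos h0, abs_of_neg (by linarith : y - 4 < 0), abs_of_pos (by linarith : 0 < y + 4)]
    have d1 : y⁻¹ * y = 1 := inv_mul_cancel₀ h0.ne'
    have d2 : (y - 4)⁻¹ * -(y - 4) = -1 := by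
      rw [mul_neg, inv_mul_cancel₀ (by linarith)]
    have d3 : (y + 4)⁻¹ * (y + 4) = 1 := inv_mul_cancel₀ (by linarith)
    rw [d1, d2, d3]
    ring
  apply Complex.ext
  · rw [hre]; simp
  · rw [him]; simp

end Pool.Agent.Helper621.DAP
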