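import Pool.Agent.Helper621.DAP.Defs
import Pool.Agent.Helper621.DAP.P_kk_bound
import Pool.Agent.Helper621.DAP.P_kk_int

set_option autoImplicit false

open Complex Metric Set Filter Topology Classical ZeroAtInfty

namespace Pool.Agent.Helper621.DAP


theorem Kint_bot {d : ℝ → ℂ} (hd : Continuous d) {M : ℝ} (hM : ∀ s, ‖d s‖ ≤ M) {L : ℂ}
    (hL : Tendsto d atBot (𝓝 L)) {ε : ℝ} (hε : 0 < ε) :
    ∃ X : ℝ, ∀ l ∈ cs (-(Real.pi / 2)) 0, l.re ≤ X → ‖Kint d l - L / 2‖ ≤ ε := by
  have hpi := Real.pi_pos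
  have hM0 : 0 ≤ M := (norm_nonneg _).trans (hM 0)
  -- dominated convergence
  have hdom : Tendsto (fun r : ℝ => ∫ s : ℝ, ‖d (s + r) - L‖ * (128 / Real.pi * (1 + s ^ 2)⁻¹))
      atBot (𝓝 (∫ s : ℝ, (0 : ℝ))) := by
    refine MeasureTheory.tendsto_integral_filter_of_dominated_convergence
      (fun s : ℝ => (M + ‖L‖) * (128 / Real.pi * (1 + s ^ 2)⁻¹)) ?_ ?_ ?_ ?_
    · refine Filter.Eventually.of_forall fun r => Continuous.aestronglyMeasurable ?_
      have h1 : Continuous (fun s : ℝ => (1 + s ^ 2)⁻¹) :=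
        Continuous.inv₀ (by fun_prop) (fun s => by positivity)
      fun_prop
    · refine Filter.Eventually.of_forall fun r => Filter.Eventually.of_forall fun s => ?_
      rw [Real.norm_eq_abs, abs_of_nonneg (by positivity)]
      refine mul_le_mul_of_nonneg_right ?_ (by positivity)
      exact (norm_sub_le _ _).trans (by linarith [hM (s + r)])
    · exact (integrable_inv_one_add_sq.const_mul _).const_mul _
    · refine Filter.Eventually.of_forall fun s => ?_
      have h1 : Tendsto (fun r : ℝ => s + r) atBot atBot := tendsto_atBot_add_const_left _ _ tendsto_id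
      have h2 : Tendsto (fun r : ℝ => ‖d (s + r) - L‖) atBot (𝓝 0) := by
        have := ((hL.comp h1).sub_const L).norm
        simpa using this
      have h3 := h2.mul_const (128 / Real.pi * (1 + s ^ 2)⁻¹)
      rwa [zero_mul] at h3
  rw [MeasureTheory.integral_zero] at hdom
  have hev := hdom.eventually (gt_mem_nhds (by positivity : (0 : ℝ) < 2 * Real.pi * ε))
  obtain ⟨X, hX⟩ := Filter.eventually_atBot.1 hev
  refine ⟨X, fun l hl hre => ?_⟩
  have hψ := hX l.re hre
  obtain ⟨y, hy⟩ : ∃ y, y = Real.pi / 8 - l.im := ⟨_, rfl⟩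
  have hy0 : Real.pi / 8 ≤ y := by rw [hy]; linarith [hl.2]
  have hy2 : y ≤ 2 := by
    rw [hy]
    have h1 := hl.1
    have h2 := Real.pi_lt_d2
    linarith
  have hypos : 0 < y := by linarith
  obtain ⟨hki, hkI⟩ := kk_int hypos hy2
  have hpt : ∀ s : ℝ, pt (s + l.re) - l = (s : ℂ) + y * I := by
    intro s
    unfold pt
    apply Complex.ext
    · simp
    · simp [hy]
  have hshift : ∫ s : ℝ, d s * kk (pt s - l) = ∫ s : ℝ, d (s + l.re) * kk ((s : ℂ) + y * I) := by
    rw [← MeasureTheory.integral_add_right_eq_self (fun s : ℝ => d s * kk (pt s - l)) l.re]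
    refine MeasureTheory.integral_congr_ae (Filter.Eventually.of_forall fun s => ?_)
    simp only
    rw [hpt]
  have hdc : Continuous (fun s : ℝ => d (s + l.re)) := by fun_prop
  have hint : MeasureTheory.Integrable (fun s : ℝ => d (s + l.re) * kk ((s : ℂ) + y * I)) :=
    hki.bdd_mul hdc.aestronglyMeasurable (Filter.Eventually.of_forall fun s => hM (s + l.re))
  have hdiff : (∫ s : ℝ, d (s + l.re) * kk ((s : ℂ) + y * I)) - L * -(Real.pi * I) =
      ∫ s : ℝ, (d (s + l.re) - L) * kk ((s : ℂ) + y * I) := by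
    rw [← hkI, ← MeasureTheory.integral_const_mul, ← MeasureTheory.integral_sub hint
      (hki.const_mul L)]
    refine MeasureTheory.integral_congr_ae (Filter.Eventually.of_forall fun s => ?_)
    simp only
    ring
  have hI : (Real.pi : ℂ) ≠ 0 := by exact_mod_cast hpi.ne'
  have e1 : Kint d l - L / 2 = -(1 / (2 * Real.pi * I)) *
      ∫ s : ℝ, (d (s + l.re) - L) * kk ((s : ℂ) + y * I) := by
    rw [← hdiff]
    unfold Kint
    rw [hshift]
    field_simp
    ring
  have hbound : ‖∫ s : ℝ, (d (s + l.re) - L) * kk ((s : ℂ) + y * I)‖ ≤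
      ∫ s : ℝ, ‖d (s + l.re) - L‖ * (128 / Real.pi * (1 + s ^ 2)⁻¹) := by
    refine MeasureTheory.norm_integral_le_of_norm_le ?_
      (Filter.Eventually.of_forall fun s => ?_)
    · have h1 : MeasureTheory.Integrable (fun s : ℝ => 128 / Real.pi * (1 + s ^ 2)⁻¹) :=
        integrable_inv_one_add_sq.const_mul _
      refine h1.bdd_mul (c := M + ‖L‖) ?_ (Filter.Eventually.of_forall fun s => ?_)
      · exact (Continuous.norm (by fun_prop)).aestronglyMeasurable
      · rw [norm_norm]
        exact (norm_sub_le _ _).trans (by linarith [hM (s + l.re)])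
    · rw [norm_mul]
      refine mul_le_mul_of_nonneg_left ?_ (norm_nonneg _)
      have him : ((s : ℂ) + y * I).im = y := by simp
      have hre' : ((s : ℂ) + y * I).re = s := by simp
      have h1 := kk_bound (u := (s : ℂ) + y * I) (by rw [him]; exact hypos) (by rw [him]; exact hy2)
      rw [him, hre'] at h1
      refine h1.trans ?_
      have h2 : (16 : ℝ) / (y * (1 + s ^ 2)) = 16 / y * (1 + s ^ 2)⁻¹ := by
        field_simp
      rw [h2]
      refine mul_le_mul_of_nonneg_right ?_ (by positivity)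
      rw [div_le_div_iff₀ hypos hpi]
      linarith
  rw [e1, norm_mul]
  have hn : ‖-(1 / (2 * (Real.pi : ℂ) * I))‖ = 1 / (2 * Real.pi) := by
    rw [norm_neg, norm_div, norm_mul, norm_mul, Complex.norm_I, norm_one]
    simp [abs_of_pos hpi]
  rw [hn, one_div, inv_mul_le_iff₀ (by positivity)]
  exact hbound.trans hψ.le

end Pool.Agent.Helper621.DAP
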