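import Pool.Agent.Helper621.DAP.Defs
import Pool.Agent.Helper621.DAP.P_kk_bound

set_option autoImplicit false

open Complex Metric Set Filter Topology Classical ZeroAtInfty

namespace Pool.Agent.Helper621.DAP


theorem Kint_integrable {d : ℝ → ℂ} (hd : Continuous d) {M : ℝ} (hM : ∀ s, ‖d s‖ ≤ M)
    {l : ℂ} (hl : l ∈ os (-(8 / 5)) (Real.pi / 8)) :
    MeasureTheory.Integrable (fun s : ℝ => d s * kk (pt s - l)) := by
  have him : ∀ s : ℝ, (pt s - l).im = Real.pi / 8 - l.im := by
    intro s
    simp [pt]
  have hre : ∀ s : ℝ, (pt s - l).re = s - l.re := by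
    intro s
    simp [pt]
  obtain ⟨hl1, hl2⟩ := hl
  have hpi : Real.pi < 3.15 := Real.pi_lt_d2
  set h := Real.pi / 8 - l.im with hh
  have h0 : 0 < h := by linarith
  have h2 : h < 2 := by
    norm_num at hpi
    linarith
  have hM0 : 0 ≤ M := (norm_nonneg _).trans (hM 0)
  have hne : ∀ s : ℝ, (pt s - l) * ((pt s - l) ^ 2 + 16) ≠ 0 := by
    intro s
    apply mul_ne_zero
    · intro h3
      have h4 := congrArg Complex.im h3
      rw [him] at h4
      simp at h4
      linarith
    · intro h3
      have h4 := congrArg Complex.re h3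
      simp only [Complex.add_re, pow_two, Complex.mul_re, Complex.zero_re, hre, him] at h4
      have h5 : (16:ℂ).re = 16 := by simp
      rw [h5] at h4
      nlinarith [sq_nonneg (s - l.re)]
  have hcont : Continuous (fun s : ℝ => d s * kk (pt s - l)) := by
    apply hd.mul
    unfold kk
    apply Continuous.div continuous_const _ hne
    unfold pt
    fun_prop
  have hint : MeasureTheory.Integrable (fun s : ℝ => (16 * M / h) * (1 + (s - l.re) ^ 2)⁻¹) :=
    (integrable_inv_one_add_sq.comp_sub_right l.re).const_mul _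
  refine hint.mono' hcont.aestronglyMeasurable (Filter.Eventually.of_forall fun s => ?_)
  have h3 := kk_bound (u := pt s - l) (by rw [him]; exact h0) (by rw [him]; exact h2.le)
  rw [him, hre] at h3
  rw [norm_mul]
  have h4 : (0:ℝ) < 1 + (s - l.re) ^ 2 := by positivity
  calc ‖d s‖ * ‖kk (pt s - l)‖ ≤ M * (16 / (h * (1 + (s - l.re) ^ 2))) :=
        mul_le_mul (hM s) h3 (norm_nonneg _) hM0
    _ = (16 * M / h) * (1 + (s - l.re) ^ 2)⁻¹ := by
        field_simp

end Pool.Agent.Helper621.DAP
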