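import Pool.Agent.Helper621.DAP.Defs
import Pool.Agent.Helper621.DAP.P_kk_bound
import Pool.Agent.Helper621.DAP.P_Kint_integrable

set_option autoImplicit false

open Complex Metric Set Filter Topology Classical ZeroAtInfty

namespace Pool.Agent.Helper621.DAP


theorem Kint_bound {d : ℝ → ℂ} (hd : Continuous d) {M : ℝ} (hM : ∀ s, ‖d s‖ ≤ M)
    {l : ℂ} (hl : l ∈ cs (-(Real.pi / 2)) 0) : ‖Kint d l‖ ≤ 25 * M := by
  have hpi := Real.pi_pos
  have hpi3 := Real.pi_gt_three
  have hpi4 : Real.pi < 3.15 := Real.pi_lt_d2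
  have hM0 : 0 ≤ M := (norm_nonneg _).trans (hM 0)
  have hi0 : MeasureTheory.Integrable (fun s : ℝ => (1 + (s - l.re) ^ 2)⁻¹) :=
    (integrable_inv_one_add_sq).comp_sub_right l.re
  have hv : ∫ s : ℝ, (1 + (s - l.re) ^ 2)⁻¹ = Real.pi := by
    rw [MeasureTheory.integral_sub_right_eq_self (fun s : ℝ => (1 + s ^ 2)⁻¹) l.re]
    exact integral_univ_inv_one_add_sq
  have hpt : ∀ s : ℝ, ‖d s * kk (pt s - l)‖ ≤ (M * (128 / Real.pi)) * (1 + (s - l.re) ^ 2)⁻¹ := by
    intro s
    have him : (pt s - l).im = Real.pi / 8 - l.im := by simp [pt]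
    have hre : (pt s - l).re = s - l.re := by simp [pt]
    have h1 : Real.pi / 8 ≤ (pt s - l).im := by rw [him]; linarith [hl.2]
    have h2 : (pt s - l).im ≤ 2 := by rw [him]; linarith [hl.1]
    have h3 := kk_bound (u := pt s - l) (by linarith) h2
    have hq : 0 < 1 + (s - l.re) ^ 2 := by positivity
    have h4 : 16 / ((pt s - l).im * (1 + (pt s - l).re ^ 2)) ≤
        (128 / Real.pi) * (1 + (s - l.re) ^ 2)⁻¹ := by
      rw [hre]
      have e : (128 / Real.pi) * (1 + (s - l.re) ^ 2)⁻¹ =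
          16 / ((Real.pi / 8) * (1 + (s - l.re) ^ 2)) := by
        field_simp
        norm_num
      rw [e]
      gcongr
    rw [norm_mul, mul_assoc]
    exact mul_le_mul (hM s) (h3.trans h4) (norm_nonneg _) hM0
  have hint : ‖∫ s : ℝ, d s * kk (pt s - l)‖ ≤ 128 * M := by
    refine (MeasureTheory.norm_integral_le_of_norm_le (hi0.const_mul (M * (128 / Real.pi)))
      (Filter.Eventually.of_forall hpt)).trans ?_
    rw [MeasureTheory.integral_const_mul, hv]
    have : M * (128 / Real.pi) * Real.pi = 128 * M := by field_simp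
    rw [this]
  unfold Kint
  rw [norm_mul, norm_neg]
  have hn : ‖(1 / (2 * Real.pi * I) : ℂ)‖ = 1 / (2 * Real.pi) := by
    rw [norm_div, norm_mul, norm_mul, Complex.norm_I]
    simp [abs_of_pos hpi]
  rw [hn]
  calc 1 / (2 * Real.pi) * ‖∫ s : ℝ, d s * kk (pt s - l)‖ ≤ 1 / (2 * Real.pi) * (128 * M) := by
        gcongr
    _ ≤ 25 * M := by
        rw [div_mul_eq_mul_div, one_mul, div_le_iff₀ (by positivity)]
        nlinarith

end Pool.Agent.Helper621.DAP
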