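import Pool.Agent.Helper621.DAP.Defs
import Pool.Agent.Helper621.DAP.P_kk_bound

set_option autoImplicit false

open Complex Metric Set Filter Topology Classical ZeroAtInfty

namespace Pool.Agent.Helper621.DAP


theorem kk_ne_11319 {u : ℂ} (h0 : 0 < u.im) (h2 : u.im < 2) : u * (u ^ 2 + 16) ≠ 0 := by
  apply mul_ne_zero
  · intro h
    rw [h] at h0
    simp at h0
  · intro h
    have h1 : (u - 4 * I) * (u + 4 * I) = 0 := by
      have hI : I ^ 2 = -1 := I_sq
      linear_combination h - 16 * hI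
    rcases mul_eq_zero.1 h1 with h3 | h3
    · have h4 := congrArg Complex.im h3
      simp at h4
      linarith
    · have h4 := congrArg Complex.im h3
      simp at h4
      linarith

theorem kk_deriv_11319 {u : ℂ} (h0 : 0 < u.im) (h2 : u.im < 2) :
    HasDerivAt kk (-(3 * u ^ 2 + 16) / 16 * (kk u) ^ 2) u := by
  have hne := kk_ne_11319 h0 h2
  have h1 : HasDerivAt (fun u : ℂ => u * (u ^ 2 + 16)) (1 * (u ^ 2 + 16) + u * (2 * u)) u := by
    have h3 : HasDerivAt (fun u : ℂ => u ^ 2 + 16) (2 * u) u := by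
      have := (hasDerivAt_pow 2 u).add_const (16 : ℂ)
      simpa using this
    exact (hasDerivAt_id u).mul h3
  have h4 := (hasDerivAt_const u (16 : ℂ)).div h1 hne
  have h5 : (0 * (u * (u ^ 2 + 16)) - 16 * (1 * (u ^ 2 + 16) + u * (2 * u))) /
      (u * (u ^ 2 + 16)) ^ 2 = -(3 * u ^ 2 + 16) / 16 * (kk u) ^ 2 := by
    unfold kk
    rw [div_pow, div_mul_div_comm, div_eq_div_iff (pow_ne_zero 2 hne)
      (mul_ne_zero (by norm_num) (pow_ne_zero 2 hne))]
    ring
  rw [h5] at h4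
  exact h4

theorem kk_deriv_bound_11319 {u : ℂ} {η : ℝ} (hη : 0 < η) (h0 : η ≤ u.im) (h2 : u.im ≤ 2) :
    ‖-(3 * u ^ 2 + 16) / 16 * (kk u) ^ 2‖ ≤ 448 / η ^ 2 * (1 + u.re ^ 2)⁻¹ := by
  have h1 := kk_bound (u := u) (lt_of_lt_of_le hη h0) h2
  have hx : (0 : ℝ) < 1 + u.re ^ 2 := by positivity
  have h3 : ‖kk u‖ ≤ 16 / (η * (1 + u.re ^ 2)) := by
    refine h1.trans ?_
    gcongr
  have h4 : ‖-(3 * u ^ 2 + 16) / 16‖ ≤ 28 * (1 + u.re ^ 2) / 16 := by
    rw [norm_div, norm_neg]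
    have h5 : ‖(16 : ℂ)‖ = 16 := by simp
    rw [h5]
    gcongr
    calc ‖3 * u ^ 2 + 16‖ ≤ ‖3 * u ^ 2‖ + ‖(16 : ℂ)‖ := norm_add_le _ _
      _ = 3 * ‖u‖ ^ 2 + 16 := by rw [norm_mul, norm_pow, h5]; simp
      _ ≤ 28 * (1 + u.re ^ 2) := by
        rw [← Complex.normSq_eq_norm_sq, Complex.normSq_apply]
        have : u.im * u.im ≤ 4 := by nlinarith
        nlinarith [sq_nonneg u.re]
  rw [norm_mul, norm_pow]
  calc ‖-(3 * u ^ 2 + 16) / 16‖ * ‖kk u‖ ^ 2
      ≤ (28 * (1 + u.re ^ 2) / 16) * (16 / (η * (1 + u.re ^ 2))) ^ 2 := by gcongr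
    _ = 448 / η ^ 2 * (1 + u.re ^ 2)⁻¹ := by
      field_simp
      ring

theorem kk_meas_11319 : Measurable kk := by
  unfold kk
  fun_prop

theorem pt_meas_11319 : Measurable pt := by
  unfold pt
  fun_prop

theorem Kint_diff {d : ℝ → ℂ} (hd : Continuous d) {M : ℝ} (hM : ∀ s, ‖d s‖ ≤ M) :
    DifferentiableOn ℂ (Kint d) (os (-(8 / 5)) (Real.pi / 8)) := by
  intro l0 hl0
  have hM0 : 0 ≤ M := (norm_nonneg _).trans (hM 0)
  have hpi : Real.pi < 3.2 := by have := Real.pi_lt_d2; linarith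
  obtain ⟨hl1, hl2⟩ := hl0
  -- distance to the boundary
  obtain ⟨r, hr0, hr1, hr2, hr3⟩ : ∃ r : ℝ, 0 < r ∧ r ≤ 1 ∧ r ≤ (Real.pi / 8 - l0.im) / 2 ∧
      r ≤ (l0.im + 8 / 5) / 2 := by
    refine ⟨min 1 (min ((Real.pi / 8 - l0.im) / 2) ((l0.im + 8 / 5) / 2)), ?_, min_le_left _ _,
      (min_le_right _ _).trans (min_le_left _ _), (min_le_right _ _).trans (min_le_right _ _)⟩
    refine lt_min one_pos (lt_min ?_ ?_) <;> linarith
  have him : ∀ (s : ℝ) (l : ℂ), (pt s - l).im = Real.pi / 8 - l.im := by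
    intro s l
    simp [pt]
  have hre : ∀ (s : ℝ) (l : ℂ), (pt s - l).re = s - l.re := by
    intro s l
    simp [pt]
  have hball : ∀ l ∈ ball l0 r, r ≤ Real.pi / 8 - l.im ∧ Real.pi / 8 - l.im < 2 ∧
      |l.re - l0.re| ≤ 1 := by
    intro l hl
    rw [mem_ball, dist_eq_norm] at hl
    have h1 : |(l - l0).im| ≤ ‖l - l0‖ := Complex.abs_im_le_norm _
    have h2 : |(l - l0).re| ≤ ‖l - l0‖ := Complex.abs_re_le_norm _
    rw [Complex.sub_im] at h1
    rw [Complex.sub_re] at h2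
    have h3 := abs_le.1 (h1.trans hl.le)
    refine ⟨by linarith [h3.2], by linarith [h3.1], h2.trans (hl.le.trans hr1)⟩
  have hmeas : ∀ l : ℂ, MeasureTheory.AEStronglyMeasurable
      (fun s : ℝ => d s * kk (pt s - l)) MeasureTheory.volume := fun l =>
    (hd.measurable.mul (kk_meas_11319.comp (pt_meas_11319.sub_const l))).aestronglyMeasurable
  have hint0 : MeasureTheory.Integrable (fun s : ℝ => (1 + (s - l0.re) ^ 2)⁻¹) :=
    (integrable_inv_one_add_sq).comp_sub_right l0.re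
  have key := (hasDerivAt_integral_of_dominated_loc_of_deriv_le
    (μ := MeasureTheory.volume) (F := fun (l : ℂ) (s : ℝ) => d s * kk (pt s - l))
    (F' := fun (l : ℂ) (s : ℝ) =>
      d s * ((-(3 * (pt s - l) ^ 2 + 16) / 16 * (kk (pt s - l)) ^ 2) * (-1)))
    (x₀ := l0) (s := ball l0 r)
    (bound := fun s => M * (3 * (448 / r ^ 2)) * (1 + (s - l0.re) ^ 2)⁻¹)
    (ball_mem_nhds l0 hr0) (Eventually.of_forall hmeas) ?_ ?_ ?_ ?_ ?_).2
  · have h1 := (key.differentiableAt).const_mul (-(1 / (2 * (Real.pi : ℂ) * I)))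
    exact h1.differentiableWithinAt
  · -- integrable at l0
    have hr4 : 0 < Real.pi / 8 - l0.im := by linarith
    refine (hint0.const_mul (M * (16 / (Real.pi / 8 - l0.im)))).mono' (hmeas l0)
      (Eventually.of_forall fun s => ?_)
    rw [norm_mul]
    have h1 := kk_bound (u := pt s - l0) (by rw [him]; exact hr4) (by rw [him]; linarith)
    rw [him, hre] at h1
    calc ‖d s‖ * ‖kk (pt s - l0)‖
        ≤ M * (16 / ((Real.pi / 8 - l0.im) * (1 + (s - l0.re) ^ 2))) := by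
          gcongr
          exact hM s
      _ = M * (16 / (Real.pi / 8 - l0.im)) * (1 + (s - l0.re) ^ 2)⁻¹ := by
          have : (0 : ℝ) < 1 + (s - l0.re) ^ 2 := by positivity
          field_simp
  · -- measurability of F'
    have h1 : Measurable fun s : ℝ => pt s - l0 := pt_meas_11319.sub_const l0
    have h2 : Measurable fun s : ℝ => kk (pt s - l0) := kk_meas_11319.comp h1
    have h3 : Measurable fun s : ℝ =>
        d s * ((-(3 * (pt s - l0) ^ 2 + 16) / 16 * (kk (pt s - l0)) ^ 2) * (-1)) := by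
      have hdm := hd.measurable
      fun_prop
    exact h3.aestronglyMeasurable
  · -- bound
    refine Eventually.of_forall fun s l hl => ?_
    obtain ⟨hb1, hb2, hb3⟩ := hball l hl
    have h1 := kk_deriv_bound_11319 (u := pt s - l) hr0 (by rw [him]; exact hb1)
      (by rw [him]; exact hb2.le)
    rw [hre] at h1
    rw [norm_mul, norm_mul, norm_neg, norm_one, mul_one]
    have h2 : (1 + (s - l.re) ^ 2)⁻¹ ≤ 3 * (1 + (s - l0.re) ^ 2)⁻¹ := by
      rw [← div_eq_mul_inv, inv_eq_one_div, div_le_div_iff₀ (by positivity) (by positivity)]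
      have h3 := abs_le.1 hb3
      nlinarith [sq_nonneg (2 * (s - l.re) - (l.re - l0.re)), h3.1, h3.2,
        mul_nonneg (sub_nonneg.2 h3.2) (by linarith [h3.1] : (0:ℝ) ≤ l.re - l0.re + 1)]
    calc ‖d s‖ * ‖-(3 * (pt s - l) ^ 2 + 16) / 16 * (kk (pt s - l)) ^ 2‖
        ≤ M * (448 / r ^ 2 * (1 + (s - l.re) ^ 2)⁻¹) := by
          gcongr
          exact hM s
      _ ≤ M * (448 / r ^ 2 * (3 * (1 + (s - l0.re) ^ 2)⁻¹)) := by gcongr
      _ = M * (3 * (448 / r ^ 2)) * (1 + (s - l0.re) ^ 2)⁻¹ := by ring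
  · exact hint0.const_mul _
  · refine Eventually.of_forall fun s l hl => ?_
    obtain ⟨hb1, hb2, hb3⟩ := hball l hl
    have h1 := kk_deriv_11319 (u := pt s - l) (by rw [him]; linarith) (by rw [him]; exact hb2)
    have h2 : HasDerivAt (fun l : ℂ => pt s - l) (-1) l := by
      simpa using (hasDerivAt_id l).const_sub (pt s)
    exact (h1.comp l h2).const_mul (d s)

end Pool.Agent.Helper621.DAP
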