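import Pool.Agent.Helper621.DAP.Defs
import Pool.Agent.Helper621.DAP.P_kk_bound
import Pool.Agent.Helper621.DAP.P_kk_int

set_option autoImplicit false

open Complex Metric Set Filter Topology Classical ZeroAtInfty

namespace Pool.Agent.Helper621.DAP


theorem Kint_top_aux {d : ℝ → ℂ} (hd : Continuous d) {M : ℝ} (hM : ∀ s, ‖d s‖ ≤ M) {L : ℂ}
    (hL : Tendsto d atTop (𝓝 L)) (C : ℝ) (hC : 0 ≤ C) :
    Tendsto (fun x : ℝ => ∫ s : ℝ, ‖d (s + x) - L‖ * (C / (1 + s ^ 2))) atTop (𝓝 0) := by
  have h0 : (∫ s : ℝ, ‖L - L‖ * (C / (1 + s ^ 2))) = 0 := by simp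
  rw [← h0]
  apply MeasureTheory.tendsto_integral_filter_of_dominated_convergence
    (fun s => (M + ‖L‖) * (C / (1 + s ^ 2)))
  · refine Eventually.of_forall fun x => ?_
    apply Continuous.aestronglyMeasurable
    have : ∀ s : ℝ, 1 + s ^ 2 ≠ 0 := fun s => by positivity
    fun_prop (disch := assumption)
  · refine Eventually.of_forall fun x => Eventually.of_forall fun s => ?_
    rw [norm_mul, norm_norm, Real.norm_of_nonneg (by positivity : 0 ≤ C / (1 + s ^ 2))]
    apply mul_le_mul_of_nonneg_right _ (by positivity)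
    exact (norm_sub_le _ _).trans (by gcongr; exact hM _)
  · apply MeasureTheory.Integrable.const_mul
    simp only [div_eq_mul_inv]
    exact integrable_inv_one_add_sq.const_mul C
  · refine Eventually.of_forall fun s => ?_
    apply Tendsto.mul_const
    apply Tendsto.norm
    apply Tendsto.sub_const
    exact hL.comp (tendsto_atTop_add_const_left atTop s tendsto_id)

theorem Kint_top {d : ℝ → ℂ} (hd : Continuous d) {M : ℝ} (hM : ∀ s, ‖d s‖ ≤ M) {L : ℂ}
    (hL : Tendsto d atTop (𝓝 L)) {ε : ℝ} (hε : 0 < ε) :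
    ∃ X : ℝ, ∀ l ∈ cs (-(Real.pi / 2)) 0, X ≤ l.re → ‖Kint d l - L / 2‖ ≤ ε := by
  have hpi := Real.pi_pos
  have hpi3 := Real.pi_gt_three
  have hpi32 : Real.pi < 3.15 := Real.pi_lt_d2
  set C : ℝ := 16 / (Real.pi / 8) with hC
  have hC0 : 0 ≤ C := by positivity
  have ht := Kint_top_aux hd hM hL C hC0
  have hev : ∀ᶠ x in atTop, (∫ s : ℝ, ‖d (s + x) - L‖ * (C / (1 + s ^ 2))) < ε :=
    ht.eventually (gt_mem_nhds hε)
  obtain ⟨X, hX⟩ := eventually_atTop.1 hev
  refine ⟨X, fun l hl hlX => ?_⟩
  have hx := hX l.re hlX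
  obtain ⟨hl1, hl2⟩ := hl
  set y : ℝ := Real.pi / 8 - l.im with hy
  have hy0 : 0 < y := by linarith
  have hy1 : Real.pi / 8 ≤ y := by linarith
  have hy2 : y ≤ 2 := by linarith
  obtain ⟨hki, hkv⟩ := kk_int hy0 hy2
  have hkc : Continuous (fun s : ℝ => kk ((s : ℂ) + y * I)) := by
    unfold kk
    apply Continuous.div continuous_const (by fun_prop)
    intro s
    have h1 : ((s : ℂ) + y * I) ≠ 0 := by
      intro h
      have := congrArg Complex.im h
      simp at this
      linarith
    have h2 : ((s : ℂ) + y * I) ^ 2 + 16 ≠ 0 := by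
      intro h
      have e1 := congrArg Complex.re h
      have e2 := congrArg Complex.im h
      simp [pow_two] at e1 e2
      rcases (by
        have : s * y = 0 := by linarith
        exact mul_eq_zero.1 this) with h3 | h3
      · subst h3
        nlinarith
      · linarith
    exact mul_ne_zero h1 h2
  have hb : ∀ s : ℝ, ‖kk ((s : ℂ) + y * I)‖ ≤ C / (1 + s ^ 2) := by
    intro s
    have h1 := kk_bound (u := (s : ℂ) + y * I) (by simpa using hy0) (by simpa using hy2)
    refine h1.trans ?_
    simp only [add_im, ofReal_im, mul_im, ofReal_re, I_im, mul_one, I_re, mul_zero, add_zero,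
      zero_add, add_re, mul_re, sub_zero, zero_sub, neg_zero]
    rw [hC, div_div]
    apply div_le_div_of_nonneg_left (by norm_num) (by positivity)
    gcongr
  have h1 : Kint d l = -(1 / (2 * Real.pi * I)) * ∫ s : ℝ, d (s + l.re) * kk ((s : ℂ) + y * I) := by
    unfold Kint
    congr 1
    rw [← MeasureTheory.integral_add_right_eq_self (fun s : ℝ => d s * kk (pt s - l)) l.re]
    congr 1
    funext s
    congr 2
    unfold pt
    apply Complex.ext
    · simp
    · simp [hy]
  have h2 : L / 2 = -(1 / (2 * Real.pi * I)) * ∫ s : ℝ, L * kk ((s : ℂ) + y * I) := by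
    rw [MeasureTheory.integral_const_mul, hkv]
    have : (Real.pi : ℂ) ≠ 0 := by exact_mod_cast hpi.ne'
    field_simp
  have hint1 : MeasureTheory.Integrable (fun s : ℝ => d (s + l.re) * kk ((s : ℂ) + y * I)) := by
    apply MeasureTheory.Integrable.bdd_mul (c := M) hki
    · exact (hd.comp (by fun_prop)).aestronglyMeasurable
    · exact Eventually.of_forall fun s => hM _
  have hint2 : MeasureTheory.Integrable (fun s : ℝ => L * kk ((s : ℂ) + y * I)) :=
    hki.const_mul L
  rw [h1, h2, ← mul_sub, ← MeasureTheory.integral_sub hint1 hint2, norm_mul]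
  have h3 : ‖-(1 / (2 * Real.pi * I))‖ ≤ 1 := by
    rw [norm_neg, norm_div, norm_one, norm_mul, norm_mul, Complex.norm_I, mul_one,
      Complex.norm_real, Real.norm_of_nonneg hpi.le]
    simp only [Complex.norm_ofNat]
    rw [div_le_one (by positivity)]
    linarith
  have h4 : ‖∫ s : ℝ, (d (s + l.re) * kk ((s : ℂ) + y * I) - L * kk ((s : ℂ) + y * I))‖ ≤
      ∫ s : ℝ, ‖d (s + l.re) - L‖ * (C / (1 + s ^ 2)) := by
    apply MeasureTheory.norm_integral_le_of_norm_le
    · have h5 : MeasureTheory.Integrable (fun s : ℝ => C / (1 + s ^ 2)) := by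
        simp only [div_eq_mul_inv]
        exact integrable_inv_one_add_sq.const_mul C
      apply MeasureTheory.Integrable.bdd_mul (c := M + ‖L‖) h5
      · apply Continuous.aestronglyMeasurable
        fun_prop
      · refine Eventually.of_forall fun s => ?_
        rw [norm_norm]
        exact (norm_sub_le _ _).trans (by gcongr; exact hM _)
    · refine Eventually.of_forall fun s => ?_
      rw [← sub_mul, norm_mul]
      exact mul_le_mul_of_nonneg_left (hb s) (norm_nonneg _)
  calc _ ≤ 1 * (∫ s : ℝ, ‖d (s + l.re) - L‖ * (C / (1 + s ^ 2))) := by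
        apply mul_le_mul h3 h4 (norm_nonneg _) zero_le_one
    _ ≤ ε := by linarith

end Pool.Agent.Helper621.DAP
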