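import Pool.Agent.Helper621.DAP.Defs

set_option autoImplicit false

open Complex Metric Set Filter Topology Classical ZeroAtInfty

namespace Pool.Agent.Helper621.DAP
theorem line_cont_aux {b c : ℝ} {Φ : ℂ → ℂ}
    (hc : ContinuousOn Φ (cs (-b) b)) (h1 : -b ≤ c) (h2 : c ≤ b) :
    Continuous (fun s : ℝ => Φ ((s : ℂ) + c * I)) := by
  refine hc.comp_continuous (by fun_prop) ?_
  intro s
  constructor
  · simpa using h1
  · simpa using h2

theorem line_bound_aux {b c : ℝ} {Φ : ℂ → ℂ} {K : ℝ}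
    (hK : ∀ t ∈ cs (-b) b, ‖Φ t‖ ≤ K / (1 + t.re ^ 2)) (h1 : -b ≤ c) (h2 : c ≤ b) (s : ℝ) :
    ‖Φ ((s : ℂ) + c * I)‖ ≤ K / (1 + s ^ 2) := by
  have := hK ((s : ℂ) + c * I) ⟨by simpa using h1, by simpa using h2⟩
  simpa using this

theorem line_int_aux {b c : ℝ} {Φ : ℂ → ℂ} {K : ℝ}
    (hc : ContinuousOn Φ (cs (-b) b)) (hK : ∀ t ∈ cs (-b) b, ‖Φ t‖ ≤ K / (1 + t.re ^ 2))
    (h1 : -b ≤ c) (h2 : c ≤ b) :
    MeasureTheory.Integrable (fun s : ℝ => Φ ((s : ℂ) + c * I)) := by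
  refine MeasureTheory.Integrable.mono' (integrable_inv_one_add_sq.const_mul K)
    (line_cont_aux hc h1 h2).aestronglyMeasurable ?_
  refine Filter.Eventually.of_forall fun s => ?_
  have := line_bound_aux hK h1 h2 s
  rwa [div_eq_mul_inv] at this

/-- Cauchy theorem for a strip -/
theorem line_shift {b : ℝ} (hb : 0 < b) {Φ : ℂ → ℂ} {K : ℝ}
    (hc : ContinuousOn Φ (cs (-b) b)) (hd : DifferentiableOn ℂ Φ (os (-b) b))
    (hK : ∀ t ∈ cs (-b) b, ‖Φ t‖ ≤ K / (1 + t.re ^ 2)) :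
    ∫ s : ℝ, Φ ((s : ℂ) + b * I) = ∫ s : ℝ, Φ ((s : ℂ) - b * I) := by
  have hbb : -b ≤ b := by linarith
  -- horizontal parts
  have T1 : Tendsto (fun X : ℝ => ∫ x in (-X)..X, Φ ((x : ℂ) + ((-b : ℝ) : ℂ) * I)) atTop
      (𝓝 (∫ s : ℝ, Φ ((s : ℂ) + ((-b : ℝ) : ℂ) * I))) :=
    MeasureTheory.intervalIntegral_tendsto_integral (line_int_aux hc hK le_rfl hbb)
      tendsto_neg_atTop_atBot tendsto_id
  have T2 : Tendsto (fun X : ℝ => ∫ x in (-X)..X, Φ ((x : ℂ) + ((b : ℝ) : ℂ) * I)) atTop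
      (𝓝 (∫ s : ℝ, Φ ((s : ℂ) + ((b : ℝ) : ℂ) * I))) :=
    MeasureTheory.intervalIntegral_tendsto_integral (line_int_aux hc hK hbb le_rfl)
      tendsto_neg_atTop_atBot tendsto_id
  -- vertical parts
  have hlim : Tendsto (fun X : ℝ => K / (1 + X ^ 2) * |b - (-b)|) atTop (𝓝 0) := by
    have h1 : Tendsto (fun X : ℝ => 1 + X ^ 2) atTop atTop :=
      tendsto_atTop_add_const_left _ _ (tendsto_pow_atTop (by norm_num))
    have h2 : Tendsto (fun X : ℝ => K / (1 + X ^ 2)) atTop (𝓝 0) := h1.const_div_atTop K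
    simpa using h2.mul_const (|b - (-b)|)
  have hv : ∀ X : ℝ, ‖∫ y in (-b)..b, Φ ((X : ℂ) + (y : ℂ) * I)‖ ≤ K / (1 + X ^ 2) * |b - (-b)| := by
    intro X
    apply intervalIntegral.norm_integral_le_of_norm_le_const
    intro y hy
    rw [Set.uIoc_of_le hbb] at hy
    exact line_bound_aux hK hy.1.le hy.2 X
  have T3 : Tendsto (fun X : ℝ => ∫ y in (-b)..b, Φ ((X : ℂ) + (y : ℂ) * I)) atTop (𝓝 0) :=
    squeeze_zero_norm hv hlim
  have T4 : Tendsto (fun X : ℝ => ∫ y in (-b)..b, Φ (((-X : ℝ) : ℂ) + (y : ℂ) * I)) atTop (𝓝 0) := by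
    refine squeeze_zero_norm (fun X => ?_) hlim
    have := hv (-X)
    rwa [neg_sq] at this
  have hzero : ∀ X : ℝ, 0 < X →
      (∫ x in (-X)..X, Φ ((x : ℂ) + ((-b : ℝ) : ℂ) * I)) -
      (∫ x in (-X)..X, Φ ((x : ℂ) + ((b : ℝ) : ℂ) * I)) +
      I • (∫ y in (-b)..b, Φ ((X : ℂ) + (y : ℂ) * I)) -
      I • (∫ y in (-b)..b, Φ (((-X : ℝ) : ℂ) + (y : ℂ) * I)) = 0 := by
    intro X hX
    have hXX : -X ≤ X := by linarith
    have := Complex.integral_boundary_rect_eq_zero_of_continuousOn_of_differentiableOn Φ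
      (⟨-X, -b⟩ : ℂ) (⟨X, b⟩ : ℂ) ?_ ?_
    · simpa only using this
    · refine hc.mono ?_
      intro t ht
      rw [Complex.mem_reProdIm] at ht
      have h2 := ht.2
      simp only [Set.uIcc_of_le hbb] at h2
      exact ⟨h2.1, h2.2⟩
    · refine hd.mono ?_
      intro t ht
      rw [Complex.mem_reProdIm] at ht
      have h2 := ht.2
      simp only [min_eq_left hbb, max_eq_right hbb] at h2
      exact ⟨h2.1, h2.2⟩
  have TT := ((T1.sub T2).add (T3.const_smul I)).sub (T4.const_smul I)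
  have TZ : Tendsto (fun X : ℝ => (0 : ℂ)) atTop
      (𝓝 ((∫ s : ℝ, Φ ((s : ℂ) + ((-b : ℝ) : ℂ) * I)) - (∫ s : ℝ, Φ ((s : ℂ) + ((b : ℝ) : ℂ) * I)) +
        I • (0 : ℂ) - I • (0 : ℂ))) := by
    refine TT.congr' ?_
    filter_upwards [Filter.eventually_gt_atTop (0 : ℝ)] with X hX
    exact hzero X hX
  have h0 := tendsto_nhds_unique TZ tendsto_const_nhds
  simp only [smul_zero, add_zero, sub_zero] at h0
  have h1 := sub_eq_zero.mp h0
  rw [← h1]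
  congr 1
  ext s
  congr 1
  push_cast
  ring

end Pool.Agent.Helper621.DAP
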