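import Pool.Agent.Helper621.DAP.Defs
import Pool.Agent.Helper621.DAP.P_kk_bound
import Pool.Agent.Helper621.DAP.P_kk_int
import Pool.Agent.Helper621.DAP.P_Kint_integrable
import Pool.Agent.Helper621.DAP.P_line_shift

set_option autoImplicit false

open Complex Metric Set Filter Topology Classical ZeroAtInfty

namespace Pool.Agent.Helper621.DAP


/-- the decomposition of an odd function on the thin strip -/
theorem cousin {D : ℂ → ℂ} {M : ℝ} (hc : ContinuousOn D (cs (-(Real.pi / 8)) (Real.pi / 8)))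
    (hd : DifferentiableOn ℂ D (os (-(Real.pi / 8)) (Real.pi / 8)))
    (hM : ∀ t ∈ cs (-(Real.pi / 8)) (Real.pi / 8), ‖D t‖ ≤ M)
    (hodd : ∀ t ∈ cs (-(Real.pi / 8)) (Real.pi / 8), D (-t) = -D t)
    {l : ℂ} (hl : l ∈ os (-(Real.pi / 8)) (Real.pi / 8)) :
    Kint (fun s => D (pt s)) l - Kint (fun s => D (pt s)) (-l) = D l := by
  have hpi0 := Real.pi_pos
  have hpi4 := Real.pi_lt_four
  obtain ⟨hl1, hl2⟩ := hl
  have hptcs : ∀ s : ℝ, pt s ∈ cs (-(Real.pi / 8)) (Real.pi / 8) := fun s => by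
    have : (pt s).im = Real.pi / 8 := by simp [pt]
    constructor <;> rw [this] <;> linarith
  have hptcs' : ∀ s : ℝ, ((s : ℂ) - (Real.pi / 8 : ℝ) * I) ∈ cs (-(Real.pi / 8)) (Real.pi / 8) := fun s => by
    have : ((s : ℂ) - (Real.pi / 8 : ℝ) * I).im = -(Real.pi / 8) := by simp
    constructor <;> rw [this] <;> linarith
  have hcontpt : Continuous pt := by unfold pt; fun_prop
  have hdc : Continuous (fun s : ℝ => D (pt s)) := by
    rw [continuous_iff_continuousAt]
    intro s
    have := (hc.comp_continuous hcontpt hptcs)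
    exact this.continuousAt
  have hdM : ∀ s : ℝ, ‖D (pt s)‖ ≤ M := fun s => hM _ (hptcs s)
  have hlos : l ∈ os (-(8 / 5)) (Real.pi / 8) := ⟨by linarith, hl2⟩
  have hnlos : -l ∈ os (-(8 / 5)) (Real.pi / 8) := by
    constructor <;> rw [Complex.neg_im] <;> linarith
  have hI1 := Kint_integrable hdc hdM hlos
  have hI2 := Kint_integrable hdc hdM hnlos
  have kkodd : ∀ u : ℂ, kk (-u) = -kk u := fun u => by
    unfold kk
    rw [neg_sq, neg_mul, div_neg]
  -- the second integral
  have hsub : ∀ s : ℝ, D (pt (-s)) * kk (pt (-s) - -l)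
      = D ((s : ℂ) - (Real.pi / 8 : ℝ) * I) * kk ((s : ℂ) - (Real.pi / 8 : ℝ) * I - l) := by
    intro s
    have e1 : pt (-s) = -((s : ℂ) - (Real.pi / 8 : ℝ) * I) := by
      unfold pt; push_cast; ring
    rw [e1, hodd _ (hptcs' s)]
    have e2 : -((s : ℂ) - (Real.pi / 8 : ℝ) * I) - -l = -((s : ℂ) - (Real.pi / 8 : ℝ) * I - l) := by ring
    rw [e2, kkodd]; ring
  have hI2' : MeasureTheory.Integrable (fun s : ℝ =>
      D ((s : ℂ) - (Real.pi / 8 : ℝ) * I) * kk ((s : ℂ) - (Real.pi / 8 : ℝ) * I - l)) := by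
    have := hI2.comp_neg
    refine this.congr (Filter.Eventually.of_forall fun s => ?_)
    exact hsub s
  have hK2 : (∫ s : ℝ, D (pt s) * kk (pt s - -l)) =
      ∫ s : ℝ, D ((s : ℂ) - (Real.pi / 8 : ℝ) * I) * kk ((s : ℂ) - (Real.pi / 8 : ℝ) * I - l) := by
    rw [← MeasureTheory.integral_neg_eq_self (fun s : ℝ => D (pt s) * kk (pt s - -l))]
    exact MeasureTheory.integral_congr_ae (Filter.Eventually.of_forall fun s => hsub s)
  -- integrals of the kernel
  have ha1 : ∀ s : ℝ, pt s - l = ((s - l.re : ℝ) : ℂ) + ((Real.pi / 8 - l.im : ℝ) : ℂ) * I := by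
    intro s
    apply Complex.ext <;> simp [pt]
  have ha2 : ∀ s : ℝ, (((-s : ℝ)) : ℂ) - (Real.pi / 8 : ℝ) * I - l
      = -(((s + l.re : ℝ) : ℂ) + ((Real.pi / 8 + l.im : ℝ) : ℂ) * I) := by
    intro s
    apply Complex.ext <;> simp <;> ring
  obtain ⟨hk1i, hk1⟩ := kk_int (y := Real.pi / 8 - l.im) (by linarith) (by linarith)
  obtain ⟨hk2i, hk2⟩ := kk_int (y := Real.pi / 8 + l.im) (by linarith) (by linarith)
  have hJ1i : MeasureTheory.Integrable (fun s : ℝ => kk (pt s - l)) := by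
    have := hk1i.comp_sub_right l.re
    refine this.congr (Filter.Eventually.of_forall fun s => ?_)
    simp only
    rw [ha1 s]
  have hJ1 : ∫ s : ℝ, kk (pt s - l) = -(Real.pi * I) := by
    rw [← hk1, ← MeasureTheory.integral_sub_right_eq_self
      (fun x : ℝ => kk ((x : ℂ) + ((Real.pi / 8 - l.im : ℝ) : ℂ) * I)) l.re]
    exact MeasureTheory.integral_congr_ae (Filter.Eventually.of_forall fun s => by
      simp only
      rw [ha1 s])
  have hJ2i : MeasureTheory.Integrable (fun s : ℝ => kk ((s : ℂ) - (Real.pi / 8 : ℝ) * I - l)) := by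
    have h1 := (hk2i.comp_add_right l.re).neg
    have h2 := h1.comp_neg
    refine h2.congr (Filter.Eventually.of_forall fun s => ?_)
    have := ha2 (-s)
    rw [neg_neg] at this
    simp only [Pi.neg_apply]
    rw [this, kkodd]
  have hJ2 : ∫ s : ℝ, kk ((s : ℂ) - (Real.pi / 8 : ℝ) * I - l) = Real.pi * I := by
    rw [← MeasureTheory.integral_neg_eq_self (fun s : ℝ => kk ((s : ℂ) - (Real.pi / 8 : ℝ) * I - l))]
    have : ∀ s : ℝ, kk (((-s : ℝ) : ℂ) - (Real.pi / 8 : ℝ) * I - l)
        = -kk (((s + l.re : ℝ) : ℂ) + ((Real.pi / 8 + l.im : ℝ) : ℂ) * I) := fun s => by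
      rw [ha2 s, kkodd]
    simp only [this]
    rw [MeasureTheory.integral_neg, MeasureTheory.integral_add_right_eq_self
      (fun x : ℝ => kk ((x : ℂ) + ((Real.pi / 8 + l.im : ℝ) : ℂ) * I)) l.re, hk2, neg_neg]
  -- the function Φ
  have hosn : os (-(Real.pi / 8)) (Real.pi / 8) ∈ 𝓝 l := by
    apply IsOpen.mem_nhds
    · exact (isOpen_lt continuous_const Complex.continuous_im).inter
        (isOpen_lt Complex.continuous_im continuous_const)
    · exact ⟨hl1, hl2⟩
  have hoscs : os (-(Real.pi / 8)) (Real.pi / 8) ⊆ cs (-(Real.pi / 8)) (Real.pi / 8) :=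
    fun t ht => ⟨ht.1.le, ht.2.le⟩
  have hcsn : cs (-(Real.pi / 8)) (Real.pi / 8) ∈ 𝓝 l := Filter.mem_of_superset hosn hoscs
  have hDl : DifferentiableAt ℂ D l := hd.differentiableAt hosn
  have hds_c : ContinuousOn (dslope D l) (cs (-(Real.pi / 8)) (Real.pi / 8)) :=
    (continuousOn_dslope hcsn).2 ⟨hc, hDl⟩
  have hds_d : DifferentiableOn ℂ (dslope D l) (os (-(Real.pi / 8)) (Real.pi / 8)) :=
    (Complex.differentiableOn_dslope hosn).2 hd
  have hre : ∀ t ∈ cs (-(Real.pi / 8)) (Real.pi / 8),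
      15 + (t - l).re ^ 2 ≤ ((t - l) ^ 2 + 16).re := by
    intro t ht
    have h1 : (t - l).im ^ 2 ≤ 1 := by
      have a1 : (t - l).im = t.im - l.im := by simp
      rw [a1]
      have := ht.1
      have := ht.2
      have b1 : -1 ≤ t.im - l.im := by linarith
      have b2 : t.im - l.im ≤ 1 := by linarith
      nlinarith
    have h2 : ((t - l) ^ 2 + 16).re = (t - l).re ^ 2 - (t - l).im ^ 2 + 16 := by
      rw [sq (t - l)]
      simp only [Complex.add_re, Complex.mul_re, Complex.re_ofNat]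
      ring
    rw [h2]; linarith
  have hne : ∀ t ∈ cs (-(Real.pi / 8)) (Real.pi / 8), (t - l) ^ 2 + 16 ≠ 0 := by
    intro t ht h0
    have := hre t ht
    rw [h0, Complex.zero_re] at this
    nlinarith [sq_nonneg (t - l).re]
  have hΦc : ContinuousOn (fun t => dslope D l t * (16 / ((t - l) ^ 2 + 16)))
      (cs (-(Real.pi / 8)) (Real.pi / 8)) := by
    refine hds_c.mul (ContinuousOn.div continuousOn_const ?_ hne)
    fun_prop
  have hΦd : DifferentiableOn ℂ (fun t => dslope D l t * (16 / ((t - l) ^ 2 + 16)))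
      (os (-(Real.pi / 8)) (Real.pi / 8)) := by
    refine hds_d.mul (DifferentiableOn.div (differentiableOn_const _) ?_
      (fun t ht => hne t (hoscs ht)))
    fun_prop
  -- bound of the divided difference
  have hM0 : 0 ≤ M := (norm_nonneg _).trans (hdM 0)
  have hcompact : IsCompact (closedBall l 1 ∩ cs (-(Real.pi / 8)) (Real.pi / 8)) := by
    refine (isCompact_closedBall l 1).inter_right ?_
    exact (isClosed_le continuous_const Complex.continuous_im).inter
      (isClosed_le Complex.continuous_im continuous_const)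
  obtain ⟨C0, hC0⟩ := hcompact.exists_bound_of_continuousOn (hds_c.mono inter_subset_right)
  have hdsb : ∀ t ∈ cs (-(Real.pi / 8)) (Real.pi / 8), ‖dslope D l t‖ ≤ max C0 (2 * M) := by
    intro t ht
    by_cases h : t ∈ closedBall l 1
    · exact (hC0 t ⟨h, ht⟩).trans (le_max_left _ _)
    · have h1 : 1 < ‖t - l‖ := by
        rw [mem_closedBall, not_le, dist_eq_norm] at h
        exact h
      have hne' : t ≠ l := by
        rintro rfl
        rw [sub_self, norm_zero] at h1
        linarith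
      rw [dslope_of_ne _ hne', slope_def_field, norm_div]
      refine le_trans ?_ (le_max_right _ _)
      rw [div_le_iff₀ (by linarith)]
      have h2 : ‖D t - D l‖ ≤ 2 * M := by
        refine (norm_sub_le _ _).trans ?_
        have := hM t ht
        have := hM l (hoscs ⟨hl1, hl2⟩)
        linarith
      nlinarith
  have hC1 : 0 ≤ max C0 (2 * M) := le_trans (by linarith) (le_max_right _ _)
  have hΦK : ∀ t ∈ cs (-(Real.pi / 8)) (Real.pi / 8),
      ‖dslope D l t * (16 / ((t - l) ^ 2 + 16))‖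
        ≤ (max C0 (2 * M) * (32 * (1 + l.re ^ 2))) / (1 + t.re ^ 2) := by
    intro t ht
    rw [norm_mul, mul_div_assoc]
    refine mul_le_mul (hdsb t ht) ?_ (norm_nonneg _) hC1
    have h1 : 15 + (t - l).re ^ 2 ≤ ‖(t - l) ^ 2 + 16‖ :=
      (hre t ht).trans (Complex.re_le_norm _)
    have h2 : ‖(16 : ℂ)‖ = 16 := by norm_num
    rw [norm_div, h2, div_le_div_iff₀ (by nlinarith [sq_nonneg (t - l).re])
      (by nlinarith [sq_nonneg t.re])]
    have h3 : (t - l).re = t.re - l.re := by simp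
    rw [h3] at h1
    have h4 : 16 * (1 + t.re ^ 2) ≤ 32 * (1 + l.re ^ 2) * (15 + (t.re - l.re) ^ 2) := by
      nlinarith [sq_nonneg (t.re - 2 * l.re), sq_nonneg (l.re * (t.re - l.re)), sq_nonneg (t.re - l.re),
        sq_nonneg l.re, sq_nonneg t.re]
    refine h4.trans ?_
    exact mul_le_mul_of_nonneg_left h1 (by nlinarith [sq_nonneg l.re])
  have hshift := line_shift (b := Real.pi / 8) (by linarith) hΦc hΦd hΦK
  have hΦne : ∀ t : ℂ, t ≠ l → dslope D l t * (16 / ((t - l) ^ 2 + 16))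
      = D t * kk (t - l) - D l * kk (t - l) := by
    intro t ht
    have h1 : t - l ≠ 0 := sub_ne_zero.2 ht
    rw [dslope_of_ne _ ht, slope_def_field]
    unfold kk
    rw [← sub_mul, div_mul_div_comm, mul_div_assoc']
  have e1 : ∀ s : ℝ, dslope D l ((s : ℂ) + (Real.pi / 8 : ℝ) * I) *
      (16 / (((s : ℂ) + (Real.pi / 8 : ℝ) * I - l) ^ 2 + 16))
      = D (pt s) * kk (pt s - l) - D l * kk (pt s - l) := by
    intro s
    refine hΦne (pt s) ?_
    intro h
    have : (pt s).im = l.im := by rw [h]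
    have h2 : (pt s).im = Real.pi / 8 := by simp [pt]
    linarith
  have e2 : ∀ s : ℝ, dslope D l ((s : ℂ) - (Real.pi / 8 : ℝ) * I) *
      (16 / (((s : ℂ) - (Real.pi / 8 : ℝ) * I - l) ^ 2 + 16))
      = D ((s : ℂ) - (Real.pi / 8 : ℝ) * I) * kk ((s : ℂ) - (Real.pi / 8 : ℝ) * I - l)
        - D l * kk ((s : ℂ) - (Real.pi / 8 : ℝ) * I - l) := by
    intro s
    refine hΦne _ ?_
    intro h
    have : ((s : ℂ) - (Real.pi / 8 : ℝ) * I).im = l.im := by rw [h]
    have h2 : ((s : ℂ) - (Real.pi / 8 : ℝ) * I).im = -(Real.pi / 8) := by simp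
    linarith
  simp only [e1, e2] at hshift
  rw [MeasureTheory.integral_sub hI1 (hJ1i.const_mul _),
    MeasureTheory.integral_sub hI2' (hJ2i.const_mul _),
    MeasureTheory.integral_const_mul, MeasureTheory.integral_const_mul, hJ1, hJ2] at hshift
  unfold Kint
  rw [hK2]
  have hpiI : (2 * (Real.pi : ℂ) * I) ≠ 0 := by
    have : (Real.pi : ℂ) ≠ 0 := by exact_mod_cast Real.pi_ne_zero
    simp [this]
  have h5 : (∫ s : ℝ, D (pt s) * kk (pt s - l)) =
      (∫ s : ℝ, D ((s : ℂ) - (Real.pi / 8 : ℝ) * I) * kk ((s : ℂ) - (Real.pi / 8 : ℝ) * I - l))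
        - D l * (2 * Real.pi * I) := by
    linear_combination hshift
  rw [h5]
  field_simp
  ring

end Pool.Agent.Helper621.DAP
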