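import Pool.Agent.Helper621.DAP.Defs
import Pool.Agent.Helper621.DAP.P_Kint_bound
import Pool.Agent.Helper621.DAP.P_Kint_diff
import Pool.Agent.Helper621.DAP.P_Kint_top
import Pool.Agent.Helper621.DAP.P_Kint_bot
import Pool.Agent.Helper621.DAP.P_cousin

set_option autoImplicit false

open Complex Metric Set Filter Topology Classical ZeroAtInfty

namespace Pool.Agent.Helper621.DAP


theorem FE_SF_pt_im (s : ℝ) : (pt s).im = Real.pi / 8 := by
  simp [pt]

theorem FE_SF_pt_re (s : ℝ) : (pt s).re = s := by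
  simp [pt]

theorem FE_SF_pt_cont : Continuous pt := by
  unfold pt
  fun_prop

theorem FE_SF_pt_mem (s : ℝ) : pt s ∈ cs (-(Real.pi / 2)) (Real.pi / 4) := by
  have := Real.pi_pos
  constructor <;> rw [FE_SF_pt_im] <;> linarith

theorem FE_SF_npt_mem (s : ℝ) : -(pt s) ∈ cs (-(Real.pi / 2)) (Real.pi / 4) := by
  have := Real.pi_pos
  constructor <;> rw [neg_im, FE_SF_pt_im] <;> linarith

theorem FE_SF_d_cont {G : ℂ → ℂ} {Lp Lm : ℂ} (h : SF (-(Real.pi / 2)) (Real.pi / 4) G Lp Lm) :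
    Continuous (fun s => G (pt s) - G (-(pt s))) := by
  apply Continuous.sub
  · exact h.cont.comp_continuous FE_SF_pt_cont FE_SF_pt_mem
  · exact h.cont.comp_continuous FE_SF_pt_cont.neg FE_SF_npt_mem

theorem FE_SF_d_bd {G : ℂ → ℂ} {M : ℝ}
    (hM : ∀ l ∈ cs (-(Real.pi / 2)) (Real.pi / 4), ‖G l‖ ≤ M) (s : ℝ) :
    ‖G (pt s) - G (-(pt s))‖ ≤ 2 * M := by
  have h1 := hM _ (FE_SF_pt_mem s)
  have h2 := hM _ (FE_SF_npt_mem s)
  have h3 := norm_sub_le (G (pt s)) (G (-(pt s)))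
  linarith

theorem FE_SF_d_top {G : ℂ → ℂ} {Lp Lm : ℂ} (h : SF (-(Real.pi / 2)) (Real.pi / 4) G Lp Lm) :
    Tendsto (fun s => G (pt s) - G (-(pt s))) atTop (𝓝 (Lp - Lm)) := by
  rw [Metric.tendsto_atTop]
  intro ε hε
  obtain ⟨X1, h1⟩ := h.top (ε / 3) (by positivity)
  obtain ⟨X2, h2⟩ := h.bot (ε / 3) (by positivity)
  refine ⟨max X1 (-X2), fun s hs => ?_⟩
  have hs1 : X1 ≤ s := le_trans (le_max_left _ _) hs
  have hs2 : -X2 ≤ s := le_trans (le_max_right _ _) hs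
  have e1 := h1 (pt s) (FE_SF_pt_mem s) (by rw [FE_SF_pt_re]; exact hs1)
  have e2 := h2 (-(pt s)) (FE_SF_npt_mem s) (by rw [neg_re, FE_SF_pt_re]; linarith)
  rw [dist_eq_norm]
  have e3 : G (pt s) - G (-(pt s)) - (Lp - Lm) = (G (pt s) - Lp) - (G (-(pt s)) - Lm) := by ring
  rw [e3]
  have e4 := norm_sub_le (G (pt s) - Lp) (G (-(pt s)) - Lm)
  linarith

theorem FE_SF_d_bot {G : ℂ → ℂ} {Lp Lm : ℂ} (h : SF (-(Real.pi / 2)) (Real.pi / 4) G Lp Lm) :
    Tendsto (fun s => G (pt s) - G (-(pt s))) atBot (𝓝 (Lm - Lp)) := by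
  rw [Metric.tendsto_nhds]
  intro ε hε
  obtain ⟨X1, h1⟩ := h.bot (ε / 3) (by positivity)
  obtain ⟨X2, h2⟩ := h.top (ε / 3) (by positivity)
  filter_upwards [eventually_le_atBot (min X1 (-X2))] with s hs
  have hs1 : s ≤ X1 := le_trans hs (min_le_left _ _)
  have hs2 : s ≤ -X2 := le_trans hs (min_le_right _ _)
  have e1 := h1 (pt s) (FE_SF_pt_mem s) (by rw [FE_SF_pt_re]; exact hs1)
  have e2 := h2 (-(pt s)) (FE_SF_npt_mem s) (by rw [neg_re, FE_SF_pt_re]; linarith)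
  rw [dist_eq_norm]
  have e3 : G (pt s) - G (-(pt s)) - (Lm - Lp) = (G (pt s) - Lm) - (G (-(pt s)) - Lp) := by ring
  rw [e3]
  have e4 := norm_sub_le (G (pt s) - Lm) (G (-(pt s)) - Lp)
  linarith

theorem FE_SF_HH_symm {G : ℂ → ℂ} {Lp Lm : ℂ} {M : ℝ}
    (h : SF (-(Real.pi / 2)) (Real.pi / 4) G Lp Lm)
    (hM : ∀ l ∈ cs (-(Real.pi / 2)) (Real.pi / 4), ‖G l‖ ≤ M) {l : ℂ}
    (hl : l ∈ os (-(Real.pi / 8)) (Real.pi / 8)) : HH G l = HH G (-l) := by
  have hpi := Real.pi_pos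
  have hsub : ∀ t ∈ cs (-(Real.pi / 8)) (Real.pi / 8), t ∈ cs (-(Real.pi / 2)) (Real.pi / 4) := by
    rintro t ⟨h1, h2⟩
    exact ⟨by linarith, by linarith⟩
  have hneg : ∀ t ∈ cs (-(Real.pi / 8)) (Real.pi / 8), -t ∈ cs (-(Real.pi / 8)) (Real.pi / 8) := by
    rintro t ⟨h1, h2⟩
    exact ⟨by rw [neg_im]; linarith, by rw [neg_im]; linarith⟩
  have hsub' : ∀ t ∈ os (-(Real.pi / 8)) (Real.pi / 8), t ∈ os (-(Real.pi / 2)) (Real.pi / 4) := by
    rintro t ⟨h1, h2⟩
    exact ⟨by linarith, by linarith⟩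
  have hneg' : ∀ t ∈ os (-(Real.pi / 8)) (Real.pi / 8), -t ∈ os (-(Real.pi / 8)) (Real.pi / 8) := by
    rintro t ⟨h1, h2⟩
    exact ⟨by rw [neg_im]; linarith, by rw [neg_im]; linarith⟩
  have hc : ContinuousOn (fun t => G t - G (-t)) (cs (-(Real.pi / 8)) (Real.pi / 8)) := by
    apply ContinuousOn.sub
    · exact h.cont.mono hsub
    · exact h.cont.comp continuousOn_neg (fun t ht => hsub _ (hneg t ht))
  have hd : DifferentiableOn ℂ (fun t => G t - G (-t)) (os (-(Real.pi / 8)) (Real.pi / 8)) := by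
    apply DifferentiableOn.sub
    · exact h.diff.mono hsub'
    · exact h.diff.comp (differentiableOn_id.neg) (fun t ht => hsub' _ (hneg' t ht))
  have hb : ∀ t ∈ cs (-(Real.pi / 8)) (Real.pi / 8), ‖(fun t => G t - G (-t)) t‖ ≤ 2 * M := by
    intro t ht
    have h1 := hM _ (hsub t ht)
    have h2 := hM _ (hsub _ (hneg t ht))
    have h3 := norm_sub_le (G t) (G (-t))
    simp only
    linarith
  have hodd : ∀ t ∈ cs (-(Real.pi / 8)) (Real.pi / 8),
      (fun t => G t - G (-t)) (-t) = -(fun t => G t - G (-t)) t := by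
    intro t _
    simp
  have key := cousin hc hd hb hodd hl
  unfold HH
  linear_combination -key

theorem FE_SF_Kint_diff {G : ℂ → ℂ} {Lp Lm : ℂ} {M : ℝ}
    (h : SF (-(Real.pi / 2)) (Real.pi / 4) G Lp Lm)
    (hM : ∀ l ∈ cs (-(Real.pi / 2)) (Real.pi / 4), ‖G l‖ ≤ M) :
    DifferentiableOn ℂ (Kint (fun s => G (pt s) - G (-(pt s)))) (os (-(8 / 5)) (Real.pi / 8)) :=
  Kint_diff (FE_SF_d_cont h) (FE_SF_d_bd hM)

theorem FE_SF_HH_cont {G : ℂ → ℂ} {Lp Lm : ℂ} {M : ℝ}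
    (h : SF (-(Real.pi / 2)) (Real.pi / 4) G Lp Lm)
    (hM : ∀ l ∈ cs (-(Real.pi / 2)) (Real.pi / 4), ‖G l‖ ≤ M) :
    ContinuousOn (HH G) {l | -(Real.pi / 2) ≤ l.im ∧ l.im < Real.pi / 8} := by
  have hpi := Real.pi_pos
  have hpi' : Real.pi < 3.15 := Real.pi_lt_d2
  apply ContinuousOn.sub
  · apply h.cont.mono
    rintro l ⟨h1, h2⟩
    exact ⟨h1, by linarith⟩
  · apply (FE_SF_Kint_diff h hM).continuousOn.mono
    rintro l ⟨h1, h2⟩
    refine ⟨?_, h2⟩
    norm_num at hpi'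
    linarith

theorem FE_SF_HH_diff {G : ℂ → ℂ} {Lp Lm : ℂ} {M : ℝ}
    (h : SF (-(Real.pi / 2)) (Real.pi / 4) G Lp Lm)
    (hM : ∀ l ∈ cs (-(Real.pi / 2)) (Real.pi / 4), ‖G l‖ ≤ M) :
    DifferentiableOn ℂ (HH G) (os (-(Real.pi / 2)) (Real.pi / 8)) := by
  have hpi := Real.pi_pos
  have hpi' : Real.pi < 3.15 := Real.pi_lt_d2
  apply DifferentiableOn.sub
  · apply h.diff.mono
    rintro l ⟨h1, h2⟩
    exact ⟨h1, by linarith⟩
  · apply (FE_SF_Kint_diff h hM).mono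
    rintro l ⟨h1, h2⟩
    refine ⟨?_, h2⟩
    norm_num at hpi'
    linarith

theorem FE_SF_eq1 {G : ℂ → ℂ} {Lp Lm : ℂ} {M : ℝ}
    (h : SF (-(Real.pi / 2)) (Real.pi / 4) G Lp Lm)
    (hM : ∀ l ∈ cs (-(Real.pi / 2)) (Real.pi / 4), ‖G l‖ ≤ M) {l : ℂ} (hl : l.im < Real.pi / 8) :
    FE G l = HH G l := by
  have hpi := Real.pi_pos
  unfold FE
  split_ifs with h0
  · rfl
  · push Not at h0
    exact (FE_SF_HH_symm h hM ⟨by linarith, hl⟩).symm

theorem FE_SF_eq2 {G : ℂ → ℂ} {Lp Lm : ℂ} {M : ℝ}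
    (h : SF (-(Real.pi / 2)) (Real.pi / 4) G Lp Lm)
    (hM : ∀ l ∈ cs (-(Real.pi / 2)) (Real.pi / 4), ‖G l‖ ≤ M) {l : ℂ} (hl : -(Real.pi / 8) < l.im) :
    FE G l = HH G (-l) := by
  have hpi := Real.pi_pos
  unfold FE
  split_ifs with h0
  · exact FE_SF_HH_symm h hM ⟨hl, by linarith⟩
  · rfl

theorem FE_SF_open1 : IsOpen {l : ℂ | l.im < Real.pi / 8} :=
  isOpen_lt Complex.continuous_im continuous_const

theorem FE_SF_open2 : IsOpen {l : ℂ | -(Real.pi / 8) < l.im} :=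
  isOpen_lt continuous_const Complex.continuous_im

theorem FE_SF {G : ℂ → ℂ} {Lp Lm : ℂ} {M : ℝ} (h : SF (-(Real.pi / 2)) (Real.pi / 4) G Lp Lm)
    (hM : ∀ l ∈ cs (-(Real.pi / 2)) (Real.pi / 4), ‖G l‖ ≤ M) :
    SF (-(Real.pi / 2)) (Real.pi / 2) (FE G) ((Lp + Lm) / 2) ((Lp + Lm) / 2) := by
  have hpi := Real.pi_pos
  refine ⟨?_, ?_, ?_, ?_⟩
  · intro x hx
    rcases lt_or_ge x.im (Real.pi / 8) with h1 | h1
    · have c1 : ContinuousOn (FE G) (cs (-(Real.pi / 2)) (Real.pi / 2) ∩ {l : ℂ | l.im < Real.pi / 8}) := by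
        have c2 : ContinuousOn (HH G) (cs (-(Real.pi / 2)) (Real.pi / 2) ∩ {l : ℂ | l.im < Real.pi / 8}) := by
          apply (FE_SF_HH_cont h hM).mono
          rintro l ⟨⟨h2, h3⟩, h4⟩
          exact ⟨h2, h4⟩
        apply c2.congr
        rintro l ⟨_, h4⟩
        exact FE_SF_eq1 h hM h4
      have c3 := c1 x ⟨hx, h1⟩
      exact (continuousWithinAt_inter (FE_SF_open1.mem_nhds h1)).1 c3
    · have h1' : -(Real.pi / 8) < x.im := by linarith
      have c1 : ContinuousOn (FE G) (cs (-(Real.pi / 2)) (Real.pi / 2) ∩ {l : ℂ | -(Real.pi / 8) < l.im}) := by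
        have c2 : ContinuousOn (fun l => HH G (-l)) (cs (-(Real.pi / 2)) (Real.pi / 2) ∩ {l : ℂ | -(Real.pi / 8) < l.im}) := by
          apply (FE_SF_HH_cont h hM).comp continuousOn_neg
          rintro l ⟨⟨h2, h3⟩, h4⟩
          simp only [Set.mem_ofPred_eq] at h4
          refine ⟨?_, ?_⟩
          · rw [neg_im]; linarith
          · rw [neg_im]; linarith
        apply c2.congr
        rintro l ⟨_, h4⟩
        exact FE_SF_eq2 h hM h4
      have c3 := c1 x ⟨hx, h1'⟩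
      exact (continuousWithinAt_inter (FE_SF_open2.mem_nhds h1')).1 c3
  · intro x hx
    apply DifferentiableAt.differentiableWithinAt
    rcases lt_or_ge x.im (Real.pi / 8) with h1 | h1
    · have hop : IsOpen (os (-(Real.pi / 2)) (Real.pi / 8)) :=
        (isOpen_lt continuous_const Complex.continuous_im).inter
          (isOpen_lt Complex.continuous_im continuous_const)
      have hxm : x ∈ os (-(Real.pi / 2)) (Real.pi / 8) := ⟨hx.1, h1⟩
      have d1 := (FE_SF_HH_diff h hM).differentiableAt (hop.mem_nhds hxm)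
      apply d1.congr_of_eventuallyEq
      filter_upwards [hop.mem_nhds hxm] with l hl
      exact FE_SF_eq1 h hM hl.2
    · have hop : IsOpen (os (-(Real.pi / 8)) (Real.pi / 2)) :=
        (isOpen_lt continuous_const Complex.continuous_im).inter
          (isOpen_lt Complex.continuous_im continuous_const)
      have hxm : x ∈ os (-(Real.pi / 8)) (Real.pi / 2) := ⟨by linarith, hx.2⟩
      have d1 : DifferentiableOn ℂ (fun l => HH G (-l)) (os (-(Real.pi / 8)) (Real.pi / 2)) := by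
        apply (FE_SF_HH_diff h hM).comp (differentiableOn_id.neg)
        rintro l ⟨h2, h3⟩
        refine ⟨?_, ?_⟩
        · show _ < (-l).im
          rw [neg_im]; linarith
        · show (-l).im < _
          rw [neg_im]; linarith
      have d2 := d1.differentiableAt (hop.mem_nhds hxm)
      apply d2.congr_of_eventuallyEq
      filter_upwards [hop.mem_nhds hxm] with l hl
      exact FE_SF_eq2 h hM hl.1
  · intro ε hε
    obtain ⟨X1, h1⟩ := h.top (ε / 2) (by positivity)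
    obtain ⟨X2, h2⟩ := Kint_top (FE_SF_d_cont h) (FE_SF_d_bd hM) (FE_SF_d_top h) (half_pos hε)
    obtain ⟨X3, h3⟩ := h.bot (ε / 2) (by positivity)
    obtain ⟨X4, h4⟩ := Kint_bot (FE_SF_d_cont h) (FE_SF_d_bd hM) (FE_SF_d_bot h) (half_pos hε)
    refine ⟨max (max X1 X2) (max (-X3) (-X4)), ?_⟩
    intro l hl hX
    have k1 : X1 ≤ l.re := le_trans (le_trans (le_max_left _ _) (le_max_left _ _)) hX
    have k2 : X2 ≤ l.re := le_trans (le_trans (le_max_right _ _) (le_max_left _ _)) hX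
    have k3 : -X3 ≤ l.re := le_trans (le_trans (le_max_left _ _) (le_max_right _ _)) hX
    have k4 : -X4 ≤ l.re := le_trans (le_trans (le_max_right _ _) (le_max_right _ _)) hX
    unfold FE
    split_ifs with h0
    · have m1 := h1 l ⟨hl.1, by linarith⟩ k1
      have m2 := h2 l ⟨hl.1, h0⟩ k2
      have e : HH G l - (Lp + Lm) / 2 = (G l - Lp) -
          (Kint (fun s => G (pt s) - G (-(pt s))) l - (Lp - Lm) / 2) := by
        unfold HH; ring
      rw [e]
      have := norm_sub_le (G l - Lp) (Kint (fun s => G (pt s) - G (-(pt s))) l - (Lp - Lm) / 2)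
      linarith
    · push Not at h0
      have i1 : (-l).im = -l.im := neg_im l
      have i2 : (-l).re = -l.re := neg_re l
      have m1 := h3 (-l) ⟨by rw [i1]; linarith [hl.2], by rw [i1]; linarith⟩ (by rw [i2]; linarith)
      have m2 := h4 (-l) ⟨by rw [i1]; linarith [hl.2], by rw [i1]; linarith⟩ (by rw [i2]; linarith)
      have e : HH G (-l) - (Lp + Lm) / 2 = (G (-l) - Lm) -
          (Kint (fun s => G (pt s) - G (-(pt s))) (-l) - (Lm - Lp) / 2) := by
        unfold HH; ring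
      rw [e]
      have := norm_sub_le (G (-l) - Lm) (Kint (fun s => G (pt s) - G (-(pt s))) (-l) - (Lm - Lp) / 2)
      linarith
  · intro ε hε
    obtain ⟨X1, h1⟩ := h.top (ε / 2) (by positivity)
    obtain ⟨X2, h2⟩ := Kint_top (FE_SF_d_cont h) (FE_SF_d_bd hM) (FE_SF_d_top h) (half_pos hε)
    obtain ⟨X3, h3⟩ := h.bot (ε / 2) (by positivity)
    obtain ⟨X4, h4⟩ := Kint_bot (FE_SF_d_cont h) (FE_SF_d_bd hM) (FE_SF_d_bot h) (half_pos hε)
    refine ⟨min (min X3 X4) (min (-X1) (-X2)), ?_⟩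
    intro l hl hX
    have k1 : l.re ≤ X3 := le_trans hX (le_trans (min_le_left _ _) (min_le_left _ _))
    have k2 : l.re ≤ X4 := le_trans hX (le_trans (min_le_left _ _) (min_le_right _ _))
    have k3 : l.re ≤ -X1 := le_trans hX (le_trans (min_le_right _ _) (min_le_left _ _))
    have k4 : l.re ≤ -X2 := le_trans hX (le_trans (min_le_right _ _) (min_le_right _ _))
    unfold FE
    split_ifs with h0
    · have m1 := h3 l ⟨hl.1, by linarith⟩ k1
      have m2 := h4 l ⟨hl.1, h0⟩ k2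
      have e : HH G l - (Lp + Lm) / 2 = (G l - Lm) -
          (Kint (fun s => G (pt s) - G (-(pt s))) l - (Lm - Lp) / 2) := by
        unfold HH; ring
      rw [e]
      have := norm_sub_le (G l - Lm) (Kint (fun s => G (pt s) - G (-(pt s))) l - (Lm - Lp) / 2)
      linarith
    · push Not at h0
      have i1 : (-l).im = -l.im := neg_im l
      have i2 : (-l).re = -l.re := neg_re l
      have m1 := h1 (-l) ⟨by rw [i1]; linarith [hl.2], by rw [i1]; linarith⟩ (by rw [i2]; linarith)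
      have m2 := h2 (-l) ⟨by rw [i1]; linarith [hl.2], by rw [i1]; linarith⟩ (by rw [i2]; linarith)
      have e : HH G (-l) - (Lp + Lm) / 2 = (G (-l) - Lp) -
          (Kint (fun s => G (pt s) - G (-(pt s))) (-l) - (Lp - Lm) / 2) := by
        unfold HH; ring
      rw [e]
      have := norm_sub_le (G (-l) - Lp) (Kint (fun s => G (pt s) - G (-(pt s))) (-l) - (Lp - Lm) / 2)
      linarith

end Pool.Agent.Helper621.DAP
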