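import Pool.Agent.Helper621.DAP.Defs
import Pool.Agent.Helper621.DAP.P_cousin

set_option autoImplicit false

open Complex Metric Set Filter Topology Classical ZeroAtInfty

namespace Pool.Agent.Helper621.DAP


theorem FE_even {G : ℂ → ℂ} {Lp Lm : ℂ} {M : ℝ} (h : SF (-(Real.pi / 2)) (Real.pi / 4) G Lp Lm)
    (hM : ∀ l ∈ cs (-(Real.pi / 2)) (Real.pi / 4), ‖G l‖ ≤ M)
    {l : ℂ} (hl : l ∈ cs (-(Real.pi / 2)) (Real.pi / 2)) : FE G (-l) = FE G l := by
  have hpi := Real.pi_pos
  rcases lt_trichotomy l.im 0 with h1 | h1 | h1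
  · unfold FE
    rw [if_pos h1.le, if_neg (by rw [Complex.neg_im]; linarith), neg_neg]
  · have h2 : (-l).im ≤ 0 := by rw [Complex.neg_im]; linarith
    unfold FE
    rw [if_pos h1.le, if_pos h2]
    set D : ℂ → ℂ := fun t => G t - G (-t) with hD
    have hsub : ∀ t ∈ cs (-(Real.pi / 8)) (Real.pi / 8), t ∈ cs (-(Real.pi / 2)) (Real.pi / 4) := by
      intro t ht
      exact ⟨by linarith [ht.1], by linarith [ht.2]⟩
    have hneg : ∀ t ∈ cs (-(Real.pi / 8)) (Real.pi / 8), -t ∈ cs (-(Real.pi / 8)) (Real.pi / 8) := by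
      intro t ht
      exact ⟨by rw [Complex.neg_im]; linarith [ht.2], by rw [Complex.neg_im]; linarith [ht.1]⟩
    have hsub' : ∀ t ∈ os (-(Real.pi / 8)) (Real.pi / 8), t ∈ os (-(Real.pi / 2)) (Real.pi / 4) := by
      intro t ht
      exact ⟨by linarith [ht.1], by linarith [ht.2]⟩
    have hneg' : ∀ t ∈ os (-(Real.pi / 8)) (Real.pi / 8), -t ∈ os (-(Real.pi / 8)) (Real.pi / 8) := by
      intro t ht
      exact ⟨by rw [Complex.neg_im]; linarith [ht.2], by rw [Complex.neg_im]; linarith [ht.1]⟩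
    have hc : ContinuousOn D (cs (-(Real.pi / 8)) (Real.pi / 8)) := by
      refine (h.cont.mono hsub).sub ?_
      exact h.cont.comp continuous_neg.continuousOn fun t ht => hsub _ (hneg t ht)
    have hd : DifferentiableOn ℂ D (os (-(Real.pi / 8)) (Real.pi / 8)) := by
      refine (h.diff.mono hsub').sub ?_
      exact h.diff.comp differentiable_neg.differentiableOn fun t ht => hsub' _ (hneg' t ht)
    have hb : ∀ t ∈ cs (-(Real.pi / 8)) (Real.pi / 8), ‖D t‖ ≤ M + M := fun t ht =>
      (norm_sub_le _ _).trans (add_le_add (hM t (hsub t ht)) (hM (-t) (hsub _ (hneg t ht))))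
    have hodd : ∀ t ∈ cs (-(Real.pi / 8)) (Real.pi / 8), D (-t) = -D t := fun t _ => by
      simp only [hD, neg_neg, neg_sub]
    have hcz := cousin hc hd hb hodd (l := l) ⟨by rw [h1]; linarith, by rw [h1]; linarith⟩
    have e1 : (fun s => D (pt s)) = fun s => G (pt s) - G (-(pt s)) := rfl
    rw [e1] at hcz
    unfold HH
    simp only [hD] at hcz
    linear_combination hcz
  · have h2 : (-l).im ≤ 0 := by rw [Complex.neg_im]; linarith
    unfold FE
    rw [if_pos h2, if_neg (by linarith)]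

end Pool.Agent.Helper621.DAP
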