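import Pool.Agent.Helper621.DAP.Defs

set_option autoImplicit false

open Complex Metric Set Filter Topology Classical ZeroAtInfty

namespace Pool.Agent.Helper621.DAP


theorem al_facts (l : ℂ) : alInv (al l) = l ∧ al (alInv l) = l ∧
    (l ∈ cs (-(Real.pi / 2)) (Real.pi / 4) → al l ∈ cs (-(Real.pi / 2)) (Real.pi / 2)) ∧
    (l ∈ os (-(Real.pi / 2)) (Real.pi / 4) → al l ∈ os (-(Real.pi / 2)) (Real.pi / 2)) ∧
    (l ∈ cs (-(Real.pi / 2)) (Real.pi / 2) → alInv l ∈ cs (-(Real.pi / 2)) (Real.pi / 4)) ∧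
    (l ∈ os (-(Real.pi / 2)) (Real.pi / 2) → alInv l ∈ os (-(Real.pi / 2)) (Real.pi / 4)) := by
  have im1 : ∀ l : ℂ, (al l).im = 4 / 3 * l.im + Real.pi / 6 := by
    intro l
    simp only [al, add_im, re_ofReal_mul, im_ofReal_mul, I_im, mul_one]
  have im2 : ∀ l : ℂ, (alInv l).im = 3 / 4 * l.im - Real.pi / 8 := by
    intro l
    simp only [alInv, sub_im, re_ofReal_mul, im_ofReal_mul, I_im, mul_one]
  refine ⟨?_, ?_, ?_, ?_, ?_, ?_⟩
  · unfold alInv al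
    push_cast
    ring
  · unfold alInv al
    push_cast
    ring
  · rintro ⟨h1, h2⟩
    refine ⟨?_, ?_⟩ <;> rw [im1] <;> linarith
  · rintro ⟨h1, h2⟩
    refine ⟨?_, ?_⟩ <;> rw [im1] <;> linarith
  · rintro ⟨h1, h2⟩
    refine ⟨?_, ?_⟩ <;> rw [im2] <;> linarith
  · rintro ⟨h1, h2⟩
    refine ⟨?_, ?_⟩ <;> rw [im2] <;> linarith

end Pool.Agent.Helper621.DAP
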