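import Pool.Agent.Helper621.DAP.Defs

set_option autoImplicit false

open Complex Metric Set Filter Topology Classical ZeroAtInfty

namespace Pool.Agent.Helper621.DAP


theorem th_aux_866 (e : ℂ) (he : 0 ≤ e.re) : e + 1 ≠ 0 ∧ ‖(e - 1) / (e + 1)‖ ≤ 1 ∧
    (0 < e.re → ‖(e - 1) / (e + 1)‖ < 1) ∧ (e.re = 0 → ‖(e - 1) / (e + 1)‖ = 1) := by
  have h0 : e + 1 ≠ 0 := by
    intro h
    have := congrArg Complex.re h
    simp at this
    linarith
  have hpos : 0 < ‖e + 1‖ := norm_pos_iff.mpr h0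
  have hsq : ‖e + 1‖ ^ 2 - ‖e - 1‖ ^ 2 = 4 * e.re := by
    rw [Complex.sq_norm, Complex.sq_norm, Complex.normSq_apply, Complex.normSq_apply]
    simp
    ring
  refine ⟨h0, ?_, ?_, ?_⟩
  · rw [norm_div, div_le_one hpos]
    exact le_of_sq_le_sq (by nlinarith) hpos.le
  · intro h
    rw [norm_div, div_lt_one hpos]
    exact lt_of_pow_lt_pow_left₀ 2 hpos.le (by nlinarith)
  · intro h
    rw [h] at hsq
    rw [norm_div, div_eq_one_iff_eq hpos.ne']
    have h1 : ‖e - 1‖ ^ 2 = ‖e + 1‖ ^ 2 := by linarith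
    exact (pow_left_inj₀ (norm_nonneg _) (norm_nonneg _) (by norm_num)).mp h1

/-- `th` maps the closed strip into the closed disc minus `±1`, the open strip into the open disc -/
theorem th_mem {l : ℂ} (h : l ∈ cs (-(Real.pi / 2)) (Real.pi / 2)) :
    th l ∈ closedBall (0:ℂ) 1 ∧ th l ≠ 1 ∧ th l ≠ -1 ∧ exp l + 1 ≠ 0 ∧
      (l ∈ os (-(Real.pi / 2)) (Real.pi / 2) → th l ∈ ball (0:ℂ) 1) ∧
      (l.im = -(Real.pi / 2) → ‖th l‖ = 1 ∧ (th l).im ≤ 0) := by
  have hre : 0 ≤ (exp l).re := by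
    rw [Complex.exp_re]
    exact mul_nonneg (Real.exp_pos _).le (Real.cos_nonneg_of_neg_pi_div_two_le_of_le h.1 h.2)
  obtain ⟨h1, h2, h3, h4⟩ := th_aux_866 (exp l) hre
  refine ⟨?_, ?_, ?_, h1, ?_, ?_⟩
  · rw [mem_closedBall_zero_iff]
    exact h2
  · intro h5
    unfold th at h5
    rw [div_eq_one_iff_eq h1] at h5
    have h6 : (2 : ℂ) = 0 := by linear_combination -h5
    norm_num at h6
  · intro h5
    unfold th at h5
    rw [div_eq_iff h1] at h5
    have h6 : exp l = 0 := by linear_combination h5 / 2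
    exact Complex.exp_ne_zero l h6
  · intro h5
    rw [mem_ball_zero_iff]
    apply h3
    rw [Complex.exp_re]
    exact mul_pos (Real.exp_pos _) (Real.cos_pos_of_mem_Ioo ⟨h5.1, h5.2⟩)
  · intro h5
    have h6 : (exp l).re = 0 := by
      rw [Complex.exp_re, h5, Real.cos_neg, Real.cos_pi_div_two, mul_zero]
    have h7 : (exp l).im ≤ 0 := by
      rw [Complex.exp_im, h5, Real.sin_neg, Real.sin_pi_div_two]
      have := Real.exp_pos l.re
      linarith
    refine ⟨h4 h6, ?_⟩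
    unfold th
    rw [Complex.div_im]
    have h8 : 0 < Complex.normSq (exp l + 1) := Complex.normSq_pos.mpr h1
    simp only [Complex.sub_im, Complex.one_im, sub_zero, Complex.add_re, Complex.one_re,
      Complex.sub_re, Complex.add_im, add_zero, h6, zero_add, zero_sub]
    rw [← sub_div]
    apply div_nonpos_of_nonpos_of_nonneg _ h8.le
    linarith

end Pool.Agent.Helper621.DAP
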