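import Pool.Agent.Helper621.DAP.Defs
import Pool.Agent.Helper621.DAP.P_th_facts

set_option autoImplicit false

open Complex Metric Set Filter Topology Classical ZeroAtInfty

namespace Pool.Agent.Helper621.DAP


theorem th_lim_aux {l : ℂ} (h : l ∈ cs (-(Real.pi / 2)) (Real.pi / 2)) :
    Real.exp l.re ≤ ‖exp l + 1‖ ∧ 1 ≤ ‖exp l + 1‖ := by
  have hre : 0 ≤ (exp l).re := by
    rw [exp_re]
    exact mul_nonneg (Real.exp_pos _).le (Real.cos_nonneg_of_mem_Icc ⟨h.1, h.2⟩)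
  have e1 : ‖exp l + 1‖ ^ 2 = ((exp l).re + 1) ^ 2 + (exp l).im ^ 2 := by
    rw [← normSq_eq_norm_sq, normSq_apply]
    simp
    ring
  have e2 : ‖exp l‖ ^ 2 = (exp l).re ^ 2 + (exp l).im ^ 2 := by
    rw [← normSq_eq_norm_sq, normSq_apply]
    ring
  constructor
  · rw [← norm_exp]
    apply le_of_sq_le_sq _ (norm_nonneg _)
    rw [e1, e2]
    nlinarith
  · apply le_of_sq_le_sq _ (norm_nonneg _)
    rw [e1]
    nlinarith [sq_nonneg (exp l).im]

theorem th_lim {ε : ℝ} (hε : 0 < ε) : ∃ X : ℝ, ∀ l ∈ cs (-(Real.pi / 2)) (Real.pi / 2),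
    (X ≤ l.re → ‖th l - 1‖ ≤ ε) ∧ (l.re ≤ -X → ‖th l + 1‖ ≤ ε) := by
  refine ⟨Real.log (2 / ε), fun l hl => ?_⟩
  obtain ⟨h1, h2⟩ := th_lim_aux hl
  have hne : exp l + 1 ≠ 0 := norm_pos_iff.1 (by linarith)
  have hpos : 0 < ‖exp l + 1‖ := by linarith
  have hX : Real.exp (Real.log (2 / ε)) = 2 / ε := Real.exp_log (by positivity)
  constructor
  · intro h
    have e : th l - 1 = (-2) / (exp l + 1) := by
      unfold th
      field_simp
      ring
    rw [e, norm_div, div_le_iff₀ hpos]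
    have h3 : 2 / ε ≤ Real.exp l.re := by
      rw [← hX]; exact Real.exp_le_exp.2 h
    rw [div_le_iff₀ hε] at h3
    have h4 : ‖(-2 : ℂ)‖ = 2 := by simp
    rw [h4]
    nlinarith
  · intro h
    have e : th l + 1 = (2 * exp l) / (exp l + 1) := by
      unfold th
      field_simp
      ring
    rw [e, norm_div, div_le_iff₀ hpos, norm_mul, norm_exp]
    have h3 : Real.exp l.re ≤ ε / 2 := by
      calc Real.exp l.re ≤ Real.exp (-Real.log (2 / ε)) := Real.exp_le_exp.2 h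
        _ = ε / 2 := by rw [Real.exp_neg, hX, inv_div]
    have h4 : ‖(2 : ℂ)‖ = 2 := by simp
    rw [h4]
    nlinarith

end Pool.Agent.Helper621.DAP
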