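import Pool.Agent.Helper621.DAP.Defs
import Pool.Agent.Helper621.DAP.P_th_facts
import Pool.Agent.Helper621.DAP.P_th_lim

set_option autoImplicit false

open Complex Metric Set Filter Topology Classical ZeroAtInfty

namespace Pool.Agent.Helper621.DAP


theorem disc_to_strip {f : ℂ → ℂ} (hf : IsDA f) :
    SF (-(Real.pi / 2)) (Real.pi / 2) (fun l => f (th l)) (f 1) (f (-1)) := by
  have hdiffAt : ∀ l ∈ cs (-(Real.pi / 2)) (Real.pi / 2), DifferentiableAt ℂ th l := by
    intro l hl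
    have h1 := (th_mem hl).2.2.2.1
    unfold th
    exact DifferentiableAt.div (by fun_prop) (by fun_prop) h1
  have hsub : os (-(Real.pi / 2)) (Real.pi / 2) ⊆ cs (-(Real.pi / 2)) (Real.pi / 2) :=
    fun l hl => ⟨hl.1.le, hl.2.le⟩
  have hc1 : (1 : ℂ) ∈ closedBall (0:ℂ) 1 := by simp
  have hcm1 : (-1 : ℂ) ∈ closedBall (0:ℂ) 1 := by simp
  refine ⟨?_, ?_, ?_, ?_⟩
  · exact hf.1.comp (fun l hl => (hdiffAt l hl).continuousAt.continuousWithinAt)
      (fun l hl => (th_mem hl).1)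
  · exact hf.2.comp (fun l hl => (hdiffAt l (hsub hl)).differentiableWithinAt)
      (fun l hl => (th_mem (hsub hl)).2.2.2.2.1 hl)
  · intro ε hε
    obtain ⟨δ, hδ, h⟩ := Metric.continuousWithinAt_iff.1 (hf.1 1 hc1) ε hε
    obtain ⟨X, hX⟩ := th_lim (half_pos hδ)
    refine ⟨X, fun l hl hlX => ?_⟩
    have h1 := (hX l hl).1 hlX
    have h2 : dist (th l) 1 < δ := by
      rw [dist_eq_norm]; linarith
    have h3 := h (th_mem hl).1 h2
    rw [dist_eq_norm] at h3
    exact h3.le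
  · intro ε hε
    obtain ⟨δ, hδ, h⟩ := Metric.continuousWithinAt_iff.1 (hf.1 (-1) hcm1) ε hε
    obtain ⟨X, hX⟩ := th_lim (half_pos hδ)
    refine ⟨-X, fun l hl hlX => ?_⟩
    have h1 := (hX l hl).2 hlX
    have h2 : dist (th l) (-1) < δ := by
      rw [dist_eq_norm, sub_neg_eq_add]; linarith
    have h3 := h (th_mem hl).1 h2
    rw [dist_eq_norm] at h3
    exact h3.le

end Pool.Agent.Helper621.DAP
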