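import Pool.Agent.Helper621.DAP.Defs
import Pool.Agent.Helper621.DAP.P_disc_to_strip
import Pool.Agent.Helper621.DAP.P_al_facts

set_option autoImplicit false

open Complex Metric Set Filter Topology Classical ZeroAtInfty

namespace Pool.Agent.Helper621.DAP


theorem GG_SF {g : ℂ → ℂ} (hg : IsDA g) :
    SF (-(Real.pi / 2)) (Real.pi / 4) (GG g) (g 1) (g (-1)) := by
  have hS := disc_to_strip hg
  have hre : ∀ l : ℂ, (al l).re = 4 / 3 * l.re := by
    intro l
    unfold al
    simp only [Complex.add_re, Complex.mul_re, Complex.ofReal_re, Complex.ofReal_im,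
      Complex.I_re, Complex.I_im]
    ring
  have hald : Differentiable ℂ al := by
    unfold al
    exact (differentiable_id.const_mul _).add_const _
  refine ⟨?_, ?_, ?_, ?_⟩
  · exact hS.cont.comp hald.continuous.continuousOn (fun l hl => (al_facts l).2.2.1 hl)
  · exact hS.diff.comp hald.differentiableOn (fun l hl => (al_facts l).2.2.2.1 hl)
  · intro ε hε
    obtain ⟨X, hX⟩ := hS.top ε hε
    refine ⟨3 / 4 * X, fun l hl hXl => ?_⟩
    exact hX (al l) ((al_facts l).2.2.1 hl) (by rw [hre]; linarith)
  · intro ε hε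
    obtain ⟨X, hX⟩ := hS.bot ε hε
    refine ⟨3 / 4 * X, fun l hl hXl => ?_⟩
    exact hX (al l) ((al_facts l).2.2.1 hl) (by rw [hre]; linarith)

end Pool.Agent.Helper621.DAP
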