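import Pool.Agent.Helper621.DAP.Defs
import Pool.Agent.Helper621.DAP.P_th_facts

set_option autoImplicit false

open Complex Metric Set Filter Topology Classical ZeroAtInfty

namespace Pool.Agent.Helper621.DAP


theorem Lg_facts_aux {q : ℂ} (h : q ∈ closedBall (0:ℂ) 1) (h1 : q ≠ 1) (h2 : q ≠ -1) :
    (1 + q) / (1 - q) ∈ slitPlane ∧ 0 ≤ ((1 + q) / (1 - q)).re ∧
      (q ∈ ball (0:ℂ) 1 → 0 < ((1 + q) / (1 - q)).re) := by
  have hn : 0 < normSq (1 - q) := by
    rw [normSq_pos]
    exact sub_ne_zero.2 (Ne.symm h1)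
  have hre : ((1 + q) / (1 - q)).re = (1 - normSq q) / normSq (1 - q) := by
    rw [div_re]
    simp only [normSq_apply, add_re, one_re, add_im, one_im, sub_re, sub_im]
    ring
  have him : ((1 + q) / (1 - q)).im = 2 * q.im / normSq (1 - q) := by
    rw [div_im]
    simp only [normSq_apply, add_re, one_re, add_im, one_im, sub_re, sub_im]
    ring
  have hq1 : ‖q‖ ≤ 1 := by simpa using h
  have hq : normSq q ≤ 1 := by
    rw [normSq_eq_norm_sq]
    nlinarith [norm_nonneg q]
  have hre0 : 0 ≤ ((1 + q) / (1 - q)).re := by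
    rw [hre]
    exact div_nonneg (by linarith) hn.le
  refine ⟨?_, hre0, ?_⟩
  · rw [mem_slitPlane_iff]
    rcases hre0.lt_or_eq with h3 | h3
    · exact Or.inl h3
    · right
      rw [him]
      intro h4
      rw [hre] at h3
      have h5 : 1 - normSq q = 0 := by
        rcases div_eq_zero_iff.1 h3.symm with h | h
        · exact h
        · exact absurd h hn.ne'
      have h6 : q.im = 0 := by
        rcases div_eq_zero_iff.1 h4 with h | h
        · linarith
        · exact absurd h hn.ne'
      rw [normSq_apply, h6] at h5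
      have h7 : (q.re - 1) * (q.re + 1) = 0 := by nlinarith
      rcases mul_eq_zero.1 h7 with h8 | h8
      · apply h1
        apply Complex.ext
        · rw [one_re]; linarith
        · rw [one_im]; exact h6
      · apply h2
        apply Complex.ext
        · rw [neg_re, one_re]; linarith
        · rw [neg_im, one_im, h6]; simp
  · intro hb
    have hb1 : ‖q‖ < 1 := by simpa using hb
    rw [hre]
    apply div_pos _ hn
    rw [normSq_eq_norm_sq]
    nlinarith [norm_nonneg q]

theorem Lg_facts {q : ℂ} (h : q ∈ closedBall (0:ℂ) 1) (h1 : q ≠ 1) (h2 : q ≠ -1) :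
    th (Lg q) = q ∧ Lg q ∈ cs (-(Real.pi / 2)) (Real.pi / 2) ∧ Lg (-q) = -Lg q ∧
      ContinuousAt Lg q ∧
      (q ∈ ball (0:ℂ) 1 → Lg q ∈ os (-(Real.pi / 2)) (Real.pi / 2) ∧ DifferentiableAt ℂ Lg q) := by
  obtain ⟨hs, hre0, hpos⟩ := Lg_facts_aux h h1 h2
  have e1 : (1 : ℂ) - q ≠ 0 := sub_ne_zero.2 (Ne.symm h1)
  have e2 : (1 : ℂ) + q ≠ 0 := by
    intro h3
    apply h2
    linear_combination h3
  have hx0 : (1 + q) / (1 - q) ≠ 0 := div_ne_zero e2 e1
  refine ⟨?_, ?_, ?_, ?_, ?_⟩
  · unfold th Lg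
    rw [exp_log hx0]
    have h3 : (1 + q) / (1 - q) + 1 = 2 / (1 - q) := by
      field_simp
      ring
    have h4 : (1 + q) / (1 - q) - 1 = 2 * q / (1 - q) := by
      field_simp
      ring
    rw [h3, h4]
    field_simp
  · unfold Lg cs
    have h3 := abs_arg_le_pi_div_two_iff.2 hre0
    rw [← log_im] at h3
    exact ⟨(abs_le.1 h3).1, (abs_le.1 h3).2⟩
  · unfold Lg
    have h3 : (1 + -q) / (1 - -q) = ((1 + q) / (1 - q))⁻¹ := by
      rw [inv_div, sub_neg_eq_add, ← sub_eq_add_neg]
    rw [h3, log_inv]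
    exact slitPlane_arg_ne_pi hs
  · unfold Lg
    have h3 : ContinuousAt (fun q : ℂ => (1 + q) / (1 - q)) q :=
      (continuousAt_const.add continuousAt_id).div (continuousAt_const.sub continuousAt_id) e1
    exact h3.clog hs
  · intro hb
    constructor
    · unfold Lg os
      have h3 := abs_arg_lt_pi_div_two_iff.2 (Or.inl (hpos hb))
      rw [← log_im] at h3
      exact ⟨(abs_lt.1 h3).1, (abs_lt.1 h3).2⟩
    · unfold Lg
      have h3 : DifferentiableAt ℂ (fun q : ℂ => (1 + q) / (1 - q)) q :=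
        ((differentiableAt_const _).add differentiableAt_id).div
          ((differentiableAt_const _).sub differentiableAt_id) e1
      exact h3.clog hs

end Pool.Agent.Helper621.DAP
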