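import Pool.Agent.Helper621.DAP.Defs
import Pool.Agent.Helper621.DAP.P_Lg_facts

set_option autoImplicit false

open Complex Metric Set Filter Topology Classical ZeroAtInfty

namespace Pool.Agent.Helper621.DAP


theorem Lg_lim (X : ℝ) : ∃ δ > 0, ∀ q : ℂ, q ∈ closedBall (0:ℂ) 1 → q ≠ 1 → q ≠ -1 →
    (‖q - 1‖ < δ → X ≤ (Lg q).re) ∧ (‖q + 1‖ < δ → (Lg q).re ≤ -X) := by
  refine ⟨min 1 (Real.exp (-|X|)), lt_min one_pos (Real.exp_pos _), ?_⟩
  intro q _ h1 h2
  have hre : (Lg q).re = Real.log (‖1 + q‖ / ‖1 - q‖) := by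
    unfold Lg
    rw [Complex.log_re, norm_div]
  have hp1 : 0 < ‖1 - q‖ := norm_pos_iff.mpr (sub_ne_zero.mpr (Ne.symm h1))
  have hp2 : 0 < ‖1 + q‖ := by
    refine norm_pos_iff.mpr (fun h => h2 ?_)
    linear_combination h
  have h2n : ‖(2 : ℂ)‖ = 2 := by norm_num
  rw [hre]
  constructor
  · intro hq
    rw [norm_sub_rev] at hq
    have hq1 := lt_of_lt_of_le hq (min_le_left _ _)
    have hq2 := lt_of_lt_of_le hq (min_le_right _ _)
    have h3 : 1 ≤ ‖1 + q‖ := by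
      have h4 : ‖(2 : ℂ)‖ ≤ ‖1 + q‖ + ‖1 - q‖ := by
        have h5 := norm_add_le (1 + q) (1 - q)
        have h6 : (1 + q) + (1 - q) = 2 := by ring
        rwa [h6] at h5
      linarith
    rw [Real.le_log_iff_exp_le (by positivity)]
    have h7 : Real.exp X ≤ Real.exp |X| := Real.exp_le_exp.mpr (le_abs_self X)
    refine h7.trans ?_
    rw [le_div_iff₀ hp1]
    calc Real.exp |X| * ‖1 - q‖ ≤ Real.exp |X| * Real.exp (-|X|) :=
          mul_le_mul_of_nonneg_left hq2.le (Real.exp_pos _).le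
      _ = 1 := by rw [← Real.exp_add, add_neg_cancel, Real.exp_zero]
      _ ≤ ‖1 + q‖ := h3
  · intro hq
    rw [add_comm] at hq
    have hq1 := lt_of_lt_of_le hq (min_le_left _ _)
    have hq2 := lt_of_lt_of_le hq (min_le_right _ _)
    have h3 : 1 ≤ ‖1 - q‖ := by
      have h4 : ‖(2 : ℂ)‖ ≤ ‖1 + q‖ + ‖1 - q‖ := by
        have h5 := norm_add_le (1 + q) (1 - q)
        have h6 : (1 + q) + (1 - q) = 2 := by ring
        rwa [h6] at h5
      linarith
    rw [Real.log_le_iff_le_exp (by positivity)]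
    have h7 : Real.exp (-|X|) ≤ Real.exp (-X) :=
      Real.exp_le_exp.mpr (neg_le_neg (le_abs_self X))
    refine le_trans ?_ h7
    rw [div_le_iff₀ hp1]
    calc ‖1 + q‖ ≤ Real.exp (-|X|) * 1 := by rw [mul_one]; exact hq2.le
      _ ≤ Real.exp (-|X|) * ‖1 - q‖ := mul_le_mul_of_nonneg_left h3 (Real.exp_pos _).le

end Pool.Agent.Helper621.DAP
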