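import Pool.Agent.Helper621.DAP.Defs
import Pool.Agent.Helper621.DAP.P_th_facts

set_option autoImplicit false

open Complex Metric Set Filter Topology Classical ZeroAtInfty

namespace Pool.Agent.Helper621.DAP


theorem Lg_th {l : ℂ} (h : l ∈ cs (-(Real.pi / 2)) (Real.pi / 2)) : Lg (th l) = l := by
  obtain ⟨-, -, -, h1, -, -⟩ := th_mem h
  have hpi := Real.pi_pos
  have e : (1 + th l) / (1 - th l) = exp l := by
    have h2 : 1 + th l = 2 * exp l / (exp l + 1) := by
      unfold th
      field_simp
      ring
    have h3 : 1 - th l = 2 / (exp l + 1) := by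
      unfold th
      field_simp
      ring
    rw [h2, h3]
    field_simp
  unfold Lg
  rw [e, Complex.log_exp (by linarith [h.1]) (by linarith [h.2])]

end Pool.Agent.Helper621.DAP
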