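import Pool.Agent.Helper621.DAP.Defs

set_option autoImplicit false

open Complex Metric Set Filter Topology Classical ZeroAtInfty

namespace Pool.Agent.Helper621.DAP


theorem sqrt_facts {w : ℂ} (hw : w ∈ closedBall (0:ℂ) 1) :
    w ^ (1 / 2 : ℂ) ∈ closedBall (0:ℂ) 1 ∧ (w ^ (1 / 2 : ℂ)) ^ 2 = w ∧
      (w ^ (1 / 2 : ℂ) = 1 ↔ w = 1) ∧ w ^ (1 / 2 : ℂ) ≠ -1 := by
  have h2 : (w ^ (1 / 2 : ℂ)) ^ 2 = w := by
    have h := Complex.cpow_nat_inv_pow w (n := 2) two_ne_zero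
    rw [one_div]
    exact_mod_cast h
  have h1 : ∀ u : ℂ, u = 1 → u ^ (1 / 2 : ℂ) = 1 := by
    intro u hu
    rw [hu, Complex.one_cpow]
  refine ⟨?_, h2, ⟨fun h => ?_, h1 w⟩, fun h => ?_⟩
  · have hn : ‖w ^ (1 / 2 : ℂ)‖ ^ 2 = ‖w‖ := by rw [← norm_pow, h2]
    have hw1 : ‖w‖ ≤ 1 := by simpa using hw
    have h3 : ‖w ^ (1 / 2 : ℂ)‖ ≤ 1 := by
      by_contra hc
      push Not at hc
      nlinarith
    simpa using h3
  · rw [h, one_pow] at h2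
    exact h2.symm
  · have hw1 : w = 1 := by
      rw [← h2, h]
      norm_num
    have h4 := h1 w hw1
    rw [h4] at h
    norm_num at h

end Pool.Agent.Helper621.DAP
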