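import Pool.Agent.Helper621.DAP.Defs
import Pool.Agent.Helper621.DAP.P_Lg_facts
import Pool.Agent.Helper621.DAP.P_Kint_integrable
import Pool.Agent.Helper621.DAP.P_sqrt_facts
import Pool.Agent.Helper621.DAP.P_GG_SF
import Pool.Agent.Helper621.DAP.P_th_facts
import Pool.Agent.Helper621.DAP.P_al_facts

set_option autoImplicit false

open Complex Metric Set Filter Topology Classical ZeroAtInfty

namespace Pool.Agent.Helper621.DAP


theorem Rv_add_pt_im (s : ℝ) : (pt s).im = Real.pi / 8 := by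
  simp [pt]

theorem Rv_add_cont {g : ℂ → ℂ} (h : IsDA g) :
    Continuous (fun s : ℝ => GG g (pt s) - GG g (-(pt s))) := by
  have hpi := Real.pi_pos
  have hc := (GG_SF h).cont
  have hpt : Continuous pt := by
    unfold pt
    fun_prop
  have h1 : Continuous (fun s : ℝ => GG g (pt s)) := by
    apply hc.comp_continuous hpt
    intro s
    constructor
    · rw [Rv_add_pt_im]; linarith
    · rw [Rv_add_pt_im]; linarith
  have h2 : Continuous (fun s : ℝ => GG g (-(pt s))) := by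
    have hpn : Continuous (fun s : ℝ => -(pt s)) := hpt.neg
    apply hc.comp_continuous hpn
    intro s
    constructor
    · rw [neg_im, Rv_add_pt_im]; linarith
    · rw [neg_im, Rv_add_pt_im]; linarith
  exact h1.sub h2

theorem Rv_add_bdd {g : ℂ → ℂ} (h : IsDA g) :
    ∃ M : ℝ, ∀ s : ℝ, ‖GG g (pt s) - GG g (-(pt s))‖ ≤ M := by
  have hpi := Real.pi_pos
  obtain ⟨C, hC⟩ := (isCompact_closedBall (0:ℂ) 1).exists_bound_of_continuousOn h.1
  have hb : ∀ l ∈ cs (-(Real.pi / 2)) (Real.pi / 4), ‖GG g l‖ ≤ C := by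
    intro l hl
    exact hC _ (th_mem ((al_facts l).2.2.1 hl)).1
  refine ⟨C + C, fun s => ?_⟩
  refine (norm_sub_le _ _).trans (add_le_add (hb _ ?_) (hb _ ?_))
  · constructor
    · rw [Rv_add_pt_im]; linarith
    · rw [Rv_add_pt_im]; linarith
  · constructor
    · rw [neg_im, Rv_add_pt_im]; linarith
    · rw [neg_im, Rv_add_pt_im]; linarith

theorem Rv_add_int {g : ℂ → ℂ} (h : IsDA g) {l : ℂ} (hl : l ∈ cs (-(Real.pi / 2)) 0) :
    MeasureTheory.Integrable
      (fun s : ℝ => (GG g (pt s) - GG g (-(pt s))) * kk (pt s - l)) := by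
  obtain ⟨M, hM⟩ := Rv_add_bdd h
  have hpi := Real.pi_pos
  have hpi2 := Real.pi_lt_d2
  refine Kint_integrable (Rv_add_cont h) hM ⟨?_, ?_⟩
  · have := hl.1
    linarith
  · have := hl.2
    linarith

theorem Rv_add_HH {g₁ g₂ : ℂ → ℂ} (h₁ : IsDA g₁) (h₂ : IsDA g₂) {l : ℂ}
    (hl : l ∈ cs (-(Real.pi / 2)) 0) :
    HH (GG (fun z => g₁ z + g₂ z)) l = HH (GG g₁) l + HH (GG g₂) l := by
  have e : Kint (fun s => GG (fun z => g₁ z + g₂ z) (pt s) -
      GG (fun z => g₁ z + g₂ z) (-(pt s))) l =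
      Kint (fun s => GG g₁ (pt s) - GG g₁ (-(pt s))) l +
        Kint (fun s => GG g₂ (pt s) - GG g₂ (-(pt s))) l := by
    unfold Kint
    rw [← mul_add, ← MeasureTheory.integral_add (Rv_add_int h₁ hl) (Rv_add_int h₂ hl)]
    congr 2
    ext s
    simp only [GG]
    ring
  unfold HH
  rw [e]
  simp only [GG]
  ring

theorem Rv_add {g₁ g₂ : ℂ → ℂ} (h₁ : IsDA g₁) (h₂ : IsDA g₂) {w : ℂ}
    (hw : w ∈ closedBall (0:ℂ) 1) : Rv (fun z => g₁ z + g₂ z) w = Rv g₁ w + Rv g₂ w := by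
  by_cases h : w = 1
  · simp only [Rv, if_pos h]
    ring
  · obtain ⟨hq, -, hq1, hq2⟩ := sqrt_facts hw
    have hne : w ^ (1 / 2 : ℂ) ≠ 1 := fun h' => h (hq1.1 h')
    obtain ⟨-, hl, -, -, -⟩ := Lg_facts hq hne hq2
    simp only [Rv, if_neg h, FE]
    generalize Lg (w ^ (1 / 2 : ℂ)) = l at hl
    by_cases h0 : l.im ≤ 0
    · simp only [if_pos h0]
      exact Rv_add_HH h₁ h₂ ⟨hl.1, h0⟩
    · simp only [if_neg h0]
      apply Rv_add_HH h₁ h₂
      push Not at h0
      constructor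
      · rw [neg_im]; have := hl.2; linarith
      · rw [neg_im]; linarith

end Pool.Agent.Helper621.DAP
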