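import Pool.Agent.Helper621.DAP.Defs
import Pool.Agent.Helper621.DAP.P_GG_SF
import Pool.Agent.Helper621.DAP.P_al_facts
import Pool.Agent.Helper621.DAP.P_th_facts

set_option autoImplicit false

open Complex Metric Set Filter Topology Classical ZeroAtInfty

namespace Pool.Agent.Helper621.DAP


theorem three_lines {g : ℂ → ℂ} (hg : IsDA g) (h1 : ∀ z ∈ closedBall (0:ℂ) 1, ‖g z‖ ≤ 1)
    {m : ℝ} (hm : 0 < m) (hm1 : m ≤ 1) (hlow : ∀ z : ℂ, ‖z‖ = 1 → z.im ≤ 0 → ‖g z‖ ≤ m)
    {l : ℂ} (hl : l ∈ cs (-(Real.pi / 2)) (Real.pi / 8)) :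
    ‖GG g l‖ ≤ m ^ (1 / 6 : ℝ) := by
  have hpi := Real.pi_pos
  have hSF := GG_SF hg
  have him : ∀ z : ℂ, (I * z).im = z.re := by
    intro z; simp [Complex.mul_im]
  have hone : ∀ z : ℂ, z ∈ cs (-(Real.pi / 2)) (Real.pi / 4) → ‖GG g z‖ ≤ 1 := by
    intro z hz
    exact h1 _ (th_mem ((al_facts z).2.2.1 hz)).1
  have hul : -(Real.pi / 2) < Real.pi / 4 := by linarith
  have hcl : closure (Complex.HadamardThreeLines.verticalStrip (-(Real.pi / 2)) (Real.pi / 4)) ⊆
      Complex.HadamardThreeLines.verticalClosedStrip (-(Real.pi / 2)) (Real.pi / 4) := by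
    refine closure_minimal ?_ (isClosed_Icc.preimage Complex.continuous_re)
    intro z hz
    exact ⟨hz.1.le, hz.2.le⟩
  have hd : DiffContOnCl ℂ (fun z => GG g (I * z))
      (Complex.HadamardThreeLines.verticalStrip (-(Real.pi / 2)) (Real.pi / 4)) := by
    refine ⟨?_, ?_⟩
    · refine hSF.diff.comp ((differentiable_id.const_mul I).differentiableOn) ?_
      intro z hz
      exact ⟨by rw [him z]; exact hz.1, by rw [him z]; exact hz.2⟩
    · refine hSF.cont.comp (continuous_const.mul continuous_id).continuousOn ?_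
      intro z hz
      have hz' := hcl hz
      exact ⟨by rw [him z]; exact hz'.1, by rw [him z]; exact hz'.2⟩
  have hB : BddAbove ((norm ∘ fun z => GG g (I * z)) ''
      Complex.HadamardThreeLines.verticalClosedStrip (-(Real.pi / 2)) (Real.pi / 4)) := by
    refine ⟨1, ?_⟩
    rintro _ ⟨z, hz, rfl⟩
    exact hone _ ⟨by rw [him]; exact hz.1, by rw [him]; exact hz.2⟩
  have ha : ∀ z ∈ re ⁻¹' {-(Real.pi / 2)}, ‖(fun z => GG g (I * z)) z‖ ≤ m := by
    intro z hz
    have hz' : z.re = -(Real.pi / 2) := hz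
    have hmem : I * z ∈ cs (-(Real.pi / 2)) (Real.pi / 4) :=
      ⟨by rw [him, hz'], by rw [him, hz']; linarith⟩
    have hal : (al (I * z)).im = -(Real.pi / 2) := by
      have e1 : (al (I * z)).im = 4 / 3 * (I * z).im + Real.pi / 6 := by
        unfold al
        rw [Complex.add_im, Complex.im_ofReal_mul, Complex.im_ofReal_mul, Complex.I_im, mul_one]
      rw [e1, him, hz']
      ring
    have hth := th_mem ((al_facts (I * z)).2.2.1 hmem)
    obtain ⟨h3, h4⟩ := hth.2.2.2.2.2 hal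
    exact hlow _ h3 h4
  have hb : ∀ z ∈ re ⁻¹' {Real.pi / 4}, ‖(fun z => GG g (I * z)) z‖ ≤ 1 := by
    intro z hz
    have hz' : z.re = Real.pi / 4 := hz
    exact hone _ ⟨by rw [him, hz']; linarith, by rw [him, hz']⟩
  have hzre : (-I * l).re = l.im := by simp [Complex.mul_re]
  have hIz : I * (-I * l) = l := by
    rw [← mul_assoc, mul_neg, Complex.I_mul_I, neg_neg, one_mul]
  have hz : (-I * l) ∈ Complex.HadamardThreeLines.verticalClosedStrip (-(Real.pi / 2))
      (Real.pi / 4) := ⟨by rw [hzre]; exact hl.1, by rw [hzre]; linarith [hl.2]⟩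
  have key := Complex.HadamardThreeLines.norm_le_interp_of_mem_verticalClosedStrip' hul hz hd hB
    ha hb
  simp only [hIz, hzre, Real.one_rpow, mul_one] at key
  refine key.trans ?_
  apply Real.rpow_le_rpow_of_exponent_ge hm hm1
  have h5 : (l.im - -(Real.pi / 2)) / (Real.pi / 4 - -(Real.pi / 2)) ≤ 5 / 6 := by
    rw [div_le_iff₀ (by linarith)]
    linarith [hl.2]
  linarith

end Pool.Agent.Helper621.DAP
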