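import Pool.Agent.Helper621.DAP.Defs
import Pool.Agent.Helper621.DAP.P_three_lines
import Pool.Agent.Helper621.DAP.P_Kint_bound
import Pool.Agent.Helper621.DAP.P_sqrt_facts
import Pool.Agent.Helper621.DAP.P_Lg_facts
import Pool.Agent.Helper621.DAP.P_GG_SF
import Pool.Agent.Helper621.DAP.P_al_facts
import Pool.Agent.Helper621.DAP.P_th_facts

set_option autoImplicit false

open Complex Metric Set Filter Topology Classical ZeroAtInfty

namespace Pool.Agent.Helper621.DAP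


theorem Rv_bound {g : ℂ → ℂ} (hg : IsDA g) (h1 : ∀ z ∈ closedBall (0:ℂ) 1, ‖g z‖ ≤ 1)
    {m : ℝ} (hm : 0 < m) (hm1 : m ≤ 1) (hlow : ∀ z : ℂ, ‖z‖ = 1 → z.im ≤ 0 → ‖g z‖ ≤ m)
    {w : ℂ} (hw : w ∈ closedBall (0:ℂ) 1) : ‖Rv g w‖ ≤ 51 * m ^ (1 / 6 : ℝ) := by
  have hpi := Real.pi_pos
  have hSF := GG_SF hg
  have hm6 : m ≤ m ^ (1 / 6 : ℝ) := by
    conv_lhs => rw [← Real.rpow_one m]
    exact Real.rpow_le_rpow_of_exponent_ge hm hm1 (by norm_num)
  have hm60 : 0 < m ^ (1 / 6 : ℝ) := Real.rpow_pos_of_pos hm _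
  have hpt : ∀ s : ℝ, (pt s).im = Real.pi / 8 := by
    intro s; unfold pt
    simp
  have hHH : ∀ l : ℂ, l ∈ cs (-(Real.pi / 2)) 0 → ‖HH (GG g) l‖ ≤ 51 * m ^ (1 / 6 : ℝ) := by
    intro l hl
    have e1 : ‖GG g l‖ ≤ m ^ (1 / 6 : ℝ) :=
      three_lines hg h1 hm hm1 hlow ⟨hl.1, hl.2.trans (by linarith)⟩
    have hp1 : ∀ s : ℝ, pt s ∈ cs (-(Real.pi / 2)) (Real.pi / 8) := by
      intro s
      exact ⟨by rw [hpt]; linarith, by rw [hpt]⟩
    have hp2 : ∀ s : ℝ, -(pt s) ∈ cs (-(Real.pi / 2)) (Real.pi / 8) := by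
      intro s
      exact ⟨by rw [Complex.neg_im, hpt]; linarith, by rw [Complex.neg_im, hpt]; linarith⟩
    have hsub : cs (-(Real.pi / 2)) (Real.pi / 8) ⊆ cs (-(Real.pi / 2)) (Real.pi / 4) := by
      intro z hz
      exact ⟨hz.1, hz.2.trans (by linarith)⟩
    have hcpt : Continuous pt := by
      unfold pt
      exact Complex.continuous_ofReal.add continuous_const
    have hd : Continuous (fun s : ℝ => GG g (pt s) - GG g (-(pt s))) := by
      refine Continuous.sub ?_ ?_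
      · exact hSF.cont.comp_continuous hcpt (fun s => hsub (hp1 s))
      · exact hSF.cont.comp_continuous hcpt.neg (fun s => hsub (hp2 s))
    have hM : ∀ s : ℝ, ‖(fun s : ℝ => GG g (pt s) - GG g (-(pt s))) s‖ ≤
        2 * m ^ (1 / 6 : ℝ) := by
      intro s
      have a1 := three_lines hg h1 hm hm1 hlow (hp1 s)
      have a2 := three_lines hg h1 hm hm1 hlow (hp2 s)
      refine (norm_sub_le _ _).trans ?_
      linarith
    have e2 := Kint_bound hd hM hl
    unfold HH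
    refine (norm_sub_le _ _).trans ?_
    linarith
  unfold Rv
  split_ifs with h
  · have a1 : ‖g 1‖ ≤ m := hlow 1 (by simp) (by simp)
    have a2 : ‖g (-1)‖ ≤ m := hlow (-1) (by simp) (by simp)
    rw [norm_div]
    have a3 : ‖(2 : ℂ)‖ = 2 := by simp
    rw [a3, div_le_iff₀ (by norm_num)]
    refine (norm_add_le _ _).trans ?_
    linarith
  · obtain ⟨hq, hq2, hq1, hqm⟩ := sqrt_facts hw
    have hLg := Lg_facts hq (fun h' => h (hq1.1 h')) hqm
    unfold FE
    split_ifs with h2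
    · exact hHH _ ⟨hLg.2.1.1, h2⟩
    · refine hHH _ ⟨?_, ?_⟩
      · rw [Complex.neg_im]; linarith [hLg.2.1.2]
      · rw [Complex.neg_im]; linarith

end Pool.Agent.Helper621.DAP
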