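import Pool.Agent.Helper621.DAP.Defs

set_option autoImplicit false

open Complex Metric Set Filter Topology Classical ZeroAtInfty

namespace Pool.Agent.Helper621.DAP


theorem even_descend_sq (w : ℂ) : (w ^ (1 / 2 : ℂ)) ^ 2 = w := by
  rw [← Complex.cpow_nat_mul]
  norm_num

theorem even_descend_norm_sq (w : ℂ) : ‖w ^ (1 / 2 : ℂ)‖ ^ 2 = ‖w‖ := by
  rw [← norm_pow, even_descend_sq]

theorem even_descend_mapsC (w : ℂ) (hw : w ∈ closedBall (0:ℂ) 1) :
    w ^ (1 / 2 : ℂ) ∈ closedBall (0:ℂ) 1 := by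
  rw [mem_closedBall_zero_iff] at hw ⊢
  have := even_descend_norm_sq w
  by_contra h
  push Not at h
  nlinarith

theorem even_descend_mapsB (w : ℂ) (hw : w ∈ ball (0:ℂ) 1) :
    w ^ (1 / 2 : ℂ) ∈ ball (0:ℂ) 1 := by
  rw [mem_ball_zero_iff] at hw ⊢
  have := even_descend_norm_sq w
  by_contra h
  push Not at h
  nlinarith

theorem even_descend_branch {E : ℂ → ℂ}
    (hev : ∀ q ∈ closedBall (0:ℂ) 1, E (-q) = E q) (w : ℂ) (hw : w ∈ closedBall (0:ℂ) 1) :
    I * (-w) ^ (1 / 2 : ℂ) ∈ closedBall (0:ℂ) 1 ∧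
    E (w ^ (1 / 2 : ℂ)) = E (I * (-w) ^ (1 / 2 : ℂ)) := by
  have h1 : (w ^ (1 / 2 : ℂ)) ^ 2 = (I * (-w) ^ (1 / 2 : ℂ)) ^ 2 := by
    rw [even_descend_sq, mul_pow, even_descend_sq, I_sq]; ring
  have h2 : -w ∈ closedBall (0:ℂ) 1 := by
    rw [mem_closedBall_zero_iff] at hw ⊢
    rwa [norm_neg]
  have h3 : I * (-w) ^ (1 / 2 : ℂ) ∈ closedBall (0:ℂ) 1 := by
    have := even_descend_mapsC (-w) h2
    rw [mem_closedBall_zero_iff] at this ⊢
    rwa [norm_mul, norm_I, one_mul]
  refine ⟨h3, ?_⟩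
  rcases sq_eq_sq_iff_eq_or_eq_neg.1 h1 with h | h
  · rw [h]
  · rw [h]; exact hev _ h3

theorem even_descend_diffAt (w : ℂ) (hw : w ∈ slitPlane) :
    DifferentiableAt ℂ (fun z : ℂ => z ^ (1 / 2 : ℂ)) w :=
  differentiableAt_id.cpow_const hw

theorem even_descend_diffAt' (w : ℂ) (hw : -w ∈ slitPlane) :
    DifferentiableAt ℂ (fun z : ℂ => I * (-z) ^ (1 / 2 : ℂ)) w :=
  (differentiableAt_id.neg.cpow_const hw).const_mul I

theorem even_descend_slit (w : ℂ) (hw : w ≠ 0) : w ∈ slitPlane ∨ -w ∈ slitPlane := by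
  by_cases h : w ∈ slitPlane
  · exact Or.inl h
  · right
    rw [mem_slitPlane_iff] at h ⊢
    push Not at h
    rw [neg_re, neg_im]
    rcases h.1.lt_or_eq with h1 | h1
    · left; linarith
    · exact absurd (Complex.ext h1 h.2) hw

theorem even_descend_cont0 : ContinuousAt (fun z : ℂ => z ^ (1 / 2 : ℂ)) 0 := by
  rw [Metric.continuousAt_iff]
  intro ε hε
  refine ⟨ε ^ 2, by positivity, fun x hx => ?_⟩
  rw [dist_zero_right] at hx
  have h0 : (0:ℂ) ^ (1 / 2 : ℂ) = 0 := Complex.zero_cpow (by norm_num)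
  rw [h0, dist_zero_right]
  have := even_descend_norm_sq x
  by_contra h
  push Not at h
  nlinarith [norm_nonneg (x ^ (1 / 2 : ℂ))]

theorem even_descend {E : ℂ → ℂ} (hE : IsDA E)
    (hev : ∀ q ∈ closedBall (0:ℂ) 1, E (-q) = E q) : IsDA (fun w => E (w ^ (1 / 2 : ℂ))) := by
  have hcont : ContinuousOn (fun w => E (w ^ (1 / 2 : ℂ))) (closedBall (0:ℂ) 1) := by
    intro w hw
    by_cases hw0 : w = 0
    · subst hw0
      exact ContinuousWithinAt.comp (t := closedBall (0:ℂ) 1)
        (hE.1 _ (even_descend_mapsC _ hw)) even_descend_cont0.continuousWithinAt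
        even_descend_mapsC
    · rcases even_descend_slit w hw0 with h | h
      · exact ContinuousWithinAt.comp (t := closedBall (0:ℂ) 1)
          (hE.1 _ (even_descend_mapsC _ hw))
          (even_descend_diffAt w h).continuousAt.continuousWithinAt even_descend_mapsC
      · have h1 : ContinuousWithinAt (fun z => E (I * (-z) ^ (1 / 2 : ℂ))) (closedBall (0:ℂ) 1) w :=
          ContinuousWithinAt.comp (f := fun z : ℂ => I * (-z) ^ (1 / 2 : ℂ))
            (t := closedBall (0:ℂ) 1)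
            (hE.1 _ (even_descend_branch hev w hw).1)
            (even_descend_diffAt' w h).continuousAt.continuousWithinAt
            (fun z hz => (even_descend_branch hev z hz).1)
        exact h1.congr (fun z hz => (even_descend_branch hev z hz).2)
          (even_descend_branch hev w hw).2
  refine ⟨hcont, ?_⟩
  have hnh : ball (0:ℂ) 1 ∈ 𝓝 (0:ℂ) := ball_mem_nhds _ one_pos
  refine (Complex.differentiableOn_compl_singleton_and_continuousAt_iff hnh).1 ⟨?_, ?_⟩
  · rintro w ⟨hw, hw0⟩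
    have hw0' : w ≠ 0 := fun h => hw0 (by simp [h])
    have hEd : ∀ q ∈ ball (0:ℂ) 1, DifferentiableAt ℂ E q := fun q hq =>
      hE.2.differentiableAt (isOpen_ball.mem_nhds hq)
    apply DifferentiableAt.differentiableWithinAt
    rcases even_descend_slit w hw0' with h | h
    · exact DifferentiableAt.comp w (hEd _ (even_descend_mapsB w hw)) (even_descend_diffAt w h)
    · have hb : I * (-w) ^ (1 / 2 : ℂ) ∈ ball (0:ℂ) 1 := by
        have h2 : -w ∈ ball (0:ℂ) 1 := by
          rw [mem_ball_zero_iff] at hw ⊢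
          rwa [norm_neg]
        have := even_descend_mapsB (-w) h2
        rw [mem_ball_zero_iff] at this ⊢
        rwa [norm_mul, norm_I, one_mul]
      have h1 : DifferentiableAt ℂ (fun z => E (I * (-z) ^ (1 / 2 : ℂ))) w :=
        DifferentiableAt.comp (f := fun z : ℂ => I * (-z) ^ (1 / 2 : ℂ)) w (hEd _ hb)
          (even_descend_diffAt' w h)
      apply h1.congr_of_eventuallyEq
      filter_upwards [isOpen_ball.mem_nhds hw] with z hz
      exact (even_descend_branch hev z (ball_subset_closedBall hz)).2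
  · exact (hcont 0 (by simp)).continuousAt (closedBall_mem_nhds _ one_pos)

end Pool.Agent.Helper621.DAP
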