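import Pool.Agent.Helper621.DAP.Defs
import Pool.Agent.Helper621.DAP.P_Lg_facts
import Pool.Agent.Helper621.DAP.P_Lg_lim

set_option autoImplicit false

open Complex Metric Set Filter Topology Classical ZeroAtInfty

namespace Pool.Agent.Helper621.DAP


theorem strip_to_disc {F : ℂ → ℂ} {Lp Lm : ℂ} (h : SF (-(Real.pi / 2)) (Real.pi / 2) F Lp Lm) :
    IsDA (fun q => if q = 1 then Lp else if q = -1 then Lm else F (Lg q)) := by
  have hev : ∀ q : ℂ, q ≠ 1 → q ≠ -1 →
      (fun q => if q = 1 then Lp else if q = -1 then Lm else F (Lg q)) =ᶠ[𝓝 q]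
        fun q => F (Lg q) := by
    intro q h1 h2
    filter_upwards [isOpen_ne.mem_nhds h1, isOpen_ne.mem_nhds h2] with x hx1 hx2
    rw [if_neg hx1, if_neg hx2]
  constructor
  · intro q hq
    by_cases h1 : q = 1
    · subst h1
      rw [Metric.continuousWithinAt_iff]
      intro ε hε
      obtain ⟨X, hX⟩ := h.top (ε / 2) (by positivity)
      obtain ⟨δ, hδ, hδ'⟩ := Lg_lim X
      refine ⟨min δ 1, lt_min hδ one_pos, fun {x} hx hd => ?_⟩
      rw [dist_eq_norm] at hd
      simp only [if_true]
      by_cases hx1 : x = 1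
      · rw [if_pos hx1, dist_self]; exact hε
      · have hx2 : x ≠ -1 := by
          rintro rfl
          have h3 := lt_of_lt_of_le hd (min_le_right _ _)
          have h4 : ‖(-1 - 1 : ℂ)‖ = 2 := by norm_num
          rw [h4] at h3
          norm_num at h3
        rw [if_neg hx1, if_neg hx2, dist_eq_norm]
        have h5 := ((hδ' x hx hx1 hx2).1 (lt_of_lt_of_le hd (min_le_left _ _)))
        have h6 := hX (Lg x) (Lg_facts hx hx1 hx2).2.1 h5
        linarith
    · by_cases h2 : q = -1
      · subst h2
        rw [Metric.continuousWithinAt_iff]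
        intro ε hε
        obtain ⟨X, hX⟩ := h.bot (ε / 2) (by positivity)
        obtain ⟨δ, hδ, hδ'⟩ := Lg_lim (-X)
        refine ⟨min δ 1, lt_min hδ one_pos, fun {x} hx hd => ?_⟩
        rw [dist_eq_norm, sub_neg_eq_add] at hd
        simp only [if_neg h1, if_true]
        by_cases hx2 : x = -1
        · subst hx2
          rw [if_neg h1, if_pos rfl, dist_self]; exact hε
        · have hx1 : x ≠ 1 := by
            rintro rfl
            have h3 := lt_of_lt_of_le hd (min_le_right _ _)
            have h4 : ‖(1 + 1 : ℂ)‖ = 2 := by norm_num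
            rw [h4] at h3
            norm_num at h3
          rw [if_neg hx1, if_neg hx2, dist_eq_norm]
          have h5 := ((hδ' x hx hx1 hx2).2 (lt_of_lt_of_le hd (min_le_left _ _)))
          rw [neg_neg] at h5
          have h6 := hX (Lg x) (Lg_facts hx hx1 hx2).2.1 h5
          linarith
      · refine ContinuousWithinAt.congr_of_eventuallyEq ?_ ((hev q h1 h2).filter_mono nhdsWithin_le_nhds) (by
          simp only [if_neg h1, if_neg h2])
        have hn : ({1}ᶜ ∩ {-1}ᶜ : Set ℂ) ∈ 𝓝 q :=
          Filter.inter_mem (isOpen_ne.mem_nhds h1) (isOpen_ne.mem_nhds h2)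
        rw [← continuousWithinAt_inter hn]
        have hc := (Lg_facts hq h1 h2)
        refine ContinuousWithinAt.comp (t := cs (-(Real.pi / 2)) (Real.pi / 2)) (h.cont _ hc.2.1)
          hc.2.2.2.1.continuousWithinAt ?_
        rintro x ⟨hx, hx1, hx2⟩
        exact (Lg_facts hx hx1 hx2).2.1
  · intro q hq
    have hq' : ‖q‖ < 1 := by simpa using hq
    have h1 : q ≠ 1 := by
      rintro rfl
      simp at hq'
    have h2 : q ≠ -1 := by
      rintro rfl
      simp at hq'
    have hc := Lg_facts (ball_subset_closedBall hq) h1 h2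
    have ho : IsOpen (os (-(Real.pi / 2)) (Real.pi / 2)) := by
      have h3 : os (-(Real.pi / 2)) (Real.pi / 2) =
        Complex.im ⁻¹' Set.Ioo (-(Real.pi / 2)) (Real.pi / 2) := rfl
      rw [h3]
      exact isOpen_Ioo.preimage Complex.continuous_im
    have hd : DifferentiableAt ℂ F (Lg q) :=
      (h.diff (Lg q) (hc.2.2.2.2 hq).1).differentiableAt (ho.mem_nhds (hc.2.2.2.2 hq).1)
    have hd2 : DifferentiableAt ℂ (fun q => F (Lg q)) q := hd.comp q (hc.2.2.2.2 hq).2
    exact (hd2.congr_of_eventuallyEq (hev q h1 h2)).differentiableWithinAt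

end Pool.Agent.Helper621.DAP
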