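import Pool.Agent.Helper621.DAP.Defs
import Pool.Agent.Helper621.DAP.P_Lg_facts
import Pool.Agent.Helper621.DAP.P_strip_to_disc
import Pool.Agent.Helper621.DAP.P_GG_SF
import Pool.Agent.Helper621.DAP.P_FE_SF
import Pool.Agent.Helper621.DAP.P_FE_even
import Pool.Agent.Helper621.DAP.P_even_descend
import Pool.Agent.Helper621.DAP.P_sqrt_facts
import Pool.Agent.Helper621.DAP.P_th_facts
import Pool.Agent.Helper621.DAP.P_al_facts

set_option autoImplicit false

open Complex Metric Set Filter Topology Classical ZeroAtInfty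

namespace Pool.Agent.Helper621.DAP


theorem Rv_isDA {g : ℂ → ℂ} (hg : IsDA g) : IsDA (Rv g) := by
  obtain ⟨M, hM⟩ := (isCompact_closedBall (0:ℂ) 1).exists_bound_of_continuousOn hg.1
  have hM' : ∀ l ∈ cs (-(Real.pi / 2)) (Real.pi / 4), ‖GG g l‖ ≤ M :=
    fun l hl => hM _ (th_mem ((al_facts l).2.2.1 hl)).1
  have hE := strip_to_disc (FE_SF (GG_SF hg) hM')
  set E : ℂ → ℂ := fun q => if q = 1 then (g 1 + g (-1)) / 2 else
    if q = -1 then (g 1 + g (-1)) / 2 else FE (GG g) (Lg q) with hEdef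
  have hev : ∀ q ∈ closedBall (0:ℂ) 1, E (-q) = E q := by
    intro q hq
    by_cases h1 : q = 1
    · subst h1
      simp only [hEdef, if_true]
      split_ifs <;> rfl
    by_cases h2 : q = -1
    · subst h2
      simp only [hEdef, neg_neg, if_true]
      split_ifs <;> rfl
    have h3 : -q ≠ 1 := fun h => h2 (by rw [← h, neg_neg])
    have h4 : -q ≠ -1 := fun h => h1 (neg_injective h)
    obtain ⟨_, hcs, hneg, _, _⟩ := Lg_facts hq h1 h2
    simp only [hEdef, if_neg h1, if_neg h2, if_neg h3, if_neg h4]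
    rw [hneg]
    exact FE_even (GG_SF hg) hM' hcs
  have hD := even_descend hE hev
  have heq : ∀ w ∈ closedBall (0:ℂ) 1, Rv g w = E (w ^ (1 / 2 : ℂ)) := by
    intro w hw
    obtain ⟨_, _, h1, h2⟩ := sqrt_facts hw
    by_cases hw1 : w = 1
    · simp only [Rv, hEdef, if_pos hw1, if_pos (h1.2 hw1)]
    · simp only [Rv, hEdef, if_neg hw1, if_neg (fun h => hw1 (h1.1 h)), if_neg h2]
  exact ⟨hD.1.congr heq, hD.2.congr fun w hw => heq w (ball_subset_closedBall hw)⟩

end Pool.Agent.Helper621.DAP
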