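import Pool.Agent.Helper621.DAP.Defs
import Pool.Agent.Helper621.DAP.P_Lg_th
import Pool.Agent.Helper621.DAP.P_Lg_facts
import Pool.Agent.Helper621.DAP.P_al_facts
import Pool.Agent.Helper621.DAP.P_th_facts
import Pool.Agent.Helper621.DAP.P_sqrt_facts

set_option autoImplicit false

open Complex Metric Set Filter Topology Classical ZeroAtInfty

namespace Pool.Agent.Helper621.DAP


theorem Rv_mm_th_neg {l : ℂ} (h : exp l + 1 ≠ 0) : th (-l) = - th l := by
  unfold th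
  rw [Complex.exp_neg]
  have h0 : exp l ≠ 0 := Complex.exp_ne_zero l
  generalize exp l = E at h h0
  have h2 : E⁻¹ + 1 ≠ 0 := by
    intro h3
    apply h
    field_simp at h3
    rw [add_comm]; simpa using h3
  rw [div_eq_iff h2, ← neg_div, div_mul_eq_mul_div, eq_div_iff h]
  field_simp
  ring

theorem Rv_mm_GG {f : ℂ → ℂ} {l : ℂ} (h : l ∈ cs (-(Real.pi / 2)) (Real.pi / 4)) :
    GG (fun x => f (mm x)) l = f ((th l) ^ 2) := by
  have h1 := (al_facts l).2.2.1 h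
  have h2 := th_mem h1
  show f (mm (th (al l))) = _
  rw [mm, if_neg h2.2.1, if_neg h2.2.2.1, Lg_th h1, (al_facts l).1]

theorem Rv_mm_HH {f : ℂ → ℂ} {l : ℂ} (h : l ∈ cs (-(Real.pi / 2)) (Real.pi / 4)) :
    HH (GG (fun x => f (mm x))) l = f ((th l) ^ 2) := by
  have hp := Real.pi_pos
  have him : ∀ s : ℝ, (pt s).im = Real.pi / 8 := by
    intro s
    simp [pt]
  have hd : (fun s : ℝ => GG (fun x => f (mm x)) (pt s) - GG (fun x => f (mm x)) (-(pt s))) =
      fun _ => 0 := by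
    funext s
    have h1 : pt s ∈ cs (-(Real.pi / 2)) (Real.pi / 4) := by
      refine ⟨?_, ?_⟩ <;> rw [him] <;> linarith
    have h2 : -(pt s) ∈ cs (-(Real.pi / 2)) (Real.pi / 4) := by
      refine ⟨?_, ?_⟩ <;> rw [Complex.neg_im, him] <;> linarith
    have h3 : pt s ∈ cs (-(Real.pi / 2)) (Real.pi / 2) := by
      refine ⟨?_, ?_⟩ <;> rw [him] <;> linarith
    rw [Rv_mm_GG h1, Rv_mm_GG h2, Rv_mm_th_neg (th_mem h3).2.2.2.1, neg_sq, sub_self]
  rw [HH, hd, Rv_mm_GG h]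
  simp [Kint]

theorem Rv_mm {f : ℂ → ℂ} (hf : IsDA f) {w : ℂ} (hw : w ∈ closedBall (0:ℂ) 1) :
    Rv (fun x => f (mm x)) w = f w := by
  by_cases h1 : w = 1
  · subst h1
    have h2 : (-1 : ℂ) ≠ 1 := by norm_num
    simp only [Rv, if_true, mm, if_neg h2]
    ring
  · obtain ⟨s1, s2, s3, s4⟩ := sqrt_facts hw
    have hq1 : w ^ (1 / 2 : ℂ) ≠ 1 := fun h => h1 (s3.1 h)
    obtain ⟨q1, q2, -⟩ := Lg_facts s1 hq1 s4
    rw [Rv, if_neg h1]
    generalize w ^ (1 / 2 : ℂ) = q at s2 q1 q2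
    generalize Lg q = l at q1 q2
    have hp := Real.pi_pos
    rw [FE]
    split_ifs with h
    · rw [Rv_mm_HH ⟨q2.1, by linarith⟩, q1, s2]
    · push Not at h
      rw [Rv_mm_HH ⟨by rw [Complex.neg_im]; linarith [q2.2], by rw [Complex.neg_im]; linarith⟩,
        Rv_mm_th_neg (th_mem q2).2.2.2.1, neg_sq, q1, s2]

end Pool.Agent.Helper621.DAP
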