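import Pool.Agent.Helper621.DAP.Defs

set_option autoImplicit false

open Complex Metric Set Filter Topology Classical ZeroAtInfty

namespace Pool.Agent.Helper621.DAP


theorem Rv_smul_Kint (c : ℂ) (d : ℝ → ℂ) (l : ℂ) : Kint (fun s => c * d s) l = c * Kint d l := by
  unfold Kint
  have h : (∫ s : ℝ, c * d s * kk (pt s - l)) = c * ∫ s : ℝ, d s * kk (pt s - l) := by
    rw [← MeasureTheory.integral_const_mul]
    congr 1
    ext s
    ring
  rw [h]
  ring

theorem Rv_smul_HH (c : ℂ) (G : ℂ → ℂ) (l : ℂ) : HH (fun z => c * G z) l = c * HH G l := by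
  unfold HH
  have h : Kint (fun s => c * G (pt s) - c * G (-(pt s))) l =
      c * Kint (fun s => G (pt s) - G (-(pt s))) l := by
    rw [← Rv_smul_Kint]
    congr 1
    ext s
    ring
  rw [h]
  ring

theorem Rv_smul (c : ℂ) (g : ℂ → ℂ) (w : ℂ) : Rv (fun z => c * g z) w = c * Rv g w := by
  unfold Rv
  split_ifs with h
  · ring
  · have h1 : GG (fun z => c * g z) = fun l => c * GG g l := rfl
    rw [h1]
    unfold FE
    split_ifs with h2
    · exact Rv_smul_HH c (GG g) _
    · exact Rv_smul_HH c (GG g) _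

end Pool.Agent.Helper621.DAP
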