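import Pool.Agent.Helper621.DAP.Defs

set_option autoImplicit false

open Complex Metric Set Filter Topology Classical ZeroAtInfty

namespace Pool.Agent.Helper621.DAP


noncomputable def aut_M (b : ℝ) (x : ℂ) : ℂ := (x + b) / (1 + b * x)

lemma aut_den {b : ℝ} (hb : |b| < 1) {x : ℂ} (hx : ‖x‖ ≤ 1) : (1 : ℂ) + b * x ≠ 0 := by
  intro h
  have h1 : ‖(b : ℂ) * x‖ = 1 := by
    have : (b : ℂ) * x = -1 := by linear_combination h
    rw [this]; simp
  rw [norm_mul, Complex.norm_real, Real.norm_eq_abs] at h1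
  nlinarith [abs_nonneg b, norm_nonneg x]

lemma aut_id (b : ℝ) (x : ℂ) :
    ‖(1 : ℂ) + b * x‖ ^ 2 - ‖x + b‖ ^ 2 = (1 - b ^ 2) * (1 - ‖x‖ ^ 2) := by
  rw [← Complex.normSq_eq_norm_sq, ← Complex.normSq_eq_norm_sq, ← Complex.normSq_eq_norm_sq]
  simp only [Complex.normSq_apply, Complex.add_re, Complex.add_im, Complex.mul_re, Complex.mul_im,
    Complex.ofReal_re, Complex.ofReal_im, Complex.one_re, Complex.one_im]
  ring

lemma aut_sq {b : ℝ} (hb : |b| < 1) : 0 < 1 - b ^ 2 := by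
  have h1 := abs_nonneg b
  have h2 := sq_abs b
  nlinarith

lemma aut_norm_le {b : ℝ} (hb : |b| < 1) {x : ℂ} (hx : ‖x‖ ≤ 1) : ‖aut_M b x‖ ≤ 1 := by
  have h0 := aut_den hb hx
  have h1 := aut_id b x
  have h2 := aut_sq hb
  rw [aut_M, norm_div]
  apply div_le_one_of_le₀ _ (norm_nonneg _)
  refine le_of_sq_le_sq ?_ (norm_nonneg _)
  nlinarith [mul_nonneg h2.le (by nlinarith [norm_nonneg x] : 0 ≤ 1 - ‖x‖ ^ 2)]

lemma aut_norm_lt {b : ℝ} (hb : |b| < 1) {x : ℂ} (hx : ‖x‖ < 1) : ‖aut_M b x‖ < 1 := by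
  have h0 := aut_den hb hx.le
  have h1 := aut_id b x
  have h2 := aut_sq hb
  have h3 : 0 < ‖(1 : ℂ) + b * x‖ := norm_pos_iff.2 h0
  rw [aut_M, norm_div, div_lt_one h3]
  refine lt_of_pow_lt_pow_left₀ 2 h3.le ?_
  nlinarith [mul_pos h2 (by nlinarith [norm_nonneg x] : 0 < 1 - ‖x‖ ^ 2)]

lemma aut_norm_eq {b : ℝ} (hb : |b| < 1) {x : ℂ} (hx : ‖x‖ = 1) : ‖aut_M b x‖ = 1 := by
  have h0 := aut_den hb hx.le
  have h1 := aut_id b x
  have h3 : 0 < ‖(1 : ℂ) + b * x‖ := norm_pos_iff.2 h0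
  rw [hx] at h1
  have h4 : ‖x + b‖ ^ 2 = ‖(1 : ℂ) + b * x‖ ^ 2 := by linarith
  have h5 : ‖x + b‖ = ‖(1 : ℂ) + b * x‖ :=
    (pow_left_inj₀ (norm_nonneg _) (norm_nonneg _) two_ne_zero).1 h4
  rw [aut_M, norm_div, h5, div_self h3.ne']

lemma aut_inv {b c : ℝ} (hc : c = -b) (hb : |b| < 1) {x : ℂ} (hx : ‖x‖ ≤ 1) :
    aut_M c (aut_M b x) = x := by
  have h0 := aut_den hb hx
  have h2 := aut_sq hb
  have h3 : (1 : ℂ) - b ^ 2 ≠ 0 := by
    have : ((1 - b ^ 2 : ℝ) : ℂ) ≠ 0 := by exact_mod_cast h2.ne'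
    push_cast at this
    exact this
  subst hc
  have h4 : aut_M b x + ((-b : ℝ) : ℂ) = x * (1 - b ^ 2) / (1 + b * x) := by
    rw [aut_M, eq_div_iff h0, add_mul, div_mul_cancel₀ _ h0]
    push_cast
    ring
  have h5 : (1 : ℂ) + ((-b : ℝ) : ℂ) * aut_M b x = (1 - b ^ 2) / (1 + b * x) := by
    rw [aut_M, eq_div_iff h0, add_mul, mul_assoc, div_mul_cancel₀ _ h0]
    push_cast
    ring
  have h6 : (1 - (b : ℂ) ^ 2) / (1 + b * x) ≠ 0 := div_ne_zero h3 h0
  rw [aut_M, h4, h5, mul_div_assoc, mul_div_assoc, div_self h6, mul_one]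

lemma aut_inner {b : ℝ} (hb : |b| < 1) {c d : ℂ} (hc : ‖c‖ = 1) (hd : ‖d‖ = 1) :
    Inner (fun z => c * aut_M b (d * z)) := by
  have hdn : ∀ z : ℂ, ‖d * z‖ = ‖z‖ := fun z => by rw [norm_mul, hd, one_mul]
  have hcn : ∀ z : ℂ, ‖c * z‖ = ‖z‖ := fun z => by rw [norm_mul, hc, one_mul]
  have hdif : ∀ z ∈ closedBall (0:ℂ) 1, DifferentiableAt ℂ (fun z => c * aut_M b (d * z)) z := by
    intro z hz
    rw [mem_closedBall_zero_iff] at hz
    have h0 := aut_den hb (x := d * z) (by rw [hdn]; exact hz)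
    unfold aut_M
    refine DifferentiableAt.const_mul ?_ c
    refine DifferentiableAt.div ?_ ?_ h0
    · exact (differentiableAt_id.const_mul d).add_const _
    · exact ((differentiableAt_id.const_mul d).const_mul (b : ℂ)).const_add _
  refine ⟨⟨?_, ?_⟩, ?_, ?_⟩
  · intro z hz
    exact (hdif z hz).continuousAt.continuousWithinAt
  · intro z hz
    exact (hdif z (ball_subset_closedBall hz)).differentiableWithinAt
  · intro z hz
    rw [mem_closedBall_zero_iff] at hz ⊢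
    rw [hcn]
    exact aut_norm_le hb (by rw [hdn]; exact hz)
  · intro z hz
    rw [mem_ball_zero_iff] at hz ⊢
    rw [hcn]
    exact aut_norm_lt hb (by rw [hdn]; exact hz)

theorem aut {s : ℂ} (hs : ‖s‖ = 1) {δ : ℝ} (hδ : 0 < δ) : ∃ Φ Ψ : ℂ → ℂ, Inner Φ ∧ Inner Ψ ∧
    (∀ z ∈ closedBall (0:ℂ) 1, Ψ (Φ z) = z) ∧ (∀ z ∈ closedBall (0:ℂ) 1, Φ (Ψ z) = z) ∧
    (∀ z : ℂ, ‖z‖ = 1 → z.im ≤ 0 → ‖Φ z‖ = 1 ∧ ‖Φ z - s‖ < δ) := by
  obtain ⟨a, ha0, ha1, ha2⟩ : ∃ a : ℝ, 3 / 4 ≤ a ∧ a < 1 ∧ 2 * (1 - a) < δ := by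
    refine ⟨1 - (min δ 1) / 4, ?_, ?_, ?_⟩
    · have := min_le_right δ 1
      linarith
    · have : 0 < min δ 1 := lt_min hδ one_pos
      linarith
    · have h1 : 0 < min δ 1 := lt_min hδ one_pos
      have := min_le_left δ 1
      linarith
  have hab : |a| < 1 := by rw [abs_lt]; constructor <;> linarith
  have hab' : |(-a)| < 1 := by rw [abs_neg]; exact hab
  have hss : s * (starRingEnd ℂ) s = 1 := by
    rw [Complex.mul_conj, Complex.normSq_eq_norm_sq, hs]; norm_num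
  have hs' : ‖(starRingEnd ℂ) s‖ = 1 := by rw [Complex.norm_conj, hs]
  have hI : ‖(-I : ℂ)‖ = 1 := by rw [norm_neg, Complex.norm_I]
  refine ⟨fun z => s * aut_M a (I * z), fun z => (-I) * aut_M (-a) ((starRingEnd ℂ) s * z),
    aut_inner hab hs Complex.norm_I, aut_inner hab' hI hs', ?_, ?_, ?_⟩
  · intro z hz
    rw [mem_closedBall_zero_iff] at hz
    have h1 : (starRingEnd ℂ) s * (s * aut_M a (I * z)) = aut_M a (I * z) := by
      rw [← mul_assoc, mul_comm ((starRingEnd ℂ) s) s, hss, one_mul]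
    have h2 : ‖I * z‖ ≤ 1 := by rw [norm_mul, Complex.norm_I, one_mul]; exact hz
    show (-I) * aut_M (-a) ((starRingEnd ℂ) s * (s * aut_M a (I * z))) = z
    rw [h1, aut_inv rfl hab h2, ← mul_assoc, neg_mul, Complex.I_mul_I]
    ring
  · intro z hz
    rw [mem_closedBall_zero_iff] at hz
    have h2 : ‖(starRingEnd ℂ) s * z‖ ≤ 1 := by rw [norm_mul, hs', one_mul]; exact hz
    have h1 : I * ((-I) * aut_M (-a) ((starRingEnd ℂ) s * z)) =
        aut_M (-a) ((starRingEnd ℂ) s * z) := by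
      rw [← mul_assoc, mul_neg, Complex.I_mul_I]
      ring
    show s * aut_M a (I * ((-I) * aut_M (-a) ((starRingEnd ℂ) s * z))) = z
    rw [h1, aut_inv (by ring) hab' h2, ← mul_assoc, hss, one_mul]
  · intro z hz him
    have h2 : ‖I * z‖ = 1 := by rw [norm_mul, Complex.norm_I, one_mul]; exact hz
    have hre : 0 ≤ (I * z).re := by
      rw [Complex.mul_re, Complex.I_re, Complex.I_im]
      linarith
    constructor
    · show ‖s * aut_M a (I * z)‖ = 1
      rw [norm_mul, hs, one_mul]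
      exact aut_norm_eq hab h2
    · show ‖s * aut_M a (I * z) - s‖ < δ
      have h0 := aut_den hab h2.le
      have h3 : s * aut_M a (I * z) - s = s * (((1 - a : ℝ) : ℂ) * (I * z - 1) / (1 + a * (I * z))) := by
        have h4 : aut_M a (I * z) - 1 = ((1 - a : ℝ) : ℂ) * (I * z - 1) / (1 + a * (I * z)) := by
          rw [aut_M, eq_div_iff h0, sub_mul, div_mul_cancel₀ _ h0]
          push_cast
          ring
        rw [← h4]; ring
      rw [h3, norm_mul, hs, one_mul, norm_div, norm_mul, Complex.norm_real, Real.norm_eq_abs,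
        abs_of_pos (by linarith : 0 < 1 - a)]
      have h5 : 1 ≤ ‖1 + (a : ℂ) * (I * z)‖ := by
        have h6 := Complex.re_le_norm (1 + (a : ℂ) * (I * z))
        have h7 : (1 + (a : ℂ) * (I * z)).re = 1 + a * (I * z).re := by
          rw [Complex.add_re, Complex.re_ofReal_mul, Complex.one_re]
        rw [h7] at h6
        have := mul_nonneg (by linarith : 0 ≤ a) hre
        linarith
      have h8 : ‖I * z - 1‖ ≤ 2 := by
        refine (norm_sub_le _ _).trans ?_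
        rw [h2, norm_one]; norm_num
      refine lt_of_le_of_lt ?_ ha2
      rw [div_le_iff₀ (by linarith)]
      have h9 : 0 ≤ 1 - a := by linarith
      nlinarith [mul_le_mul_of_nonneg_left h8 h9, mul_nonneg h9 (by linarith : 0 ≤ ‖1 + (a : ℂ) * (I * z)‖ - 1)]

end Pool.Agent.Helper621.DAP
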