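import Pool.Agent.Helper621.DAP.Defs

set_option autoImplicit false

open Complex Metric Set Filter Topology Classical ZeroAtInfty

namespace Pool.Agent.Helper621.DAP


theorem c0_R (W : ℕ → (DA →L[ℂ] DA)) {C : ℝ} (hC : ∀ n G, ‖W n G‖ ≤ C * ‖G‖)
    (h0 : ∀ G, Tendsto (fun n => W n G) atTop (𝓝 0)) :
    ∃ R : DA →L[ℂ] C₀(ℕ, DA), ∀ G n, R G n = W n G := by
  let f : DA → C₀(ℕ, DA) := fun G => ⟨⟨fun n => W n G, continuous_of_discreteTopology⟩, by
        rw [Filter.cocompact_eq_cofinite, Nat.cofinite_eq_atTop]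
        exact h0 G⟩
  have hf : ∀ G n, f G n = W n G := fun G n => rfl
  let L : DA →ₗ[ℂ] C₀(ℕ, DA) :=
    { toFun := f
      map_add' := by
        intro x y
        ext1 n
        rw [ZeroAtInftyContinuousMap.add_apply, hf, hf, hf]
        exact (W n).map_add x y
      map_smul' := by
        intro c x
        ext1 n
        rw [ZeroAtInftyContinuousMap.smul_apply, hf, hf, RingHom.id_apply]
        exact (W n).map_smul c x }
  have hb : ∀ G, ‖L G‖ ≤ max C 0 * ‖G‖ := by
    intro G
    rw [← ZeroAtInftyContinuousMap.norm_toBCF_eq_norm]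
    rw [BoundedContinuousFunction.norm_le (by positivity)]
    intro n
    exact (hC n G).trans (mul_le_mul_of_nonneg_right (le_max_left _ _) (norm_nonneg _))
  have hc : Continuous L := AddMonoidHomClass.continuous_of_bound L (max C 0) hb
  exact ⟨⟨L, hc⟩, fun G n => hf G n⟩

end Pool.Agent.Helper621.DAP
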