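import Pool.Agent.Helper621.DAP.Defs

set_option autoImplicit false

open Complex Metric Set Filter Topology Classical ZeroAtInfty

namespace Pool.Agent.Helper621.DAP


theorem isClosed_DA : IsClosed (DA : Set Amb) := by
  apply IsSeqClosed.isClosed
  intro F f hF hlim
  let Ex : Amb → ℂ → ℂ := fun u z => if h : z ∈ closedBall (0:ℂ) 1 then u ⟨z, h⟩ else 0
  have hEx : ∀ (u : Amb) (z : ℂ) (h : z ∈ closedBall (0:ℂ) 1), Ex u z = u ⟨z, h⟩ := by
    intro u z h
    simp only [Ex, dif_pos h]
  have hd : ∀ n, DifferentiableOn ℂ (Ex (F n)) (ball (0:ℂ) 1) := by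
    intro n
    obtain ⟨g, hg, he⟩ := hF n
    apply hg.congr
    intro z hz
    have hz' := ball_subset_closedBall hz
    rw [hEx _ _ hz']
    exact (he ⟨z, hz'⟩).symm
  have hunif : TendstoUniformlyOn (fun n => Ex (F n)) (Ex f) atTop (ball (0:ℂ) 1) := by
    rw [Metric.tendstoUniformlyOn_iff]
    intro ε hε
    have h1 : ∀ᶠ n in atTop, dist (F n) f < ε := by
      rw [Metric.tendsto_nhds] at hlim
      exact hlim ε hε
    filter_upwards [h1] with n hn z hz
    have hz' := ball_subset_closedBall hz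
    rw [hEx _ _ hz', hEx _ _ hz', dist_comm]
    exact lt_of_le_of_lt (BoundedContinuousFunction.dist_coe_le_dist _) hn
  refine ⟨Ex f, hunif.tendstoLocallyUniformlyOn.differentiableOn
    (Filter.Eventually.of_forall hd) isOpen_ball, ?_⟩
  intro z
  exact hEx f z.1 z.2

end Pool.Agent.Helper621.DAP
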