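import Pool.Agent.Helper621.DAP.Defs
import Pool.Agent.Helper621.DAP.P_isClosed_DA

set_option autoImplicit false

open Complex Metric Set Filter Topology Classical ZeroAtInfty

namespace Pool.Agent.Helper621.DAP


theorem c0_norm_le781 (f : C₀(ℕ, DA)) (n : ℕ) : ‖f n‖ ≤ ‖f‖ := by
  have h1 := f.toBCF.norm_coe_le_norm n
  rwa [ZeroAtInftyContinuousMap.norm_toBCF_eq_norm] at h1

theorem c0_summ781 (h : ℕ → DA)
    (hh : ∀ z ∈ closedBall (0:ℂ) 1, ∀ F : Finset ℕ, ∑ n ∈ F, ‖ev (h n) z‖ ≤ 2)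
    (V : ℕ → (DA →L[ℂ] DA)) (hV : ∀ n f, ‖V n f‖ ≤ ‖f‖) (f : C₀(ℕ, DA)) (z : ℂ)
    (hz : z ∈ closedBall (0:ℂ) 1) : Summable (fun n => ev (h n) z * ev (V n (f n)) z) := by
  have h1 : Summable (fun n => ‖ev (h n) z‖) :=
    summable_of_sum_le (fun n => norm_nonneg _) (hh z hz)
  refine Summable.of_norm_bounded (g := fun n => ‖ev (h n) z‖ * ‖f‖) (h1.mul_right _) ?_
  intro n
  rw [norm_mul]
  exact mul_le_mul_of_nonneg_left (((norm_ev_le _ _).trans (hV _ _)).trans (c0_norm_le781 f n)) (norm_nonneg _)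

noncomputable def c0S781 (h : ℕ → DA) (V : ℕ → (DA →L[ℂ] DA)) (f : C₀(ℕ, DA)) (z : ℂ) : ℂ :=
  ∑' n, ev (h n) z * ev (V n (f n)) z

theorem c0_tail781 (h : ℕ → DA)
    (hh : ∀ z ∈ closedBall (0:ℂ) 1, ∀ F : Finset ℕ, ∑ n ∈ F, ‖ev (h n) z‖ ≤ 2)
    (V : ℕ → (DA →L[ℂ] DA)) (hV : ∀ n f, ‖V n f‖ ≤ ‖f‖) (f : C₀(ℕ, DA)) (z : ℂ)
    (hz : z ∈ closedBall (0:ℂ) 1) (ε : ℝ) (hε : 0 ≤ ε) (N : ℕ) (hN : ∀ n, N ≤ n → ‖f n‖ ≤ ε) :
    ‖c0S781 h V f z - ∑ n ∈ Finset.range N, ev (h n) z * ev (V n (f n)) z‖ ≤ 2 * ε := by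
  have hs := (c0_summ781 h hh V hV f z hz).hasSum
  have ht : Tendsto (fun F : Finset ℕ => ‖∑ n ∈ F, ev (h n) z * ev (V n (f n)) z -
      ∑ n ∈ Finset.range N, ev (h n) z * ev (V n (f n)) z‖) atTop
      (𝓝 ‖c0S781 h V f z - ∑ n ∈ Finset.range N, ev (h n) z * ev (V n (f n)) z‖) :=
    (Tendsto.sub_const hs _).norm
  apply le_of_tendsto ht
  filter_upwards [eventually_ge_atTop (Finset.range N)] with F hF
  have e1 : ∑ n ∈ F, ev (h n) z * ev (V n (f n)) z - ∑ n ∈ Finset.range N, ev (h n) z * ev (V n (f n)) z =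
      ∑ n ∈ F \ Finset.range N, ev (h n) z * ev (V n (f n)) z := by
    rw [← Finset.sum_sdiff hF]
    ring
  rw [e1]
  calc ‖∑ n ∈ F \ Finset.range N, ev (h n) z * ev (V n (f n)) z‖
      ≤ ∑ n ∈ F \ Finset.range N, ‖ev (h n) z * ev (V n (f n)) z‖ := norm_sum_le _ _
    _ ≤ ∑ n ∈ F \ Finset.range N, ‖ev (h n) z‖ * ε := by
        apply Finset.sum_le_sum
        intro n hn
        rw [Finset.mem_sdiff, Finset.mem_range, not_lt] at hn
        rw [norm_mul]
        exact mul_le_mul_of_nonneg_left (((norm_ev_le _ _).trans (hV _ _)).trans (hN n hn.2)) (norm_nonneg _)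
    _ = (∑ n ∈ F \ Finset.range N, ‖ev (h n) z‖) * ε := by rw [Finset.sum_mul]
    _ ≤ 2 * ε := mul_le_mul_of_nonneg_right (hh z hz _) hε

theorem c0_isDA781 (h : ℕ → DA)
    (hh : ∀ z ∈ closedBall (0:ℂ) 1, ∀ F : Finset ℕ, ∑ n ∈ F, ‖ev (h n) z‖ ≤ 2)
    (V : ℕ → (DA →L[ℂ] DA)) (hV : ∀ n f, ‖V n f‖ ≤ ‖f‖) (f : C₀(ℕ, DA)) : IsDA (c0S781 h V f) := by
  have hpart : ∀ N : ℕ, IsDA (fun z => ∑ n ∈ Finset.range N, ev (h n) z * ev (V n (f n)) z) := by
    intro N
    constructor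
    · exact continuousOn_finsetSum _ fun n _ => ((ev_isDA (h n)).1.mul (ev_isDA (V n (f n))).1)
    · exact DifferentiableOn.fun_sum fun n _ => ((ev_isDA (h n)).2.mul (ev_isDA (V n (f n))).2)
  have hf0 : Tendsto (fun n => ‖f n‖) atTop (𝓝 0) := by
    have h1 := f.zero_at_infty'
    rw [Filter.cocompact_eq_cofinite, Nat.cofinite_eq_atTop] at h1
    have h2 := h1.norm
    rwa [norm_zero] at h2
  have hunif : TendstoUniformlyOn (fun (N : ℕ) (z : ℂ) => ∑ n ∈ Finset.range N, ev (h n) z * ev (V n (f n)) z)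
      (c0S781 h V f) atTop (closedBall (0:ℂ) 1) := by
    rw [Metric.tendstoUniformlyOn_iff]
    intro ε hε
    obtain ⟨N₀, hN₀⟩ := (eventually_atTop.1 (hf0.eventually (gt_mem_nhds (show (0:ℝ) < ε / 4 by positivity))))
    filter_upwards [eventually_ge_atTop N₀] with N hN z hz
    rw [dist_eq_norm]
    have := c0_tail781 h hh V hV f z hz (ε / 4) (by positivity) N (fun n hn => (hN₀ n (hN.trans hn)).le)
    linarith
  constructor
  · exact hunif.continuousOn (Eventually.frequently (Eventually.of_forall fun N => (hpart N).1))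
  · exact ((hunif.mono ball_subset_closedBall).tendstoLocallyUniformlyOn).differentiableOn
      (Eventually.of_forall fun N => (hpart N).2) isOpen_ball

theorem c0_U (h : ℕ → DA)
    (hh : ∀ z ∈ closedBall (0:ℂ) 1, ∀ F : Finset ℕ, ∑ n ∈ F, ‖ev (h n) z‖ ≤ 2)
    (V : ℕ → (DA →L[ℂ] DA)) (hV : ∀ n f, ‖V n f‖ ≤ ‖f‖) :
    ∃ U : C₀(ℕ, DA) →L[ℂ] DA, ∀ f : C₀(ℕ, DA), ∀ z ∈ closedBall (0:ℂ) 1,
      HasSum (fun n => ev (h n) z * ev (V n (f n)) z) (ev (U f) z) := by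
  have hsum := fun f z hz => c0_summ781 h hh V hV f z hz
  refine ⟨LinearMap.mkContinuous
    { toFun := fun f => mk (c0S781 h V f) (c0_isDA781 h hh V hV f)
      map_add' := by
        intro x y
        apply ev_ext
        intro z hz
        rw [ev_add, ev_mk _ _ z hz, ev_mk _ _ z hz, ev_mk _ _ z hz]
        unfold c0S781
        rw [← Summable.tsum_add (hsum x z hz) (hsum y z hz)]
        congr 1
        funext n
        rw [ZeroAtInftyContinuousMap.add_apply, map_add, ev_add]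
        ring
      map_smul' := by
        intro c x
        apply ev_ext
        intro z hz
        rw [RingHom.id_apply, ev_smul, ev_mk _ _ z hz, ev_mk _ _ z hz]
        unfold c0S781
        rw [← tsum_mul_left]
        congr 1
        funext n
        rw [ZeroAtInftyContinuousMap.smul_apply, map_smul, ev_smul]
        ring } 2 ?_, ?_⟩
  · intro f
    apply norm_le_of _ (by positivity)
    intro z hz
    simp only [LinearMap.coe_mk, AddHom.coe_mk]
    rw [ev_mk _ _ z hz]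
    have := c0_tail781 h hh V hV f z hz ‖f‖ (norm_nonneg f) 0 (fun n _ => c0_norm_le781 f n)
    simpa using this
  · intro f z hz
    have : ev (mk (c0S781 h V f) (c0_isDA781 h hh V hV f)) z = c0S781 h V f z := ev_mk _ _ z hz
    show HasSum _ (ev (mk (c0S781 h V f) (c0_isDA781 h hh V hV f)) z)
    rw [this]
    exact (hsum f z hz).hasSum

end Pool.Agent.Helper621.DAP
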