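import Pool.Agent.Helper621.DAP.Defs
import Pool.Agent.Helper621.DAP.P_isClosed_DA

set_option autoImplicit false

open Complex Metric Set Filter Topology Classical ZeroAtInfty

namespace Pool.Agent.Helper621.DAP


theorem c0_complete : CompleteSpace C₀(ℕ, DA) := by
  haveI : CompleteSpace DA := isClosed_DA.completeSpace_coe
  infer_instance

end Pool.Agent.Helper621.DAP
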