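import Pool.Agent.Helper621.DAP.Defs

set_option autoImplicit false

open Complex Metric Set Filter Topology Classical ZeroAtInfty

namespace Pool.Agent.Helper621.DAP


/-- the peak function `((1 + conj s * z)/2)^n` -/
theorem peak_isDA (s : ℂ) (n : ℕ) : IsDA (fun z => ((1 + (starRingEnd ℂ) s * z) / 2) ^ n) := by
  exact ⟨by fun_prop, by fun_prop⟩

end Pool.Agent.Helper621.DAP
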