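import Pool.Agent.Helper621.DAP.Defs
import Pool.Agent.Helper621.DAP.P_peak

set_option autoImplicit false

open Complex Metric Set Filter Topology Classical ZeroAtInfty

namespace Pool.Agent.Helper621.DAP


theorem peak_small {s : ℂ} (hs : ‖s‖ = 1) {r : ℝ} (hr : 0 < r) {η : ℝ} (hη : 0 < η) :
    ∃ N : ℕ, ∀ n ≥ N, ∀ z ∈ closedBall (0:ℂ) 1, r ≤ ‖z - s‖ →
      ‖((1 + (starRingEnd ℂ) s * z) / 2) ^ n‖ ≤ η := by
  have hρ1 : Real.sqrt (1 - r ^ 2 / 4) < 1 := by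
    rw [Real.sqrt_lt' one_pos]
    nlinarith [sq_pos_of_pos hr]
  have hρ0 : 0 ≤ Real.sqrt (1 - r ^ 2 / 4) := Real.sqrt_nonneg _
  obtain ⟨N, hN⟩ := exists_pow_lt_of_lt_one hη hρ1
  refine ⟨N, fun n hn z hz hzs => ?_⟩
  have hz1 : ‖z‖ ≤ 1 := by simpa using hz
  have hss : (starRingEnd ℂ) s * s = 1 := by
    rw [mul_comm, Complex.mul_conj, Complex.normSq_eq_norm_sq, hs]
    simp
  have hw : ‖(starRingEnd ℂ) s * z‖ ≤ 1 := by
    rw [norm_mul, RCLike.norm_conj, hs, one_mul]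
    exact hz1
  have hw2 : r ≤ ‖1 - (starRingEnd ℂ) s * z‖ := by
    have h1 : 1 - (starRingEnd ℂ) s * z = -((starRingEnd ℂ) s * (z - s)) := by
      rw [mul_sub, hss]; ring
    rw [h1, norm_neg, norm_mul, RCLike.norm_conj, hs, one_mul]
    exact hzs
  have hpar := parallelogram_law_with_norm ℝ (1 : ℂ) ((starRingEnd ℂ) s * z)
  have hb : ‖(1 + (starRingEnd ℂ) s * z) / 2‖ ≤ Real.sqrt (1 - r ^ 2 / 4) := by
    apply Real.le_sqrt_of_sq_le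
    rw [norm_div]
    have h2 : ‖(2 : ℂ)‖ = 2 := by simp
    rw [h2]
    have h3 : ‖(1 : ℂ)‖ = 1 := by simp
    rw [h3] at hpar
    have h4 := norm_nonneg ((starRingEnd ℂ) s * z)
    nlinarith
  rw [norm_pow]
  calc ‖(1 + (starRingEnd ℂ) s * z) / 2‖ ^ n ≤ Real.sqrt (1 - r ^ 2 / 4) ^ n :=
        pow_le_pow_left₀ (norm_nonneg _) hb n
    _ ≤ Real.sqrt (1 - r ^ 2 / 4) ^ N := pow_le_pow_of_le_one hρ0 hρ1.le hn
    _ ≤ η := hN.le

end Pool.Agent.Helper621.DAP
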