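import Pool.Agent.Helper621.DAP.Defs
import Pool.Agent.Helper621.DAP.P_peak
import Pool.Agent.Helper621.DAP.P_peak_small

set_option autoImplicit false

open Complex Metric Set Filter Topology Classical ZeroAtInfty

namespace Pool.Agent.Helper621.DAP


/-- the parameters -/
noncomputable def tt (n : ℕ) : ℝ := (1 / 2 : ℝ) ^ n

theorem tt_pos (n : ℕ) : 0 < tt n := by unfold tt; positivity

theorem tt_le_one (n : ℕ) : tt n ≤ 1 := by
  unfold tt; exact pow_le_one₀ (by norm_num) (by norm_num)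

theorem tt_half {n m : ℕ} (h : n < m) : tt m ≤ tt n / 2 := by
  unfold tt
  have : (1 / 2 : ℝ) ^ m ≤ (1 / 2 : ℝ) ^ (n + 1) :=
    pow_le_pow_of_le_one (by norm_num) (by norm_num) h
  rw [pow_succ] at this; linarith

/-- the points as a function of the parameter -/
noncomputable def sf (t : ℝ) : ℂ := (1 + I * t) / (1 - I * t)

theorem norm_one_sub_sq (t : ℝ) : ‖(1 : ℂ) - I * t‖ ^ 2 = 1 + t ^ 2 := by
  rw [← Complex.normSq_eq_norm_sq, Complex.normSq_apply]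
  simp
  ring

theorem one_sub_ne (t : ℝ) : (1 : ℂ) - I * t ≠ 0 := by
  intro h
  have := norm_one_sub_sq t
  rw [h] at this; simp at this; nlinarith [sq_nonneg t]

theorem norm_one_add_sq (t : ℝ) : ‖(1 : ℂ) + I * t‖ ^ 2 = 1 + t ^ 2 := by
  rw [← Complex.normSq_eq_norm_sq, Complex.normSq_apply]
  simp
  ring

theorem norm_sf (t : ℝ) : ‖sf t‖ = 1 := by
  unfold sf
  rw [norm_div]
  have h1 := norm_one_sub_sq t
  have h2 := norm_one_add_sq t
  have h3 : ‖(1 : ℂ) + I * t‖ = ‖(1 : ℂ) - I * t‖ := by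
    have := h2.trans h1.symm
    exact (pow_left_inj₀ (norm_nonneg _) (norm_nonneg _) (by norm_num)).1 this
  rw [h3]
  exact div_self (norm_ne_zero_iff.2 (one_sub_ne t))

theorem sf_sub (t u : ℝ) : ‖sf t - sf u‖ = 2 * |t - u| / (‖(1 : ℂ) - I * t‖ * ‖(1 : ℂ) - I * u‖) := by
  have h : sf t - sf u = (2 * I * ((t - u : ℝ) : ℂ)) / ((1 - I * t) * (1 - I * u)) := by
    unfold sf
    have h1 := one_sub_ne t
    have h2 := one_sub_ne u
    rw [div_sub_div _ _ h1 h2]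
    congr 1
    push_cast
    ring
  rw [h, norm_div, norm_mul, norm_mul, norm_mul, Complex.norm_I, Complex.norm_real]
  simp

theorem sf_lower {t u : ℝ} (ht : 0 ≤ t) (ht1 : t ≤ 1) (hu : 0 ≤ u) (hu1 : u ≤ 1) :
    |t - u| ≤ ‖sf t - sf u‖ := by
  rw [sf_sub]
  have h1 := norm_one_sub_sq t
  have h2 := norm_one_sub_sq u
  have p1 : 0 < ‖(1 : ℂ) - I * t‖ := norm_pos_iff.2 (one_sub_ne t)
  have p2 : 0 < ‖(1 : ℂ) - I * u‖ := norm_pos_iff.2 (one_sub_ne u)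
  rw [le_div_iff₀ (mul_pos p1 p2)]
  have : ‖(1 : ℂ) - I * t‖ * ‖(1 : ℂ) - I * u‖ ≤ 2 := by nlinarith [sq_nonneg (‖(1 : ℂ) - I * t‖ - ‖(1 : ℂ) - I * u‖)]
  nlinarith [abs_nonneg (t - u)]

theorem sf_upper {t u : ℝ} : ‖sf t - sf u‖ ≤ 2 * |t - u| := by
  rw [sf_sub]
  have h1 := norm_one_sub_sq t
  have h2 := norm_one_sub_sq u
  have p1 : 1 ≤ ‖(1 : ℂ) - I * t‖ := by
    by_contra h; push Not at h
    nlinarith [norm_nonneg ((1 : ℂ) - I * t), sq_nonneg t]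
  have p2 : 1 ≤ ‖(1 : ℂ) - I * u‖ := by
    by_contra h; push Not at h
    nlinarith [norm_nonneg ((1 : ℂ) - I * u), sq_nonneg u]
  rw [div_le_iff₀ (by positivity)]
  have : 1 ≤ ‖(1 : ℂ) - I * t‖ * ‖(1 : ℂ) - I * u‖ := by nlinarith
  nlinarith [abs_nonneg (t - u)]

theorem sf_zero : sf 0 = 1 := by unfold sf; simp

/-- the points -/
noncomputable def ss (n : ℕ) : ℂ := sf (tt n)

/-- the radii -/
noncomputable def rr (n : ℕ) : ℝ := tt n / 8

theorem rr_pos (n : ℕ) : 0 < rr n := by have := tt_pos n; unfold rr; linarith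

theorem ss_sep {n m : ℕ} (h : n ≠ m) : tt n / 4 + tt m / 4 ≤ ‖ss n - ss m‖ := by
  have h1 := sf_lower (tt_pos n).le (tt_le_one n) (tt_pos m).le (tt_le_one m)
  have pn := tt_pos n
  have pm := tt_pos m
  rcases lt_or_gt_of_ne h with h' | h'
  · have := tt_half h'
    have h2 := le_abs_self (tt n - tt m)
    unfold ss; linarith
  · have := tt_half h'
    have h2 := neg_le_abs (tt n - tt m)
    unfold ss; linarith

theorem rr_far {n m : ℕ} (h : n ≠ m) {z : ℂ} (hz : ‖z - ss n‖ < rr n) : rr m ≤ ‖z - ss m‖ := by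
  have h1 := ss_sep h
  have h2 : ‖ss n - ss m‖ ≤ ‖z - ss n‖ + ‖z - ss m‖ := by
    have : ss n - ss m = -(z - ss n) + (z - ss m) := by ring
    rw [this]
    refine (norm_add_le _ _).trans ?_
    rw [norm_neg]
  have pn := tt_pos n
  have pm := tt_pos m
  unfold rr at *
  linarith

theorem rr_one (m : ℕ) : rr m ≤ ‖(1 : ℂ) - ss m‖ := by
  have h1 := sf_lower (le_refl (0:ℝ)) (by norm_num) (tt_pos m).le (tt_le_one m)
  rw [sf_zero] at h1
  have pm := tt_pos m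
  have h2 := neg_le_abs (0 - tt m)
  unfold rr ss; linarith

theorem peak_norm_le {s : ℂ} (hs : ‖s‖ = 1) (n : ℕ) {z : ℂ} (hz : z ∈ closedBall (0:ℂ) 1) :
    ‖((1 + (starRingEnd ℂ) s * z) / 2) ^ n‖ ≤ 1 := by
  rw [norm_pow]
  apply pow_le_one₀ (norm_nonneg _)
  rw [norm_div]
  have hz' : ‖z‖ ≤ 1 := by simpa using hz
  have : ‖1 + (starRingEnd ℂ) s * z‖ ≤ 2 := by
    refine (norm_add_le _ _).trans ?_
    rw [norm_mul, RCLike.norm_conj, hs, norm_one]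
    linarith
  simp only [Complex.norm_ofNat]
  linarith

theorem peak_cont {s : ℂ} (hs : ‖s‖ = 1) (n : ℕ) {ε : ℝ} (hε : 0 < ε) :
    ∃ δ > 0, ∀ z : ℂ, ‖z - s‖ < δ → ‖((1 + (starRingEnd ℂ) s * z) / 2) ^ n - 1‖ < ε := by
  have hc : Continuous (fun z : ℂ => ((1 + (starRingEnd ℂ) s * z) / 2) ^ n) := by fun_prop
  have hv : ((1 + (starRingEnd ℂ) s * s) / 2) ^ n = 1 := by
    have : (starRingEnd ℂ) s * s = 1 := by
      rw [mul_comm, Complex.mul_conj, Complex.normSq_eq_norm_sq, hs]; simp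
    rw [this]; norm_num
  have := Metric.continuous_iff.1 hc s ε hε
  obtain ⟨δ, hδ, h⟩ := this
  refine ⟨δ, hδ, fun z hz => ?_⟩
  have := h z (by rwa [dist_eq_norm])
  rwa [dist_eq_norm, hv] at this

theorem c0_points {ε : ℝ} (hε : 0 < ε) (hε1 : ε ≤ 1) :
    ∃ (s : ℕ → ℂ) (δ : ℕ → ℝ) (h : ℕ → DA), (∀ n, ‖s n‖ = 1) ∧ (∀ n, 0 < δ n) ∧
      (∀ n, ‖h n‖ ≤ 1) ∧
      (∀ n, ∀ z : ℂ, ‖z‖ = 1 → ‖z - s n‖ < δ n → ‖ev (h n) z - 1‖ ≤ ε) ∧
      (∀ z ∈ closedBall (0:ℂ) 1, ∀ F : Finset ℕ, ∑ n ∈ F, ‖ev (h n) z‖ ≤ 2) ∧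
      (∀ n, ∀ z : ℂ, ‖z‖ = 1 → ‖z - s n‖ < δ n → ∀ F : Finset ℕ, n ∉ F →
        ∑ k ∈ F, ‖ev (h k) z‖ ≤ ε) ∧
      (∀ F : Finset ℕ, ∑ k ∈ F, ‖ev (h k) 1‖ ≤ ε) ∧
      (∀ ρ > 0, ∃ N, ∀ n ≥ N, ∀ z : ℂ, ‖z - s n‖ < δ n → ‖z - 1‖ < ρ) := by
  have hη : ∀ n : ℕ, 0 < ε / 2 / 2 ^ n := fun n => by positivity
  choose N hN using fun n : ℕ => peak_small (norm_sf (tt n)) (rr_pos n) (hη n)
  choose δ hδ0 hδ using fun n : ℕ => peak_cont (norm_sf (tt n)) (N n) hε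
  let h : ℕ → DA := fun n => mk _ (peak_isDA (ss n) (N n))
  have hev : ∀ n, ∀ z ∈ closedBall (0:ℂ) 1, ev (h n) z = ((1 + (starRingEnd ℂ) (ss n) * z) / 2) ^ (N n) :=
    fun n z hz => ev_mk _ _ z hz
  have hle1 : ∀ n, ∀ z ∈ closedBall (0:ℂ) 1, ‖ev (h n) z‖ ≤ 1 := by
    intro n z hz
    rw [hev n z hz]
    exact peak_norm_le (norm_sf _) _ hz
  have hsmall : ∀ n, ∀ z ∈ closedBall (0:ℂ) 1, rr n ≤ ‖z - ss n‖ → ‖ev (h n) z‖ ≤ ε / 2 / 2 ^ n := by
    intro n z hz hr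
    rw [hev n z hz]
    exact hN n (N n) le_rfl z hz hr
  have hsum : ∀ F : Finset ℕ, ∑ k ∈ F, ε / 2 / 2 ^ k ≤ ε := by
    intro F
    have := (summable_geometric_two' ε).sum_le_tsum F (fun k _ => (hη k).le)
    rwa [tsum_geometric_two'] at this
  have hA : ∀ z ∈ closedBall (0:ℂ) 1, ∀ F : Finset ℕ, (∀ k ∈ F, rr k ≤ ‖z - ss k‖) →
      ∑ k ∈ F, ‖ev (h k) z‖ ≤ ε := by
    intro z hz F hF
    exact (Finset.sum_le_sum (fun k hk => hsmall k z hz (hF k hk))).trans (hsum F)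
  have hone : (1:ℂ) ∈ closedBall (0:ℂ) 1 := by simp
  have hball : ∀ z : ℂ, ‖z‖ = 1 → z ∈ closedBall (0:ℂ) 1 := by
    intro z hz; simp [hz]
  refine ⟨ss, fun n => min (δ n) (rr n), h, fun n => norm_sf _, fun n => lt_min (hδ0 n) (rr_pos n),
    ?_, ?_, ?_, ?_, ?_, ?_⟩
  · intro n
    exact norm_le_of _ zero_le_one (hle1 n)
  · intro n z hz hzn
    rw [hev n z (hball z hz)]
    exact (hδ n z (hzn.trans_le (min_le_left _ _))).le
  · intro z hz F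
    by_cases hc : ∃ n ∈ F, ‖z - ss n‖ < rr n
    · obtain ⟨n, hnF, hn⟩ := hc
      rw [← Finset.add_sum_erase F _ hnF]
      have h1 := hle1 n z hz
      have h2 := hA z hz (F.erase n) (fun k hk => rr_far (Finset.ne_of_mem_erase hk).symm hn)
      linarith
    · push Not at hc
      have := hA z hz F hc
      linarith
  · intro n z hz hzn F hnF
    apply hA z (hball z hz) F
    intro k hk
    have hkn : n ≠ k := fun e => hnF (e ▸ hk)
    exact rr_far hkn (hzn.trans_le (min_le_right _ _))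
  · intro F
    exact hA 1 hone F (fun k _ => rr_one k)
  · intro ρ hρ
    obtain ⟨M, hM⟩ := exists_pow_lt_of_lt_one (show (0:ℝ) < ρ / 3 by linarith) (show (1/2:ℝ) < 1 by norm_num)
    refine ⟨M, fun n hn z hz => ?_⟩
    have h1 : ‖z - ss n‖ < rr n := hz.trans_le (min_le_right _ _)
    have h2 : ‖ss n - 1‖ ≤ 2 * tt n := by
      have := @sf_upper (tt n) 0
      rw [sf_zero, sub_zero, abs_of_pos (tt_pos n)] at this
      exact this
    have h3 : tt n ≤ tt M := by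
      unfold tt
      exact pow_le_pow_of_le_one (by norm_num) (by norm_num) hn
    have h4 : tt M < ρ / 3 := hM
    have h5 : ‖z - 1‖ ≤ ‖z - ss n‖ + ‖ss n - 1‖ := by
      have : z - 1 = (z - ss n) + (ss n - 1) := by ring
      rw [this]; exact norm_add_le _ _
    have h6 := tt_pos n
    unfold rr at h1
    linarith

end Pool.Agent.Helper621.DAP
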