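import Mathlib

set_option autoImplicit false

open Complex Metric Set Filter Topology Classical ZeroAtInfty

namespace Pool.Agent.Helper621.DAP


theorem inv_of_near {X : Type} [NormedAddCommGroup X] [NormedSpace ℂ X] [CompleteSpace X]
    (S : X →L[ℂ] X) (h : ∀ x, ‖S x - x‖ ≤ (1 / 2) * ‖x‖) :
    ∃ S' : X →L[ℂ] X, ∀ x, S' (S x) = x := by
  have h1 : ‖(1 : X →L[ℂ] X) - S‖ ≤ 1 / 2 := by
    refine ContinuousLinearMap.opNorm_le_bound _ (by norm_num) (fun x => ?_)
    have := h x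
    rw [← norm_neg] at this
    simpa [sub_eq_add_neg, add_comm] using this
  have h2 : ‖(1 : X →L[ℂ] X) - S‖ < 1 := lt_of_le_of_lt h1 (by norm_num)
  obtain ⟨u, hu⟩ : IsUnit S := by
    have := isUnit_one_sub_of_norm_lt_one h2
    simpa using this
  refine ⟨(↑u⁻¹ : X →L[ℂ] X), fun x => ?_⟩
  have h3 : (↑u⁻¹ : X →L[ℂ] X) * (u : X →L[ℂ] X) = 1 := Units.inv_mul u
  rw [hu] at h3
  have := congrArg (fun T : X →L[ℂ] X => T x) h3
  simpa using this

end Pool.Agent.Helper621.DAP
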