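import Pool.Agent.Helper621.DAP.Defs
import Pool.Agent.Helper621.DAP.P_th_facts
import Pool.Agent.Helper621.DAP.P_Lg_facts
import Pool.Agent.Helper621.DAP.P_al_facts
import Pool.Agent.Helper621.DAP.P_th_lim
import Pool.Agent.Helper621.DAP.P_strip_to_disc

set_option autoImplicit false

open Complex Metric Set Filter Topology Classical ZeroAtInfty

namespace Pool.Agent.Helper621.DAP


theorem mm_inner_cs {l : ℂ} (h : l ∈ cs (-(Real.pi / 2)) (Real.pi / 2)) :
    alInv l ∈ cs (-(Real.pi / 2)) (Real.pi / 2) := by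
  have h1 := (al_facts l).2.2.2.2.1 h
  exact ⟨h1.1, h1.2.trans (by linarith [Real.pi_pos])⟩

theorem mm_inner_os {l : ℂ} (h : l ∈ os (-(Real.pi / 2)) (Real.pi / 2)) :
    alInv l ∈ os (-(Real.pi / 2)) (Real.pi / 2) := by
  have h1 := (al_facts l).2.2.2.2.2 h
  exact ⟨h1.1, h1.2.trans (by linarith [Real.pi_pos])⟩

theorem mm_inner_diff {l : ℂ} (h : l ∈ cs (-(Real.pi / 2)) (Real.pi / 2)) :
    DifferentiableAt ℂ (fun l => (th (alInv l)) ^ 2) l := by
  have h1 := (th_mem (mm_inner_cs h)).2.2.2.1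
  have h2 : DifferentiableAt ℂ th (alInv l) := by
    unfold th
    apply DifferentiableAt.div
    · exact (differentiableAt_exp).sub_const 1
    · exact (differentiableAt_exp).add_const 1
    · exact h1
  have h3 : DifferentiableAt ℂ alInv l := by
    unfold alInv
    exact (differentiableAt_id.const_mul _).sub_const _
  exact (h2.comp l h3).pow 2

theorem mm_inner_re (l : ℂ) : (alInv l).re = 3 / 4 * l.re := by
  unfold alInv
  simp

theorem mm_inner_SF : SF (-(Real.pi / 2)) (Real.pi / 2) (fun l => (th (alInv l)) ^ 2) 1 1 := by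
  refine ⟨?_, ?_, ?_, ?_⟩
  · intro l hl
    exact (mm_inner_diff hl).continuousAt.continuousWithinAt
  · intro l hl
    exact (mm_inner_diff ⟨hl.1.le, hl.2.le⟩).differentiableWithinAt
  · intro ε hε
    obtain ⟨X, hX⟩ := th_lim (half_pos hε)
    refine ⟨4 / 3 * X, fun l hl hlX => ?_⟩
    have h1 := mm_inner_cs hl
    have h2 := (hX _ h1).1 (by rw [mm_inner_re]; linarith)
    have h3 : ‖th (alInv l)‖ ≤ 1 := by simpa using (th_mem h1).1
    have h4 : ‖th (alInv l) + 1‖ ≤ 2 := (norm_add_le _ _).trans (by rw [norm_one]; linarith)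
    have e : (th (alInv l)) ^ 2 - 1 = (th (alInv l) - 1) * (th (alInv l) + 1) := by ring
    show ‖(th (alInv l)) ^ 2 - 1‖ ≤ ε
    rw [e, norm_mul]
    calc ‖th (alInv l) - 1‖ * ‖th (alInv l) + 1‖ ≤ (ε / 2) * 2 :=
          mul_le_mul h2 h4 (norm_nonneg _) (by positivity)
      _ = ε := by ring
  · intro ε hε
    obtain ⟨X, hX⟩ := th_lim (half_pos hε)
    refine ⟨4 / 3 * (-X), fun l hl hlX => ?_⟩
    have h1 := mm_inner_cs hl
    have h2 := (hX _ h1).2 (by rw [mm_inner_re]; linarith)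
    have h3 : ‖th (alInv l)‖ ≤ 1 := by simpa using (th_mem h1).1
    have h4 : ‖th (alInv l) - 1‖ ≤ 2 := (norm_sub_le _ _).trans (by rw [norm_one]; linarith)
    have e : (th (alInv l)) ^ 2 - 1 = (th (alInv l) + 1) * (th (alInv l) - 1) := by ring
    show ‖(th (alInv l)) ^ 2 - 1‖ ≤ ε
    rw [e, norm_mul]
    calc ‖th (alInv l) + 1‖ * ‖th (alInv l) - 1‖ ≤ (ε / 2) * 2 :=
          mul_le_mul h2 h4 (norm_nonneg _) (by positivity)
      _ = ε := by ring

theorem mm_inner : Inner mm := by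
  refine ⟨strip_to_disc mm_inner_SF, ?_, ?_⟩
  · intro z hz
    unfold mm
    split_ifs with h1 h2
    · simp
    · simp
    · have h3 := (Lg_facts hz h1 h2).2.1
      have h4 := (th_mem (mm_inner_cs h3)).1
      rw [mem_closedBall_zero_iff] at h4 ⊢
      rw [norm_pow]
      exact pow_le_one₀ (norm_nonneg _) h4
  · intro z hz
    have hz' : ‖z‖ < 1 := by simpa using hz
    have h1 : z ≠ 1 := by rintro rfl; simp at hz'
    have h2 : z ≠ -1 := by rintro rfl; simp at hz'
    unfold mm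
    rw [if_neg h1, if_neg h2]
    have h3 := ((Lg_facts (ball_subset_closedBall hz) h1 h2).2.2.2.2 hz).1
    have h4 := mm_inner_os h3
    have h5 := (th_mem ⟨h4.1.le, h4.2.le⟩).2.2.2.2.1 h4
    rw [mem_ball_zero_iff] at h5 ⊢
    rw [norm_pow]
    exact pow_lt_one₀ (norm_nonneg _) h5 (by norm_num)

end Pool.Agent.Helper621.DAP
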