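import Pool.Agent.Helper621.DAP.Defs
import Pool.Agent.Helper621.DAP.P_mm_inner
import Pool.Agent.Helper621.DAP.P_Rv_isDA
import Pool.Agent.Helper621.DAP.P_Rv_add
import Pool.Agent.Helper621.DAP.P_Rv_smul
import Pool.Agent.Helper621.DAP.P_Rv_bound
import Pool.Agent.Helper621.DAP.P_Rv_mm
import Pool.Agent.Helper621.DAP.P_th_facts
import Pool.Agent.Helper621.DAP.P_al_facts
import Pool.Agent.Helper621.DAP.P_Lg_facts
import Pool.Agent.Helper621.DAP.P_sqrt_facts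

set_option autoImplicit false

open Complex Metric Set Filter Topology Classical ZeroAtInfty

namespace Pool.Agent.Helper621.DAP


theorem GG_congr834 {g₁ g₂ : ℂ → ℂ} (h : ∀ z ∈ closedBall (0:ℂ) 1, g₁ z = g₂ z) {l : ℂ}
    (hl : l ∈ cs (-(Real.pi / 2)) (Real.pi / 4)) : GG g₁ l = GG g₂ l := by
  unfold GG
  exact h _ (th_mem ((al_facts l).2.2.1 hl)).1

theorem pt_im834 (s : ℝ) : (pt s).im = Real.pi / 8 := by
  unfold pt
  simp

theorem HH_congr834 {g₁ g₂ : ℂ → ℂ} (h : ∀ z ∈ closedBall (0:ℂ) 1, g₁ z = g₂ z) {l : ℂ}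
    (hl : l ∈ cs (-(Real.pi / 2)) (Real.pi / 4)) : HH (GG g₁) l = HH (GG g₂) l := by
  unfold HH
  rw [GG_congr834 h hl]
  have hpi := Real.pi_pos
  have h1 : (fun s => GG g₁ (pt s) - GG g₁ (-(pt s))) = (fun s => GG g₂ (pt s) - GG g₂ (-(pt s))) := by
    funext s
    have e1 : pt s ∈ cs (-(Real.pi / 2)) (Real.pi / 4) := by
      refine ⟨?_, ?_⟩ <;> rw [pt_im834] <;> linarith
    have e2 : -(pt s) ∈ cs (-(Real.pi / 2)) (Real.pi / 4) := by
      refine ⟨?_, ?_⟩ <;> rw [neg_im, pt_im834] <;> linarith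
    rw [GG_congr834 h e1, GG_congr834 h e2]
  rw [h1]

theorem Rv_congr834 {g₁ g₂ : ℂ → ℂ} (h : ∀ z ∈ closedBall (0:ℂ) 1, g₁ z = g₂ z) {w : ℂ}
    (hw : w ∈ closedBall (0:ℂ) 1) : Rv g₁ w = Rv g₂ w := by
  have hpi := Real.pi_pos
  unfold Rv
  split_ifs with h1
  · rw [h 1 (by simp), h (-1) (by simp)]
  · obtain ⟨s1, s2, s3, s4⟩ := sqrt_facts hw
    obtain ⟨t1, t2, t3, t4, t5⟩ := Lg_facts s1 (fun h => h1 (s3.1 h)) s4
    unfold FE
    obtain ⟨u1, u2⟩ := t2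
    split_ifs with h2
    · exact HH_congr834 h ⟨u1, by linarith⟩
    · push Not at h2
      exact HH_congr834 h ⟨by rw [neg_im]; linarith, by rw [neg_im]; linarith⟩

/-- the left inverse as a linear map -/
noncomputable def RL834 : DA →ₗ[ℂ] DA where
  toFun := fun G => mk (Rv (ev G)) (Rv_isDA (ev_isDA G))
  map_add' := by
    intro x y; apply ev_ext; intro z hz
    rw [ev_add, ev_mk _ _ z hz, ev_mk _ _ z hz, ev_mk _ _ z hz]
    rw [← Rv_add (ev_isDA x) (ev_isDA y) hz]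
    congr 1
    funext z; exact ev_add x y z
  map_smul' := by
    intro c x; apply ev_ext; intro z hz
    rw [RingHom.id_apply, ev_smul, ev_mk _ _ z hz, ev_mk _ _ z hz, ← Rv_smul]
    congr 1
    funext z; exact ev_smul c x z

theorem ev_RL834 (G : DA) (z : ℂ) (hz : z ∈ closedBall (0:ℂ) 1) : ev (RL834 G) z = Rv (ev G) z :=
  ev_mk _ (Rv_isDA (ev_isDA G)) z hz

theorem RL834_bound1 (G : DA) (hG : ‖G‖ ≤ 1) {m : ℝ} (hm : 0 < m) (hm1 : m ≤ 1)
    (hlow : ∀ z : ℂ, ‖z‖ = 1 → z.im ≤ 0 → ‖ev G z‖ ≤ m) : ‖RL834 G‖ ≤ 51 * m ^ (1 / 6 : ℝ) := by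
  apply norm_le_of _ (by positivity)
  intro z hz
  rw [ev_RL834 _ _ hz]
  exact Rv_bound (ev_isDA G) (fun z _ => (norm_ev_le G z).trans hG) hm hm1 hlow hz

theorem RL834_bound (G : DA) : ‖RL834 G‖ ≤ 51 * ‖G‖ := by
  rcases eq_or_ne G 0 with rfl | hG
  · rw [map_zero, norm_zero]; simp
  have hn : 0 < ‖G‖ := norm_pos_iff.2 hG
  set G' : DA := ((‖G‖ : ℂ)⁻¹) • G with hG'
  have h1 : ‖G'‖ ≤ 1 := by
    rw [hG', norm_smul, norm_inv, Complex.norm_real, Real.norm_of_nonneg hn.le,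
      inv_mul_cancel₀ hn.ne']
  have h2 := RL834_bound1 G' h1 one_pos le_rfl
    (fun z _ _ => (norm_ev_le G' z).trans h1)
  rw [Real.one_rpow, mul_one] at h2
  have h3 : G = (‖G‖ : ℂ) • G' := by
    rw [hG', smul_smul, mul_inv_cancel₀ (by exact_mod_cast hn.ne'), one_smul]
  have h4 : RL834 G = (‖G‖ : ℂ) • RL834 G' := by
    conv_lhs => rw [h3]
    rw [map_smul]
  rw [h4, norm_smul, Complex.norm_real, Real.norm_of_nonneg hn.le]
  nlinarith

theorem key0 : ∃ U R : DA →L[ℂ] DA, (∀ f, R (U f) = f) ∧ (∀ f, ‖U f‖ ≤ ‖f‖) ∧ R one = one ∧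
    ∀ m : ℝ, 0 < m → m ≤ 1 → ∀ G : DA, ‖G‖ ≤ 1 →
      (∀ z : ℂ, ‖z‖ = 1 → z.im ≤ 0 → ‖ev G z‖ ≤ m) → ‖R G‖ ≤ 51 * m ^ (1 / 6 : ℝ) := by
  have hRU : ∀ f : DA, RL834 (compL mm mm_inner f) = f := by
    intro f
    apply ev_ext
    intro z hz
    rw [ev_RL834 _ _ hz, Rv_congr834 (g₂ := fun x => ev f (mm x)) _ hz, Rv_mm (ev_isDA f) hz]
    intro x hx
    exact ev_compL mm mm_inner f x hx
  have hU1 : compL mm mm_inner one = one := by
    apply ev_ext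
    intro z hz
    rw [ev_compL _ _ _ z hz, ev_one _ (mm_inner.mapsC z hz), ev_one z hz]
  refine ⟨compL mm mm_inner, LinearMap.mkContinuous RL834 51 RL834_bound, hRU,
    norm_compL_le mm mm_inner, ?_, ?_⟩
  · rw [LinearMap.mkContinuous_apply]
    conv_lhs => rw [← hU1]
    exact hRU one
  · intro m hm hm1 G hG hlow
    rw [LinearMap.mkContinuous_apply]
    exact RL834_bound1 G hG hm hm1 hlow

end Pool.Agent.Helper621.DAP
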