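import Pool.Agent.Helper621.DAP.Defs
import Pool.Agent.Helper621.DAP.P_key0
import Pool.Agent.Helper621.DAP.P_aut

set_option autoImplicit false

open Complex Metric Set Filter Topology Classical ZeroAtInfty

namespace Pool.Agent.Helper621.DAP


theorem key {s : ℂ} (hs : ‖s‖ = 1) {δ : ℝ} (hδ : 0 < δ) : ∃ U R : DA →L[ℂ] DA,
    (∀ f, R (U f) = f) ∧ (∀ f, ‖U f‖ ≤ ‖f‖) ∧ R one = one ∧ (∀ G, ‖R G‖ ≤ 51 * ‖G‖) ∧
    ∀ M m : ℝ, 0 < M → 0 < m → m ≤ 1 → ∀ G : DA, ‖G‖ ≤ M →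
      (∀ z : ℂ, ‖z‖ = 1 → ‖z - s‖ < δ → ‖ev G z‖ ≤ M * m) → ‖R G‖ ≤ 51 * M * m ^ (1 / 6 : ℝ) := by
  obtain ⟨U0, R0, h1, h2, h3, h4⟩ := key0
  obtain ⟨Φ, Ψ, hΦ, hΨ, e1, e2, h5⟩ := aut hs hδ
  have hest : ∀ M m : ℝ, 0 < M → 0 < m → m ≤ 1 → ∀ G : DA, ‖G‖ ≤ M →
      (∀ z : ℂ, ‖z‖ = 1 → ‖z - s‖ < δ → ‖ev G z‖ ≤ M * m) →
      ‖(R0.comp (compL Φ hΦ)) G‖ ≤ 51 * M * m ^ (1 / 6 : ℝ) := by
    intro M m hM hm hm1 G hG hz
    have hMn : ‖((M⁻¹ : ℝ) : ℂ)‖ = M⁻¹ := by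
      rw [Complex.norm_real, Real.norm_eq_abs, abs_of_pos (inv_pos.2 hM)]
    have h6 := h4 m hm hm1 (((M⁻¹ : ℝ) : ℂ) • compL Φ hΦ G) (by
      rw [norm_smul, hMn, inv_mul_le_iff₀ hM, mul_one]
      exact (norm_compL_le Φ hΦ G).trans hG) (by
      intro z hz1 hz2
      have hzc : z ∈ closedBall (0:ℂ) 1 := by simp [hz1]
      obtain ⟨h7, h8⟩ := h5 z hz1 hz2
      rw [ev_smul, ev_compL _ _ _ z hzc, norm_mul, hMn, inv_mul_le_iff₀ hM]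
      exact hz _ h7 h8)
    rw [map_smul, norm_smul, hMn, inv_mul_le_iff₀ hM] at h6
    calc ‖(R0.comp (compL Φ hΦ)) G‖ = ‖R0 (compL Φ hΦ G)‖ := rfl
      _ ≤ M * (51 * m ^ (1 / 6 : ℝ)) := h6
      _ = 51 * M * m ^ (1 / 6 : ℝ) := by ring
  refine ⟨(compL Ψ hΨ).comp U0, R0.comp (compL Φ hΦ), ?_, ?_, ?_, ?_, hest⟩
  · intro f
    show R0 (compL Φ hΦ (compL Ψ hΨ (U0 f))) = f
    have e : compL Φ hΦ (compL Ψ hΨ (U0 f)) = U0 f := by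
      apply ev_ext
      intro z hz
      rw [ev_compL _ _ _ z hz, ev_compL _ _ _ _ (hΦ.mapsC z hz), e1 z hz]
    rw [e, h1]
  · intro f
    exact (norm_compL_le Ψ hΨ _).trans (h2 f)
  · show R0 (compL Φ hΦ one) = one
    have e : compL Φ hΦ one = one := by
      apply ev_ext
      intro z hz
      rw [ev_compL _ _ _ z hz, ev_one _ (hΦ.mapsC z hz), ev_one z hz]
    rw [e, h3]
  · intro G
    by_cases hG : G = 0
    · rw [hG, map_zero, norm_zero, mul_zero]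
    · have hG' : 0 < ‖G‖ := norm_pos_iff.2 hG
      have h6 := hest ‖G‖ 1 hG' one_pos le_rfl G le_rfl (fun z _ _ => by
        rw [mul_one]; exact norm_ev_le G z)
      rwa [Real.one_rpow, mul_one] at h6

end Pool.Agent.Helper621.DAP
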