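import Pool.Agent.Helper621.DAP.Defs
import Pool.Agent.Helper621.DAP.P_key
import Pool.Agent.Helper621.DAP.P_c0_points
import Pool.Agent.Helper621.DAP.P_c0_U
import Pool.Agent.Helper621.DAP.P_c0_R
import Pool.Agent.Helper621.DAP.P_c0_complete
import Pool.Agent.Helper621.DAP.P_inv_of_near

set_option autoImplicit false

open Complex Metric Set Filter Topology Classical ZeroAtInfty

namespace Pool.Agent.Helper621.DAP


theorem hc836_sumA {a b : ℕ → ℂ} {S : ℂ} {B c : ℝ} (hB : 0 ≤ B)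
    (hS : HasSum (fun n => a n * b n) S) (hb : ∀ n, ‖b n‖ ≤ B)
    (ha : ∀ F : Finset ℕ, ∑ n ∈ F, ‖a n‖ ≤ c) : ‖S‖ ≤ c * B := by
  have h1 : Tendsto (fun F : Finset ℕ => ‖∑ n ∈ F, a n * b n‖) atTop (𝓝 ‖S‖) :=
    (hS : Tendsto _ _ _).norm
  refine le_of_tendsto' h1 ?_
  intro F
  calc ‖∑ n ∈ F, a n * b n‖ ≤ ∑ n ∈ F, ‖a n * b n‖ := norm_sum_le _ _
    _ ≤ ∑ n ∈ F, ‖a n‖ * B := by
        apply Finset.sum_le_sum
        intro n _
        rw [norm_mul]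
        exact mul_le_mul_of_nonneg_left (hb n) (norm_nonneg _)
    _ = (∑ n ∈ F, ‖a n‖) * B := by rw [Finset.sum_mul]
    _ ≤ c * B := mul_le_mul_of_nonneg_right (ha F) hB

theorem hc836_sumB {a b : ℕ → ℂ} {S : ℂ} {B ε : ℝ} (hB : 0 ≤ B) (n : ℕ)
    (hS : HasSum (fun n => a n * b n) S) (hb : ∀ n, ‖b n‖ ≤ B) (hn : ‖a n - 1‖ ≤ ε)
    (ha : ∀ F : Finset ℕ, n ∉ F → ∑ n ∈ F, ‖a n‖ ≤ ε) : ‖S - b n‖ ≤ 2 * ε * B := by
  have h1 : Tendsto (fun F : Finset ℕ => ‖∑ n ∈ F, a n * b n - b n‖) atTop (𝓝 ‖S - b n‖) :=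
    ((hS : Tendsto _ _ _).sub_const _).norm
  refine le_of_tendsto h1 ?_
  filter_upwards [eventually_ge_atTop ({n} : Finset ℕ)] with F hF
  have hnF : n ∈ F := hF (Finset.mem_singleton_self n)
  have e1 : ∑ k ∈ F, a k * b k - b n = (a n - 1) * b n + ∑ k ∈ F.erase n, a k * b k := by
    rw [← Finset.add_sum_erase F _ hnF]; ring
  have h2 : ‖∑ k ∈ F.erase n, a k * b k‖ ≤ ε * B := by
    calc ‖∑ k ∈ F.erase n, a k * b k‖ ≤ ∑ k ∈ F.erase n, ‖a k * b k‖ := norm_sum_le _ _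
      _ ≤ ∑ k ∈ F.erase n, ‖a k‖ * B := by
          apply Finset.sum_le_sum
          intro k _
          rw [norm_mul]
          exact mul_le_mul_of_nonneg_left (hb k) (norm_nonneg _)
      _ = (∑ k ∈ F.erase n, ‖a k‖) * B := by rw [Finset.sum_mul]
      _ ≤ ε * B := mul_le_mul_of_nonneg_right (ha _ (Finset.notMem_erase n F)) hB
  have h3 : ‖(a n - 1) * b n‖ ≤ ε * B := by
    rw [norm_mul]
    exact mul_le_mul hn (hb n) (norm_nonneg _) ((norm_nonneg _).trans hn)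
  rw [e1]
  calc _ ≤ ‖(a n - 1) * b n‖ + ‖∑ k ∈ F.erase n, a k * b k‖ := norm_add_le _ _
    _ ≤ ε * B + ε * B := add_le_add h3 h2
    _ = 2 * ε * B := by ring

/-- evaluation at 1 -/
noncomputable def hc836_ev1 : DA →L[ℂ] ℂ :=
  LinearMap.mkContinuous
    { toFun := fun g => ev g 1
      map_add' := fun x y => ev_add x y 1
      map_smul' := fun c x => ev_smul c x 1 }
    1 (by
      intro x
      simp only [LinearMap.coe_mk, AddHom.coe_mk, one_mul]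
      exact norm_ev_le _ _)

theorem hc836_ev1_apply (g : DA) : hc836_ev1 g = ev g 1 := rfl

/-- subtraction of the value at 1 -/
noncomputable def hc836_P : DA →L[ℂ] DA :=
  ContinuousLinearMap.id ℂ DA - hc836_ev1.smulRight one

theorem hc836_P_apply (g : DA) : hc836_P g = g - (ev g 1) • one := rfl

theorem hc836_ev_P (g : DA) (z : ℂ) (hz : z ∈ closedBall (0:ℂ) 1) :
    ev (hc836_P g) z = ev g z - ev g 1 := by
  rw [hc836_P_apply, ev_sub, ev_smul, ev_one z hz, mul_one]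

theorem hc836_norm_P (g : DA) : ‖hc836_P g‖ ≤ 2 * ‖g‖ := by
  apply norm_le_of _ (by positivity)
  intro z hz
  rw [hc836_ev_P g z hz]
  calc ‖ev g z - ev g 1‖ ≤ ‖ev g z‖ + ‖ev g 1‖ := norm_sub_le _ _
    _ ≤ ‖g‖ + ‖g‖ := add_le_add (norm_ev_le _ _) (norm_ev_le _ _)
    _ = 2 * ‖g‖ := by ring

theorem hc836_pow (x : ℝ) (hx : 0 ≤ x) : (x ^ 6) ^ (1 / 6 : ℝ) = x := by
  have h := Real.pow_rpow_inv_natCast hx (n := 6) (by norm_num)
  have e : (1 / 6 : ℝ) = ((6 : ℕ) : ℝ)⁻¹ := by norm_num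
  rw [e]; exact h

theorem hc836_abs {E : Type} [NormedAddCommGroup E] [NormedSpace ℂ E] [CompleteSpace C₀(ℕ, E)]
    (U : C₀(ℕ, E) →L[ℂ] E) (R : E →L[ℂ] C₀(ℕ, E))
    (h : ∀ (f : C₀(ℕ, E)) (n : ℕ), ‖R (U f) n - f n‖ ≤ (1 / 2) * ‖f‖) :
    ∃ R' : E →L[ℂ] C₀(ℕ, E), ∀ f, R' (U f) = f := by
  have hnear : ∀ f : C₀(ℕ, E), ‖(R.comp U) f - f‖ ≤ (1 / 2) * ‖f‖ := by
    intro f
    rw [← ZeroAtInftyContinuousMap.norm_toBCF_eq_norm]
    rw [BoundedContinuousFunction.norm_le (by positivity)]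
    exact h f
  obtain ⟨S', hS'⟩ := inv_of_near (R.comp U) hnear
  exact ⟨S'.comp R, fun f => hS' f⟩

theorem hc836_apply (U : C₀(ℕ, DA) →L[ℂ] DA) (R : DA →L[ℂ] C₀(ℕ, DA))
    (h : ∀ (f : C₀(ℕ, DA)) (n : ℕ), ‖R (U f) n - f n‖ ≤ (1 / 2) * ‖f‖) :
    ∃ R' : DA →L[ℂ] C₀(ℕ, DA), ∀ f, R' (U f) = f := by
  haveI : CompleteSpace C₀(ℕ, DA) := c0_complete
  exact hc836_abs (E := DA) U R h

theorem hc836_c0_nonneg (f : C₀(ℕ, DA)) : 0 ≤ ‖f‖ := norm_nonneg f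

theorem hc836_c0_apply_le (f : C₀(ℕ, DA)) (n : ℕ) : ‖f n‖ ≤ ‖f‖ := by
  rw [← ZeroAtInftyContinuousMap.norm_toBCF_eq_norm]
  exact f.toBCF.norm_coe_le_norm n

theorem hc836_tendsto {s : ℕ → ℂ} {δ : ℕ → ℝ}
    (hconv : ∀ ρ > 0, ∃ N, ∀ n ≥ N, ∀ z : ℂ, ‖z - s n‖ < δ n → ‖z - 1‖ < ρ)
    (R : ℕ → (DA →L[ℂ] DA))
    (hRkey : ∀ n, ∀ M m : ℝ, 0 < M → 0 < m → m ≤ 1 → ∀ G : DA, ‖G‖ ≤ M →
      (∀ z : ℂ, ‖z‖ = 1 → ‖z - s n‖ < δ n → ‖ev G z‖ ≤ M * m) →
        ‖R n G‖ ≤ 51 * M * m ^ (1 / 6 : ℝ)) (G : DA) :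
    Tendsto (fun n => R n (hc836_P G)) atTop (𝓝 0) := by
  rw [Metric.tendsto_atTop]
  intro η hη
  have hM : 0 < 2 * ‖G‖ + 1 := by positivity
  set M := 2 * ‖G‖ + 1 with hMdef
  set t := min 1 (η / (102 * M)) with ht
  have ht0 : 0 < t := by
    rw [ht]; apply lt_min one_pos; positivity
  have ht1 : t ≤ 1 := min_le_left _ _
  have ht2 : t ≤ η / (102 * M) := min_le_right _ _
  have hm0 : 0 < t ^ 6 := by positivity
  have hm1 : t ^ 6 ≤ 1 := pow_le_one₀ ht0.le ht1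
  have hcont : ContinuousWithinAt (ev G) (closedBall (0:ℂ) 1) 1 :=
    (ev_isDA G).1 1 (by simp)
  rw [Metric.continuousWithinAt_iff] at hcont
  obtain ⟨ρ, hρ, hρ'⟩ := hcont (M * t ^ 6) (by positivity)
  obtain ⟨N, hN⟩ := hconv ρ hρ
  refine ⟨N, fun n hn => ?_⟩
  have h1 : ‖R n (hc836_P G)‖ ≤ 51 * M * (t ^ 6) ^ (1 / 6 : ℝ) := by
    apply hRkey n M (t ^ 6) hM hm0 hm1
    · have := hc836_norm_P G
      linarith
    · intro z hz1 hz2
      have hzb : z ∈ closedBall (0:ℂ) 1 := by simp [hz1]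
      rw [hc836_ev_P G z hzb]
      have h3 := hρ' hzb (by rw [dist_eq_norm]; exact hN n hn z hz2)
      rw [dist_eq_norm] at h3
      exact h3.le
  rw [hc836_pow t ht0.le] at h1
  rw [dist_zero_right]
  have h2 : 51 * M * t ≤ η / 2 := by
    calc 51 * M * t ≤ 51 * M * (η / (102 * M)) := by
          apply mul_le_mul_of_nonneg_left ht2; positivity
      _ = η / 2 := by field_simp; norm_num
  linarith

theorem c0_compl : ∃ (U : C₀(ℕ, DA) →L[ℂ] DA) (R : DA →L[ℂ] C₀(ℕ, DA)), ∀ f, R (U f) = f := by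
  have hε : (0:ℝ) < (1 / 510 : ℝ) ^ 6 := by positivity
  have hε1 : (1 / 510 : ℝ) ^ 6 ≤ 1 := by norm_num
  obtain ⟨s, δ, h, hs, hδ, hh1, hhε, hhsum, hhoff, hh1sum, hconv⟩ := c0_points hε hε1
  have hpow : ((1 / 510 : ℝ) ^ 6) ^ (1 / 6 : ℝ) = 1 / 510 := hc836_pow _ (by norm_num)
  set ε : ℝ := (1 / 510 : ℝ) ^ 6 with hεdef
  choose U R hRU hU hR1 hRn hRkey using fun n => key (hs n) (hδ n)
  obtain ⟨UU, hUU⟩ := c0_U h hhsum U hU
  obtain ⟨RR, hRR⟩ := c0_R (fun n => (R n).comp hc836_P) (C := 102)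
    (by
      intro n G
      have h1 := hRn n (hc836_P G)
      have h2 := hc836_norm_P G
      rw [ContinuousLinearMap.comp_apply]
      linarith)
    (by
      intro G
      exact hc836_tendsto hconv R hRkey G)
  have hUf : ∀ f : C₀(ℕ, DA), ‖UU f‖ ≤ 2 * ‖f‖ := by
    intro f
    have hf0 := hc836_c0_nonneg f
    apply norm_le_of _ (by linarith)
    intro z hz
    refine hc836_sumA hf0 (hUU f z hz) ?_ (hhsum z hz)
    intro n
    exact (norm_ev_le _ _).trans ((hU n (f n)).trans (hc836_c0_apply_le f n))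
  have hUf1 : ∀ f : C₀(ℕ, DA), ‖ev (UU f) 1‖ ≤ ε * ‖f‖ := by
    intro f
    refine hc836_sumA (hc836_c0_nonneg f) (hUU f 1 (by simp)) ?_ hh1sum
    intro n
    exact (norm_ev_le _ _).trans ((hU n (f n)).trans (hc836_c0_apply_le f n))
  have hnear : ∀ (f : C₀(ℕ, DA)) (n : ℕ), ‖RR (UU f) n - f n‖ ≤ (1 / 2) * ‖f‖ := by
    intro f n
    have e1 : RR (UU f) n - f n = R n (hc836_P (UU f) - U n (f n)) := by
      rw [map_sub, hRU n (f n), hRR]
      rfl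
    rcases (hc836_c0_nonneg f).eq_or_lt with hf | hfpos
    · have h1 : ‖f n‖ ≤ 0 := by
        have := hc836_c0_apply_le f n
        rwa [← hf] at this
      have h2 : ‖UU f‖ ≤ 0 := by
        have := hUf f
        rwa [← hf, mul_zero] at this
      have h3 : f n = 0 := norm_le_zero_iff.mp h1
      have h4 : UU f = 0 := norm_le_zero_iff.mp h2
      rw [e1, h3, h4, map_zero, map_zero, sub_zero, map_zero, norm_zero, ← hf]
      norm_num
    rw [e1]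
    have h1 : ‖R n (hc836_P (UU f) - U n (f n))‖ ≤ 51 * (5 * ‖f‖) * ε ^ (1 / 6 : ℝ) := by
      apply hRkey n (5 * ‖f‖) ε (by positivity) hε hε1
      · have h2 := hc836_norm_P (UU f)
        have h3 := hUf f
        have h4 := (hU n (f n)).trans (hc836_c0_apply_le f n)
        have h5 := norm_sub_le (hc836_P (UU f)) (U n (f n))
        linarith
      · intro z hz1 hz2
        have hzb : z ∈ closedBall (0:ℂ) 1 := by simp [hz1]
        rw [ev_sub, hc836_ev_P _ z hzb]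
        have h2 : ‖ev (UU f) z - ev (U n (f n)) z‖ ≤ 2 * ε * ‖f‖ := by
          refine hc836_sumB (a := fun k => ev (h k) z) (b := fun k => ev (U k (f k)) z)
            hfpos.le n (hUU f z hzb) ?_ (hhε n z hz1 hz2) (hhoff n z hz1 hz2)
          intro n
          exact (norm_ev_le _ _).trans ((hU n (f n)).trans (hc836_c0_apply_le f n))
        have h3 := hUf1 f
        have e2 : ev (UU f) z - ev (UU f) 1 - ev (U n (f n)) z
            = (ev (UU f) z - ev (U n (f n)) z) - ev (UU f) 1 := by ring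
        rw [e2]
        have h4 := norm_sub_le (ev (UU f) z - ev (U n (f n)) z) (ev (UU f) 1)
        have h5 : 0 ≤ ε * ‖f‖ := by positivity
        nlinarith
    rw [hpow] at h1
    linarith
  obtain ⟨R', hR'⟩ := hc836_apply UU RR hnear
  exact ⟨UU, R', hR'⟩

end Pool.Agent.Helper621.DAP
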