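import Mathlib

set_option autoImplicit false

open Complex Metric Set Filter Topology Classical ZeroAtInfty

namespace Pool.Agent.Helper621.DAP
/-- composition with a continuous linear map on `c₀` (as a linear map) -/
noncomputable def c0_congr_lin {A B : Type} [NormedAddCommGroup A] [NormedSpace ℂ A]
    [NormedAddCommGroup B] [NormedSpace ℂ B] (e : A →L[ℂ] B) : C₀(ℕ, A) →ₗ[ℂ] C₀(ℕ, B) where
  toFun f :=
    { toFun := fun n => e (f n)
      continuous_toFun := by fun_prop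
      zero_at_infty' := by
        have h := (e.continuous.tendsto 0).comp (f.zero_at_infty')
        rw [map_zero] at h
        exact h }
  map_add' f g := by
    ext n
    simp
  map_smul' c f := by
    ext n
    simp

theorem c0_congr_norm_le {A : Type} [NormedAddCommGroup A] [NormedSpace ℂ A]
    (f : C₀(ℕ, A)) (n : ℕ) : ‖f n‖ ≤ ‖f‖ := by
  rw [← ZeroAtInftyContinuousMap.norm_toBCF_eq_norm]
  exact (ZeroAtInftyContinuousMap.toBCF f).norm_coe_le_norm n

theorem c0_congr_le_of {A : Type} [NormedAddCommGroup A] [NormedSpace ℂ A]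
    (f : C₀(ℕ, A)) (C : ℝ) (hC : 0 ≤ C) (h : ∀ n, ‖f n‖ ≤ C) : ‖f‖ ≤ C := by
  rw [← ZeroAtInftyContinuousMap.norm_toBCF_eq_norm]
  exact (BoundedContinuousFunction.norm_le hC).2 h

noncomputable def c0_congr_map {A B : Type} [NormedAddCommGroup A] [NormedSpace ℂ A]
    [NormedAddCommGroup B] [NormedSpace ℂ B] (e : A →L[ℂ] B) : C₀(ℕ, A) →L[ℂ] C₀(ℕ, B) :=
  (c0_congr_lin e).mkContinuous ‖e‖ (by
    intro f
    refine c0_congr_le_of _ _ (by positivity) ?_
    intro n
    calc ‖e (f n)‖ ≤ ‖e‖ * ‖f n‖ := e.le_opNorm _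
      _ ≤ ‖e‖ * ‖f‖ := by gcongr; exact c0_congr_norm_le f n)

theorem c0_congr_map_apply {A B : Type} [NormedAddCommGroup A] [NormedSpace ℂ A]
    [NormedAddCommGroup B] [NormedSpace ℂ B] (e : A →L[ℂ] B) (f : C₀(ℕ, A)) (n : ℕ) :
    c0_congr_map e f n = e (f n) := rfl

theorem c0_congr {A B : Type} [NormedAddCommGroup A] [NormedSpace ℂ A] [NormedAddCommGroup B]
    [NormedSpace ℂ B] (e : A ≃L[ℂ] B) : Nonempty (C₀(ℕ, A) ≃L[ℂ] C₀(ℕ, B)) := by
  refine ⟨ContinuousLinearEquiv.equivOfInverse (c0_congr_map (e : A →L[ℂ] B))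
    (c0_congr_map (e.symm : B →L[ℂ] A)) ?_ ?_⟩
  · intro f
    ext n
    rw [c0_congr_map_apply, c0_congr_map_apply]
    simp
  · intro f
    ext n
    rw [c0_congr_map_apply, c0_congr_map_apply]
    simp

end Pool.Agent.Helper621.DAP
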