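import Mathlib

set_option autoImplicit false

open Complex Metric Set Filter Topology Classical ZeroAtInfty

namespace Pool.Agent.Helper621.DAP


theorem norm_le_11354 {E : Type*} [NormedAddCommGroup E] (f : C₀(ℕ, E)) {C : ℝ} (hC : 0 ≤ C)
    (h : ∀ n, ‖f n‖ ≤ C) : ‖f‖ ≤ C := by
  rw [← ZeroAtInftyContinuousMap.norm_toBCF_eq_norm, BoundedContinuousFunction.norm_le hC]
  exact h

theorem le_norm_11354 {E : Type*} [NormedAddCommGroup E] (f : C₀(ℕ, E)) (n : ℕ) :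
    ‖f n‖ ≤ ‖f‖ := by
  rw [← ZeroAtInftyContinuousMap.norm_toBCF_eq_norm]
  exact f.toBCF.norm_coe_le_norm n

theorem fin_11354 {E : Type*} [NormedAddCommGroup E] (f : C₀(ℕ, E)) {ε : ℝ} (hε : 0 < ε) :
    {n | ε ≤ ‖f n‖}.Finite := by
  have h1 := f.zero_at_infty'
  rw [Filter.cocompact_eq_cofinite] at h1
  have h2 : ∀ᶠ n in Filter.cofinite, ‖f n‖ < ε := by
    have h3 := (tendsto_zero_iff_norm_tendsto_zero.mp h1).eventually (gt_mem_nhds hε)
    exact h3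
  rw [Filter.eventually_cofinite] at h2
  refine h2.subset ?_
  intro n hn
  exact not_lt.mpr hn

theorem tend_11354 {E : Type*} [NormedAddCommGroup E] (f : ℕ → E)
    (h : ∀ ε : ℝ, 0 < ε → {n | ε ≤ ‖f n‖}.Finite) :
    Tendsto f (Filter.cocompact ℕ) (𝓝 0) := by
  rw [Filter.cocompact_eq_cofinite, tendsto_zero_iff_norm_tendsto_zero, Metric.tendsto_nhds]
  intro ε hε
  rw [Filter.eventually_cofinite]
  refine (h ε hε).subset ?_
  intro n hn
  have h1 : ¬ (dist ‖f n‖ 0 < ε) := hn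
  rw [Real.dist_eq, sub_zero, abs_of_nonneg (norm_nonneg _)] at h1
  exact not_lt.mp h1

/-- `C₀` function from a function with finite superlevel sets -/
def mk_11354 {E : Type*} [NormedAddCommGroup E] (f : ℕ → E)
    (h : ∀ ε : ℝ, 0 < ε → {n | ε ≤ ‖f n‖}.Finite) : C₀(ℕ, E) :=
  ⟨⟨f, continuous_of_discreteTopology⟩, tend_11354 f h⟩

theorem mk_apply_11354 {E : Type*} [NormedAddCommGroup E] (f : ℕ → E)
    (h : ∀ ε : ℝ, 0 < ε → {n | ε ≤ ‖f n‖}.Finite) (n : ℕ) : mk_11354 f h n = f n := rfl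

theorem fwd_11354 {A : Type} [NormedAddCommGroup A] (f : C₀(ℕ, C₀(ℕ, A))) (ε : ℝ) (hε : 0 < ε) :
    {k | ε ≤ ‖f (Nat.unpair k).1 (Nat.unpair k).2‖}.Finite := by
  have h1 : {k | ε ≤ ‖f (Nat.unpair k).1 (Nat.unpair k).2‖} ⊆
      ⋃ m ∈ {m | ε ≤ ‖f m‖}, (Nat.pair m) '' {n | ε ≤ ‖f m n‖} := by
    intro k hk
    have hk' : ε ≤ ‖f (Nat.unpair k).1 (Nat.unpair k).2‖ := hk
    rw [Set.mem_iUnion₂]
    exact ⟨(Nat.unpair k).1, hk'.trans (le_norm_11354 _ _), (Nat.unpair k).2, hk', Nat.pair_unpair k⟩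
  exact ((fin_11354 f hε).biUnion fun m _ => (fin_11354 (f m) hε).image _).subset h1

theorem bwd_11354 {A : Type} [NormedAddCommGroup A] (g : C₀(ℕ, A)) (m : ℕ) (ε : ℝ) (hε : 0 < ε) :
    {n | ε ≤ ‖g (Nat.pair m n)‖}.Finite := by
  have h1 : {n | ε ≤ ‖g (Nat.pair m n)‖} = (Nat.pair m) ⁻¹' {k | ε ≤ ‖g k‖} := rfl
  rw [h1]
  apply (fin_11354 g hε).preimage
  intro a _ b _ hab
  exact (Nat.pair_eq_pair.mp hab).2

theorem bwd2_11354 {A : Type} [NormedAddCommGroup A] (g : C₀(ℕ, A)) (ε : ℝ) (hε : 0 < ε) :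
    {m | ε ≤ ‖mk_11354 (fun n => g (Nat.pair m n)) (bwd_11354 g m)‖}.Finite := by
  refine ((fin_11354 g (half_pos hε)).image fun k => (Nat.unpair k).1).subset ?_
  intro m hm
  have hm' : ε ≤ ‖mk_11354 (fun n => g (Nat.pair m n)) (bwd_11354 g m)‖ := hm
  by_contra hcon
  have h1 : ‖mk_11354 (fun n => g (Nat.pair m n)) (bwd_11354 g m)‖ ≤ ε / 2 := by
    apply norm_le_11354 _ (half_pos hε).le
    intro n
    rw [mk_apply_11354]
    by_contra h2
    apply hcon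
    refine ⟨Nat.pair m n, (not_le.mp h2).le, ?_⟩
    show (Nat.unpair (Nat.pair m n)).1 = m
    rw [Nat.unpair_pair]
  linarith

/-- the linear equivalence -/
noncomputable def eqv_11354 {A : Type} [NormedAddCommGroup A] [NormedSpace ℂ A] :
    C₀(ℕ, C₀(ℕ, A)) ≃ₗ[ℂ] C₀(ℕ, A) where
  toFun f := mk_11354 (fun k => f (Nat.unpair k).1 (Nat.unpair k).2) (fwd_11354 f)
  invFun g := mk_11354 (fun m => mk_11354 (fun n => g (Nat.pair m n)) (bwd_11354 g m))
    (bwd2_11354 g)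
  map_add' f g := by
    apply DFunLike.ext
    intro k
    rfl
  map_smul' c f := by
    apply DFunLike.ext
    intro k
    rfl
  left_inv f := by
    apply DFunLike.ext
    intro m
    apply DFunLike.ext
    intro n
    rw [mk_apply_11354, mk_apply_11354, mk_apply_11354, Nat.unpair_pair]
  right_inv g := by
    apply DFunLike.ext
    intro k
    rw [mk_apply_11354, mk_apply_11354, mk_apply_11354, Nat.pair_unpair]

theorem nrm1_11354 {A : Type} [NormedAddCommGroup A] [NormedSpace ℂ A] (f : C₀(ℕ, C₀(ℕ, A))) :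
    ‖eqv_11354 f‖ ≤ 1 * ‖f‖ := by
  rw [one_mul]
  apply norm_le_11354 _ (norm_nonneg _)
  intro k
  have h1 : eqv_11354 f k = f (Nat.unpair k).1 (Nat.unpair k).2 := rfl
  rw [h1]
  exact (le_norm_11354 _ _).trans (le_norm_11354 f _)

theorem nrm2_11354 {A : Type} [NormedAddCommGroup A] [NormedSpace ℂ A] (g : C₀(ℕ, A)) :
    ‖eqv_11354.symm g‖ ≤ 1 * ‖g‖ := by
  rw [one_mul]
  apply norm_le_11354 _ (norm_nonneg _)
  intro m
  apply norm_le_11354 _ (norm_nonneg _)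
  intro n
  have h1 : eqv_11354.symm g m n = g (Nat.pair m n) := rfl
  rw [h1]
  exact le_norm_11354 g _

theorem c0_double {A : Type} [NormedAddCommGroup A] [NormedSpace ℂ A] :
    Nonempty (C₀(ℕ, C₀(ℕ, A)) ≃L[ℂ] C₀(ℕ, A)) := by
  exact ⟨LinearEquiv.toContinuousLinearEquivOfBounds (eqv_11354 (A := A)) 1 1 nrm1_11354
    nrm2_11354⟩

end Pool.Agent.Helper621.DAP
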