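import Mathlib

set_option autoImplicit false

open Complex Metric Set Filter Topology Classical ZeroAtInfty

namespace Pool.Agent.Helper621.DAP
theorem c0_prod_norm_le {A : Type} [NormedAddCommGroup A] (f : C₀(ℕ, A)) {M : ℝ} (hM : 0 ≤ M)
    (h : ∀ n, ‖f n‖ ≤ M) : ‖f‖ ≤ M := by
  rw [← ZeroAtInftyContinuousMap.norm_toBCF_eq_norm, BoundedContinuousFunction.norm_le hM]
  exact h

theorem c0_prod_le_norm {A : Type} [NormedAddCommGroup A] (f : C₀(ℕ, A)) (n : ℕ) :
    ‖f n‖ ≤ ‖f‖ := by
  rw [← ZeroAtInftyContinuousMap.norm_toBCF_eq_norm]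
  exact f.toBCF.norm_coe_le_norm n

/-- first component -/
def c0_prod_fst {A B : Type} [NormedAddCommGroup A] [NormedAddCommGroup B]
    (f : C₀(ℕ, A × B)) : C₀(ℕ, A) where
  toFun n := (f n).1
  continuous_toFun := continuous_of_discreteTopology
  zero_at_infty' := by
    have h := f.zero_at_infty'
    have h2 := (continuous_fst.tendsto (0 : A × B)).comp h
    exact h2

/-- second component -/
def c0_prod_snd {A B : Type} [NormedAddCommGroup A] [NormedAddCommGroup B]
    (f : C₀(ℕ, A × B)) : C₀(ℕ, B) where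
  toFun n := (f n).2
  continuous_toFun := continuous_of_discreteTopology
  zero_at_infty' := by
    have h := f.zero_at_infty'
    have h2 := (continuous_snd.tendsto (0 : A × B)).comp h
    exact h2

/-- the pair -/
def c0_prod_mk {A B : Type} [NormedAddCommGroup A] [NormedAddCommGroup B]
    (f : C₀(ℕ, A)) (g : C₀(ℕ, B)) : C₀(ℕ, A × B) where
  toFun n := (f n, g n)
  continuous_toFun := continuous_of_discreteTopology
  zero_at_infty' := by
    have h := f.zero_at_infty'.prodMk_nhds g.zero_at_infty'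
    exact h

theorem c0_prod {A B : Type} [NormedAddCommGroup A] [NormedSpace ℂ A] [NormedAddCommGroup B]
    [NormedSpace ℂ B] : Nonempty (C₀(ℕ, A × B) ≃L[ℂ] C₀(ℕ, A) × C₀(ℕ, B)) := by
  let e : C₀(ℕ, A × B) ≃ₗ[ℂ] C₀(ℕ, A) × C₀(ℕ, B) :=
    { toFun := fun f => (c0_prod_fst f, c0_prod_snd f)
      map_add' := fun f g => rfl
      map_smul' := fun c f => rfl
      invFun := fun p => c0_prod_mk p.1 p.2
      left_inv := fun f => by ext n <;> rfl
      right_inv := fun p => by
        refine Prod.ext ?_ ?_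
        · ext n; rfl
        · ext n; rfl }
  refine ⟨e.toContinuousLinearEquivOfBounds 1 1 (fun f => ?_) (fun p => ?_)⟩
  · rw [one_mul]
    refine max_le ?_ ?_
    · refine c0_prod_norm_le _ (norm_nonneg _) fun n => ?_
      exact (norm_fst_le (f n)).trans (c0_prod_le_norm f n)
    · refine c0_prod_norm_le _ (norm_nonneg _) fun n => ?_
      exact (norm_snd_le (f n)).trans (c0_prod_le_norm f n)
  · rw [one_mul]
    refine c0_prod_norm_le _ (norm_nonneg _) fun n => ?_
    refine max_le ?_ ?_
    · exact (c0_prod_le_norm p.1 n).trans (norm_fst_le p)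
    · exact (c0_prod_le_norm p.2 n).trans (norm_snd_le p)

end Pool.Agent.Helper621.DAP
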