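import Mathlib

set_option autoImplicit false

open Complex Metric Set Filter Topology Classical ZeroAtInfty

namespace Pool.Agent.Helper621.DAP


theorem c0_shift_tendsto {A : Type} [NormedAddCommGroup A] (g : ℕ → A) :
    Tendsto g (cocompact ℕ) (𝓝 0) ↔ Tendsto g atTop (𝓝 0) := by
  rw [cocompact_eq_cofinite, Nat.cofinite_eq_atTop]

/-- the tail -/
def c0_shift_tail {A : Type} [NormedAddCommGroup A] (f : C₀(ℕ, A)) : C₀(ℕ, A) :=
  ⟨⟨fun n => f (n + 1), continuous_of_discreteTopology⟩, by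
    rw [c0_shift_tendsto]
    exact ((c0_shift_tendsto _).1 f.zero_at_infty').comp (tendsto_add_atTop_nat 1)⟩

/-- the inverse operation -/
def c0_shift_cons {A : Type} [NormedAddCommGroup A] (p : A × C₀(ℕ, A)) : C₀(ℕ, A) :=
  ⟨⟨fun n => Nat.casesOn n p.1 (fun n => p.2 n), continuous_of_discreteTopology⟩, by
    rw [c0_shift_tendsto]
    exact (tendsto_add_atTop_iff_nat 1).1 ((c0_shift_tendsto _).1 p.2.zero_at_infty')⟩

theorem c0_shift_norm_le {A : Type} [NormedAddCommGroup A] (f : C₀(ℕ, A)) {C : ℝ} (hC : 0 ≤ C)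
    (h : ∀ n, ‖f n‖ ≤ C) : ‖f‖ ≤ C := by
  rw [← ZeroAtInftyContinuousMap.norm_toBCF_eq_norm]
  exact (BoundedContinuousFunction.norm_le hC).2 h

theorem c0_shift_le_norm {A : Type} [NormedAddCommGroup A] (f : C₀(ℕ, A)) (n : ℕ) :
    ‖f n‖ ≤ ‖f‖ := by
  rw [← ZeroAtInftyContinuousMap.norm_toBCF_eq_norm]
  exact f.toBCF.norm_coe_le_norm n

theorem c0_shift {A : Type} [NormedAddCommGroup A] [NormedSpace ℂ A] :
    Nonempty (C₀(ℕ, A) ≃L[ℂ] A × C₀(ℕ, A)) := by
  let L : C₀(ℕ, A) ≃ₗ[ℂ] A × C₀(ℕ, A) :=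
    { toFun := fun f => (f 0, c0_shift_tail f)
      invFun := c0_shift_cons
      map_add' := fun f g => rfl
      map_smul' := fun c f => rfl
      left_inv := by
        intro f
        ext n
        cases n <;> rfl
      right_inv := by
        rintro ⟨a, f⟩
        refine Prod.ext rfl ?_
        ext n
        rfl }
  refine ⟨⟨L, ?_, ?_⟩⟩
  · refine AddMonoidHomClass.continuous_of_bound L 1 (fun f => ?_)
    rw [one_mul]
    refine max_le (c0_shift_le_norm f 0) ?_
    exact c0_shift_norm_le _ (norm_nonneg _) (fun n => c0_shift_le_norm f (n + 1))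
  · refine AddMonoidHomClass.continuous_of_bound L.symm 1 (fun p => ?_)
    rw [one_mul]
    refine c0_shift_norm_le _ (norm_nonneg _) (fun n => ?_)
    cases n with
    | zero => exact le_max_left _ _
    | succ n => exact (c0_shift_le_norm p.2 n).trans (le_max_right _ _)

end Pool.Agent.Helper621.DAP
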