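import Mathlib

set_option autoImplicit false

open Complex Metric Set Filter Topology Classical ZeroAtInfty

namespace Pool.Agent.Helper621.DAP


theorem c0_split_tend {A : Type} [NormedAddCommGroup A] (f : C₀(ℕ, A)) {e : ℕ → ℕ}
    (he : Function.Injective e) : Tendsto (fun n => f (e n)) (cocompact ℕ) (𝓝 0) := by
  have h1 : Tendsto e (cocompact ℕ) (cocompact ℕ) := by
    rw [cocompact_eq_cofinite]
    exact he.tendsto_cofinite
  exact (zero_at_infty f).comp h1

theorem c0_split_norm_le {A : Type} [NormedAddCommGroup A] (f : C₀(ℕ, A)) {C : ℝ} (hC : 0 ≤ C) :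
    ‖f‖ ≤ C ↔ ∀ n, ‖f n‖ ≤ C := by
  rw [← ZeroAtInftyContinuousMap.norm_toBCF_eq_norm, BoundedContinuousFunction.norm_le hC]
  rfl

theorem c0_split_norm_coe {A : Type} [NormedAddCommGroup A] (f : C₀(ℕ, A)) (n : ℕ) :
    ‖f n‖ ≤ ‖f‖ := (c0_split_norm_le f (norm_nonneg _)).1 le_rfl n

theorem c0_split_tend2 {A : Type} [NormedAddCommGroup A] (f g : C₀(ℕ, A)) :
    Tendsto (fun n => if n % 2 = 0 then f (n / 2) else g (n / 2)) (cocompact ℕ) (𝓝 0) := by
  have hd : Tendsto (fun n : ℕ => n / 2) atTop atTop := by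
    refine tendsto_atTop.2 fun b => ?_
    filter_upwards [eventually_ge_atTop (2 * b)] with n hn
    omega
  have hf : Tendsto (fun n => f n) atTop (𝓝 0) := by
    have := zero_at_infty f
    rwa [cocompact_eq_cofinite, Nat.cofinite_eq_atTop] at this
  have hg : Tendsto (fun n => g n) atTop (𝓝 0) := by
    have := zero_at_infty g
    rwa [cocompact_eq_cofinite, Nat.cofinite_eq_atTop] at this
  rw [cocompact_eq_cofinite, Nat.cofinite_eq_atTop]
  have h1 := hf.comp hd
  have h2 := hg.comp hd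
  exact (h1.mono_left inf_le_left).if (h2.mono_left inf_le_left)

noncomputable def c0_split_lin (A : Type) [NormedAddCommGroup A] [NormedSpace ℂ A] :
    C₀(ℕ, A) ≃ₗ[ℂ] C₀(ℕ, A) × C₀(ℕ, A) where
  toFun f := (⟨⟨fun n => f (2 * n), continuous_of_discreteTopology⟩,
      c0_split_tend f (fun a b h => by simpa using h)⟩,
    ⟨⟨fun n => f (2 * n + 1), continuous_of_discreteTopology⟩,
      c0_split_tend f (fun a b h => by simpa using h)⟩)
  invFun p := ⟨⟨fun n => if n % 2 = 0 then p.1 (n / 2) else p.2 (n / 2),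
    continuous_of_discreteTopology⟩, c0_split_tend2 p.1 p.2⟩
  map_add' f g := rfl
  map_smul' c f := rfl
  left_inv f := by
    ext n
    show (if n % 2 = 0 then f (2 * (n / 2)) else f (2 * (n / 2) + 1)) = f n
    split_ifs with h
    · congr 1; omega
    · congr 1; omega
  right_inv p := by
    refine Prod.ext ?_ ?_
    · ext n
      show (if (2 * n) % 2 = 0 then p.1 ((2 * n) / 2) else p.2 ((2 * n) / 2)) = p.1 n
      rw [if_pos (by omega)]
      congr 1; omega
    · ext n
      show (if (2 * n + 1) % 2 = 0 then p.1 ((2 * n + 1) / 2) else p.2 ((2 * n + 1) / 2)) = p.2 n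
      rw [if_neg (by omega)]
      congr 1; omega

theorem c0_split {A : Type} [NormedAddCommGroup A] [NormedSpace ℂ A] :
    Nonempty (C₀(ℕ, A) ≃L[ℂ] C₀(ℕ, A) × C₀(ℕ, A)) := by
  refine ⟨(c0_split_lin A).toContinuousLinearEquivOfBounds 1 1 ?_ ?_⟩
  · intro f
    rw [one_mul, Prod.norm_def]
    refine max_le ?_ ?_
    · rw [c0_split_norm_le _ (norm_nonneg _)]
      exact fun n => c0_split_norm_coe f _
    · rw [c0_split_norm_le _ (norm_nonneg _)]
      exact fun n => c0_split_norm_coe f _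
  · intro p
    rw [one_mul, c0_split_norm_le _ (norm_nonneg _)]
    intro n
    show ‖(if n % 2 = 0 then p.1 (n / 2) else p.2 (n / 2))‖ ≤ ‖p‖
    split_ifs with h
    · exact (c0_split_norm_coe p.1 _).trans (norm_fst_le p)
    · exact (c0_split_norm_coe p.2 _).trans (norm_snd_le p)

end Pool.Agent.Helper621.DAP
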