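import Pool.Agent.Helper621.DAP.Defs
import Pool.Agent.Helper621.DAP.P_peak
import Pool.Agent.Helper621.DAP.P_peak_small

set_option autoImplicit false

open Complex Metric Set Filter Topology Classical ZeroAtInfty

namespace Pool.Agent.Helper621.DAP


/-- gliding hump: a functional on the disc algebra is asymptotically a multiple of the point
evaluation at `s` on functions concentrated near `s` -/
theorem hump (τ : DA →L[ℂ] ℂ) {s : ℂ} (hs : ‖s‖ = 1) {ε : ℝ} (hε : 0 < ε) :
    ∃ N : ℕ, ∀ n ≥ N, ∀ g : DA, ‖g‖ ≤ 1 →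
      ‖τ (mulL (mk _ (peak_isDA s n)) (g - (ev g s) • one))‖ ≤ ε := by
  by_contra hcon
  push Not at hcon
  have hsm : s ∈ closedBall (0:ℂ) 1 := by
    rw [mem_closedBall_zero_iff]; exact hs.le
  have claim : ∀ η > 0, ∀ k : ℕ, ∃ v : DA, ev v s = 0 ∧
      (∀ z ∈ closedBall (0:ℂ) 1, ‖ev v z‖ ≤ 2 + k * η) ∧ k * ε ≤ (τ v).re := by
    intro η hη k
    induction k with
    | zero => exact ⟨0, ev_zero s, fun z _ => by rw [ev_zero]; simp, by simp⟩
    | succ k ih =>
      obtain ⟨v, hv0, hvb, hvt⟩ := ih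
      have hcv : ContinuousWithinAt (ev v) (closedBall (0:ℂ) 1) s := (ev_isDA v).1 s hsm
      obtain ⟨r, hr, hr'⟩ := Metric.continuousWithinAt_iff.1 hcv η hη
      obtain ⟨N, hN⟩ := peak_small hs hr (half_pos hη)
      obtain ⟨n, hn, g, hg, hbig⟩ := hcon N
      set u := mulL (mk _ (peak_isDA s n)) (g - (ev g s) • one) with hu
      have hevu : ∀ z ∈ closedBall (0:ℂ) 1,
          ev u z = ((1 + (starRingEnd ℂ) s * z) / 2) ^ n * (ev g z - ev g s) := by
        intro z hz
        rw [hu, ev_mulL _ _ z hz, ev_mk _ _ z hz, ev_sub, ev_smul, ev_one z hz, mul_one]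
      have hp1 : ∀ z ∈ closedBall (0:ℂ) 1, ‖((1 + (starRingEnd ℂ) s * z) / 2) ^ n‖ ≤ 1 := by
        intro z hz
        rw [mem_closedBall_zero_iff] at hz
        rw [norm_pow]
        apply pow_le_one₀ (norm_nonneg _)
        rw [norm_div]
        have h1 : ‖1 + (starRingEnd ℂ) s * z‖ ≤ 1 + 1 := by
          refine (norm_add_le _ _).trans ?_
          rw [norm_one, norm_mul, RCLike.norm_conj, hs, one_mul]
          linarith
        have h2 : ‖(2:ℂ)‖ = 2 := by simp
        rw [h2, div_le_one (by norm_num)]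
        linarith
      have hg2 : ∀ z : ℂ, ‖ev g z - ev g s‖ ≤ 2 := by
        intro z
        have h1 := (norm_ev_le g z).trans hg
        have h2 := (norm_ev_le g s).trans hg
        exact (norm_sub_le _ _).trans (by linarith)
      obtain ⟨c, hc1, hc2⟩ : ∃ c : ℂ, ‖c‖ = 1 ∧ c * τ u = ‖τ u‖ := by
        refine ⟨(starRingEnd ℂ) (τ u) / ‖τ u‖, ?_, ?_⟩
        · have : (0:ℝ) < ‖τ u‖ := lt_trans hε hbig
          rw [norm_div, RCLike.norm_conj]
          simp only [norm_real, norm_norm]
          exact div_self this.ne'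
        · have : (‖τ u‖ : ℂ) ≠ 0 := by
            have : (0:ℝ) < ‖τ u‖ := lt_trans hε hbig
            exact_mod_cast this.ne'
          field_simp
          rw [mul_comm, mul_conj, normSq_eq_norm_sq]
          push_cast; ring
      refine ⟨v + c • u, ?_, ?_, ?_⟩
      · rw [ev_add, ev_smul, hv0, hevu s hsm, sub_self, mul_zero, mul_zero, add_zero]
      · intro z hz
        rw [ev_add, ev_smul]
        refine (norm_add_le _ _).trans ?_
        rw [norm_mul, hc1, one_mul, hevu z hz, norm_mul]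
        by_cases hzs : dist z s < r
        · have h1 := hr' hz hzs
          rw [hv0, dist_zero_right] at h1
          have h2 : ‖((1 + (starRingEnd ℂ) s * z) / 2) ^ n‖ * ‖ev g z - ev g s‖ ≤ 1 * 2 :=
            mul_le_mul (hp1 z hz) (hg2 z) (norm_nonneg _) zero_le_one
          have h3 : (0:ℝ) ≤ (k:ℝ) * η := by positivity
          push_cast
          nlinarith
        · have h0 : r ≤ ‖z - s‖ := by rw [← dist_eq_norm]; exact not_lt.1 hzs
          have h1 := hN n hn z hz h0
          have h2 : ‖((1 + (starRingEnd ℂ) s * z) / 2) ^ n‖ * ‖ev g z - ev g s‖ ≤ (η/2) * 2 :=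
            mul_le_mul h1 (hg2 z) (norm_nonneg _) (half_pos hη).le
          have h3 := hvb z hz
          push_cast
          nlinarith
      · rw [map_add, map_smul, smul_eq_mul, hc2, add_re, ofReal_re]
        push_cast
        linarith
  -- conclusion
  obtain ⟨k, hk⟩ := exists_nat_gt (3 * ‖τ‖ / ε)
  have hk0 : (0:ℝ) < k + 1 := by positivity
  obtain ⟨v, -, hvb, hvt⟩ := claim (1 / ((k:ℝ) + 1)) (by positivity) (k + 1)
  have hv3 : ‖v‖ ≤ 3 := by
    apply norm_le_of v (by norm_num)
    intro z hz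
    refine (hvb z hz).trans ?_
    push_cast
    rw [mul_one_div, div_self hk0.ne']
    norm_num
  have h1 : ((k + 1 : ℕ) : ℝ) * ε ≤ ‖τ‖ * 3 := by
    refine hvt.trans ((re_le_norm _).trans ((τ.le_opNorm v).trans ?_))
    exact mul_le_mul_of_nonneg_left hv3 (norm_nonneg _)
  rw [div_lt_iff₀ hε] at hk
  push_cast at h1
  nlinarith

end Pool.Agent.Helper621.DAP
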