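import Pool.Agent.Helper621.DAP.Defs
import Pool.Agent.Helper621.DAP.P_peak
import Pool.Agent.Helper621.DAP.P_peak_small
import Pool.Agent.Helper621.DAP.P_hump

set_option autoImplicit false

open Complex Metric Set Filter Topology Classical ZeroAtInfty

namespace Pool.Agent.Helper621.DAP


theorem pow_sub_le352 {a b : ℂ} (ha : ‖a‖ ≤ 1) (hb : ‖b‖ ≤ 1) (n : ℕ) :
    ‖a ^ n - b ^ n‖ ≤ n * ‖a - b‖ := by
  induction n with
  | zero => simp
  | succ n ih =>
    have e : a ^ (n + 1) - b ^ (n + 1) = a * (a ^ n - b ^ n) + (a - b) * b ^ n := by ring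
    rw [e]
    have h1 : ‖a * (a ^ n - b ^ n)‖ ≤ n * ‖a - b‖ := by
      rw [norm_mul]
      calc ‖a‖ * ‖a ^ n - b ^ n‖ ≤ 1 * (n * ‖a - b‖) :=
            mul_le_mul ha ih (norm_nonneg _) zero_le_one
        _ = n * ‖a - b‖ := one_mul _
    have h2 : ‖(a - b) * b ^ n‖ ≤ ‖a - b‖ := by
      rw [norm_mul, norm_pow]
      calc ‖a - b‖ * ‖b‖ ^ n ≤ ‖a - b‖ * 1 :=
            mul_le_mul_of_nonneg_left (pow_le_one₀ (norm_nonneg _) hb) (norm_nonneg _)
        _ = ‖a - b‖ := mul_one _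
    calc _ ≤ _ := norm_add_le _ _
      _ ≤ n * ‖a - b‖ + ‖a - b‖ := add_le_add h1 h2
      _ = ((n + 1 : ℕ) : ℝ) * ‖a - b‖ := by push_cast; ring

theorem half_norm352 {s z : ℂ} (hs : ‖s‖ = 1) (hz : ‖z‖ ≤ 1) :
    ‖(1 + (starRingEnd ℂ) s * z) / 2‖ ≤ 1 := by
  rw [norm_div]
  have h1 : ‖1 + (starRingEnd ℂ) s * z‖ ≤ 2 := by
    calc _ ≤ ‖(1 : ℂ)‖ + ‖(starRingEnd ℂ) s * z‖ := norm_add_le _ _
      _ ≤ 1 + 1 := by
        rw [norm_one, norm_mul, RCLike.norm_conj, hs, one_mul]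
        linarith
      _ = 2 := by norm_num
  have h2 : ‖(2 : ℂ)‖ = 2 := by norm_num
  rw [h2]
  linarith

theorem peak_norm352 {s : ℂ} (hs : ‖s‖ = 1) (n : ℕ) : ‖mk _ (peak_isDA s n)‖ ≤ 1 := by
  apply norm_le_of _ zero_le_one
  intro z hz
  rw [ev_mk _ _ z hz, norm_pow]
  exact pow_le_one₀ (norm_nonneg _) (half_norm352 hs (by simpa using hz))

theorem peak_lip352 {s t : ℂ} (hs : ‖s‖ = 1) (ht : ‖t‖ = 1) (n : ℕ) :
    ‖mk _ (peak_isDA s n) - mk _ (peak_isDA t n)‖ ≤ n * ‖s - t‖ := by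
  apply norm_le_of _ (by positivity)
  intro z hz
  have hz' : ‖z‖ ≤ 1 := by simpa using hz
  rw [ev_sub, ev_mk _ _ z hz, ev_mk _ _ z hz]
  refine (pow_sub_le352 (half_norm352 hs hz') (half_norm352 ht hz') n).trans ?_
  apply mul_le_mul_of_nonneg_left _ (Nat.cast_nonneg n)
  have e : (1 + (starRingEnd ℂ) s * z) / 2 - (1 + (starRingEnd ℂ) t * z) / 2 =
      (starRingEnd ℂ) (s - t) * (z / 2) := by
    rw [map_sub]; ring
  rw [e, norm_mul, RCLike.norm_conj, norm_div]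
  have h2 : ‖(2 : ℂ)‖ = 2 := by norm_num
  rw [h2]
  have h3 : ‖z‖ / 2 ≤ 1 := by linarith
  calc ‖s - t‖ * (‖z‖ / 2) ≤ ‖s - t‖ * 1 := mul_le_mul_of_nonneg_left h3 (norm_nonneg _)
    _ = ‖s - t‖ := mul_one _

theorem mulL_bilin352 : IsBoundedBilinearMap ℂ (fun p : DA × DA => mulL p.1 p.2) where
  add_left := by
    intro x y g
    apply ev_ext; intro z hz
    rw [ev_add, ev_mulL _ _ z hz, ev_mulL _ _ z hz, ev_mulL _ _ z hz, ev_add]; ring
  smul_left := by
    intro c x y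
    apply ev_ext; intro z hz
    rw [ev_smul, ev_mulL _ _ z hz, ev_mulL _ _ z hz, ev_smul]; ring
  add_right := by
    intro x y g
    exact map_add _ _ _
  smul_right := by
    intro c x y
    exact map_smul _ _ _
  bound := ⟨1, one_pos, fun x y => by
    rw [one_mul]; exact norm_mulL_le x y⟩

theorem cont_ev352 {X : Type*} [TopologicalSpace X] {F : X → DA} (hF : Continuous F)
    {x : X → ℂ} (hx : Continuous x) (hm : ∀ t, x t ∈ closedBall (0:ℂ) 1) :
    Continuous fun t => ev (F t) (x t) := by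
  have e : (fun t => ev (F t) (x t)) = fun t => (F t).1 ⟨x t, hm t⟩ := by
    funext t
    exact ev_eq _ _ (hm t)
  rw [e]
  exact (continuous_subtype_val.comp hF).eval (hx.subtype_mk hm)

theorem peak_cont352 (n : ℕ) :
    Continuous fun s : sphere (0:ℂ) 1 => mk _ (peak_isDA (s : ℂ) n) := by
  have hL : LipschitzWith (n : NNReal) (fun s : sphere (0:ℂ) 1 => mk _ (peak_isDA (s : ℂ) n)) := by
    apply LipschitzWith.of_dist_le_mul
    intro s t
    rw [dist_eq_norm, Subtype.dist_eq, dist_eq_norm]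
    have := peak_lip352 (mem_sphere_zero_iff_norm.1 s.2) (mem_sphere_zero_iff_norm.1 t.2) n
    rw [NNReal.coe_natCast]
    exact this
  exact hL.continuous

theorem diag (T : DA →L[ℂ] DA) {ε : ℝ} (hε : 0 < ε) :
    ∃ (s : ℂ) (δ : ℝ) (h : DA) (d : ℂ), ‖s‖ = 1 ∧ 0 < δ ∧ ‖h‖ ≤ 1 ∧
      (∀ z : ℂ, ‖z‖ = 1 → ‖z - s‖ < δ → ‖ev h z - 1‖ ≤ ε) ∧
      (∀ g : DA, ∀ z : ℂ, ‖z‖ = 1 → ‖z - s‖ < δ →
        ‖ev (T (mulL h g)) z - d * ev g z‖ ≤ ε * ‖g‖) := by
  set C : ℕ → Set (sphere (0:ℂ) 1) := fun N => {s | ∀ n ≥ N, ∀ g : DA, ‖g‖ ≤ 1 →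
    ‖ev (T (mulL (mk _ (peak_isDA (s : ℂ) n)) (g - (ev g (s : ℂ)) • one))) (s : ℂ)‖ ≤ ε / 4}
    with hC
  have hmem : ∀ s : sphere (0:ℂ) 1, (s : ℂ) ∈ closedBall (0:ℂ) 1 := fun s =>
    sphere_subset_closedBall s.2
  have hcl : ∀ N, IsClosed (C N) := by
    intro N
    have e : C N = ⋂ n : ℕ, ⋂ _ : n ≥ N, ⋂ g : DA, ⋂ _ : ‖g‖ ≤ 1, {s : sphere (0:ℂ) 1 |
      ‖ev (T (mulL (mk _ (peak_isDA (s : ℂ) n)) (g - (ev g (s : ℂ)) • one))) (s : ℂ)‖ ≤
        ε / 4} := by
      ext s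
      simp only [hC, Set.mem_setOf_eq, Set.mem_iInter]
    rw [e]
    refine isClosed_iInter fun n => isClosed_iInter fun _ => isClosed_iInter fun g =>
      isClosed_iInter fun _ => isClosed_le (Continuous.norm ?_) continuous_const
    refine cont_ev352 ?_ continuous_subtype_val hmem
    refine T.continuous.comp ?_
    have h1 : Continuous fun s : sphere (0:ℂ) 1 => g - (ev g (s : ℂ)) • one := by
      refine continuous_const.sub ?_
      exact (cont_ev352 (continuous_const (y := g)) continuous_subtype_val hmem).smul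
        continuous_const
    exact mulL_bilin352.continuous.comp ((peak_cont352 n).prodMk h1)
  have hU : ⋃ N, C N = Set.univ := by
    rw [Set.eq_univ_iff_forall]
    intro s
    have hs : ‖(s : ℂ)‖ = 1 := by simp
    let τ : DA →L[ℂ] ℂ := LinearMap.mkContinuous
      { toFun := fun F => ev (T F) (s : ℂ)
        map_add' := by
          intro x y
          rw [map_add, ev_add]
        map_smul' := by
          intro c x
          rw [map_smul, ev_smul, RingHom.id_apply, smul_eq_mul] }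
      ‖T‖ (by
        intro x
        simp only [LinearMap.coe_mk, AddHom.coe_mk]
        exact (norm_ev_le _ _).trans (T.le_opNorm x))
    obtain ⟨N, hN⟩ := hump τ hs (show (0 : ℝ) < ε / 4 by positivity)
    exact Set.mem_iUnion.2 ⟨N, fun n hn g hg => hN n hn g hg⟩
  have : Nonempty (sphere (0:ℂ) 1) := ⟨⟨1, by simp⟩⟩
  obtain ⟨N, hN⟩ := nonempty_interior_of_iUnion_of_closed hcl hU
  obtain ⟨s0, hs0⟩ := hN
  rw [mem_interior_iff_mem_nhds, Metric.mem_nhds_iff] at hs0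
  obtain ⟨δ0, hδ0, hball⟩ := hs0
  have hs0n : ‖(s0 : ℂ)‖ = 1 := by simp
  set h : DA := mk _ (peak_isDA (s0 : ℂ) N) with hh
  have hc := (ev_isDA (T h)).1
  rw [Metric.continuousOn_iff] at hc
  obtain ⟨δ1, hδ1, hd1⟩ := hc (s0 : ℂ) (hmem s0) (ε / 4) (by positivity)
  have hTp : (0 : ℝ) < ‖T‖ + 1 := by positivity
  have hNp : (0 : ℝ) < (N : ℝ) + 1 := by positivity
  refine ⟨s0, min (min δ0 δ1) (ε / (4 * (N + 1) * (‖T‖ + 1))), h, ev (T h) s0, hs0n, ?_,
    peak_norm352 hs0n N, ?_, ?_⟩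
  · exact lt_min (lt_min hδ0 hδ1) (by positivity)
  · intro z hz hzs
    have hz2 : ‖z - s0‖ < ε / (4 * (N + 1) * (‖T‖ + 1)) := hzs.trans_le (min_le_right _ _)
    have hzm : z ∈ closedBall (0:ℂ) 1 := by simp [hz]
    rw [hh, ev_mk _ _ z hzm]
    have h1 := pow_sub_le352 (half_norm352 hs0n hz.le) (show ‖(1 : ℂ)‖ ≤ 1 by simp) N
    rw [one_pow] at h1
    refine h1.trans ?_
    have e : (1 + (starRingEnd ℂ) (s0 : ℂ) * z) / 2 - 1 =
        (starRingEnd ℂ) (s0 : ℂ) * (z - s0) / 2 := by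
      have h2 : (starRingEnd ℂ) (s0 : ℂ) * s0 = 1 := by
        rw [mul_comm, Complex.mul_conj, Complex.normSq_eq_norm_sq, hs0n]; simp
      rw [mul_sub, h2]; ring
    rw [e, norm_div, norm_mul, RCLike.norm_conj, hs0n, one_mul]
    have h2' : ‖(2 : ℂ)‖ = 2 := by norm_num
    rw [h2']
    rw [lt_div_iff₀ (by positivity)] at hz2
    have h3 : ‖z - s0‖ * (4 * (N + 1)) ≤ ‖z - s0‖ * (4 * (N + 1) * (‖T‖ + 1)) := by
      apply mul_le_mul_of_nonneg_left _ (norm_nonneg _)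
      nlinarith [norm_nonneg T]
    nlinarith [norm_nonneg (z - s0 : ℂ)]
  · have key : ∀ g : DA, ‖g‖ ≤ 1 → ∀ z : ℂ, ‖z‖ = 1 →
        ‖z - s0‖ < min (min δ0 δ1) (ε / (4 * (N + 1) * (‖T‖ + 1))) →
        ‖ev (T (mulL h g)) z - ev (T h) s0 * ev g z‖ ≤ ε := by
      intro g hg z hz hzs
      have hz0 : ‖z - s0‖ < δ0 := hzs.trans_le ((min_le_left _ _).trans (min_le_left _ _))
      have hz1 : ‖z - s0‖ < δ1 := hzs.trans_le ((min_le_left _ _).trans (min_le_right _ _))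
      have hz2 : ‖z - s0‖ < ε / (4 * (N + 1) * (‖T‖ + 1)) := hzs.trans_le (min_le_right _ _)
      have hzm : z ∈ closedBall (0:ℂ) 1 := by simp [hz]
      set zz : sphere (0:ℂ) 1 := ⟨z, by simp [hz]⟩ with hzz
      have hzC : zz ∈ C N := by
        apply hball
        rw [Metric.mem_ball, Subtype.dist_eq, dist_eq_norm]
        exact hz0
      have hA := hzC N le_rfl g hg
      set p : DA := mk _ (peak_isDA z N) with hp
      have hA' : ‖ev (T (mulL p (g - (ev g z) • one))) z‖ ≤ ε / 4 := hA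
      have hlip : ‖h - p‖ ≤ N * ‖z - s0‖ := by
        have := peak_lip352 hs0n hz N
        rwa [norm_sub_rev (s0 : ℂ) z] at this
      have hT1 : ‖T‖ * (N * ‖z - s0‖) ≤ ε / 4 := by
        rw [lt_div_iff₀ (by positivity)] at hz2
        have h3 : ‖T‖ * (N * ‖z - s0‖) ≤ (‖T‖ + 1) * ((N + 1) * ‖z - s0‖) := by
          apply mul_le_mul (by linarith) _ (by positivity) (by positivity)
          apply mul_le_mul_of_nonneg_right (by linarith) (norm_nonneg _)
        nlinarith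
      have hB : ‖ev (T (mulL (h - p) g)) z‖ ≤ ε / 4 := by
        refine (norm_ev_le _ _).trans ((T.le_opNorm _).trans ?_)
        refine le_trans (mul_le_mul_of_nonneg_left ?_ (norm_nonneg _)) hT1
        refine (norm_mulL_le _ _).trans ?_
        calc ‖h - p‖ * ‖g‖ ≤ ‖h - p‖ * 1 := mul_le_mul_of_nonneg_left hg (norm_nonneg _)
          _ = ‖h - p‖ := mul_one _
          _ ≤ _ := hlip
      have hD : ‖ev (T (p - h)) z‖ ≤ ε / 4 := by
        refine (norm_ev_le _ _).trans ((T.le_opNorm _).trans ?_)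
        refine le_trans (mul_le_mul_of_nonneg_left ?_ (norm_nonneg _)) hT1
        rw [norm_sub_rev]
        exact hlip
      have hE : ‖ev (T h) z - ev (T h) s0‖ ≤ ε / 4 := by
        have := hd1 z hzm (by rw [dist_eq_norm]; exact hz1)
        rw [dist_eq_norm] at this
        exact this.le
      have hgz : ‖ev g z‖ ≤ 1 := (norm_ev_le _ _).trans hg
      have e1 : mulL h g = mulL (h - p) g + (mulL p (g - (ev g z) • one) + (ev g z) • p) := by
        apply ev_ext; intro w hw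
        rw [ev_add, ev_add, ev_smul, ev_mulL _ _ w hw, ev_mulL _ _ w hw, ev_mulL _ _ w hw,
          ev_sub, ev_sub, ev_smul, ev_one w hw]
        ring
      have e2 : ev (T (mulL h g)) z - ev (T h) s0 * ev g z =
          ev (T (mulL (h - p) g)) z + ev (T (mulL p (g - (ev g z) • one))) z +
            ev g z * (ev (T (p - h)) z + (ev (T h) z - ev (T h) s0)) := by
        rw [e1, map_add, map_add, ev_add, ev_add, map_smul, ev_smul, map_sub T p h, ev_sub]
        ring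
      rw [e2]
      have hF : ‖ev g z * (ev (T (p - h)) z + (ev (T h) z - ev (T h) s0))‖ ≤ ε / 4 + ε / 4 := by
        rw [norm_mul]
        calc _ ≤ 1 * ‖ev (T (p - h)) z + (ev (T h) z - ev (T h) s0)‖ :=
              mul_le_mul_of_nonneg_right hgz (norm_nonneg _)
          _ = ‖ev (T (p - h)) z + (ev (T h) z - ev (T h) s0)‖ := one_mul _
          _ ≤ _ := (norm_add_le _ _).trans (add_le_add hD hE)
      calc _ ≤ _ := norm_add_le _ _
        _ ≤ (ε / 4 + ε / 4) + (ε / 4 + ε / 4) :=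
            add_le_add ((norm_add_le _ _).trans (add_le_add hB hA')) hF
        _ = ε := by ring
    intro g z hz hzs
    rcases eq_or_ne g 0 with rfl | hg0
    · have e : mulL h (0 : DA) = 0 := map_zero _
      rw [e, map_zero, ev_zero, mul_zero, sub_zero, norm_zero, norm_zero, mul_zero]
    · have hgp : 0 < ‖g‖ := norm_pos_iff.2 hg0
      have hc0 : ((‖g‖ : ℝ) : ℂ) ≠ 0 := by exact_mod_cast hgp.ne'
      have h1 := key (((‖g‖ : ℝ) : ℂ)⁻¹ • g) (by
        rw [norm_smul, norm_inv, Complex.norm_real, norm_norm]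
        rw [inv_mul_cancel₀ hgp.ne']) z hz hzs
      have e : ev (T (mulL h g)) z - ev (T h) s0 * ev g z = ((‖g‖ : ℝ) : ℂ) *
          (ev (T (mulL h (((‖g‖ : ℝ) : ℂ)⁻¹ • g))) z -
            ev (T h) s0 * ev (((‖g‖ : ℝ) : ℂ)⁻¹ • g) z) := by
        rw [map_smul, map_smul, ev_smul, ev_smul]
        field_simp
      rw [e, norm_mul, Complex.norm_real, norm_norm, mul_comm]
      exact mul_le_mul_of_nonneg_right h1 hgp.le

end Pool.Agent.Helper621.DAP
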