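import Pool.Agent.Helper621.DAP.Defs
import Pool.Agent.Helper621.DAP.P_key
import Pool.Agent.Helper621.DAP.P_inv_of_near
import Pool.Agent.Helper621.DAP.P_isClosed_DA

set_option autoImplicit false

open Complex Metric Set Filter Topology Classical ZeroAtInfty

namespace Pool.Agent.Helper621.DAP


theorem fod_smul_le (c : ℂ) (F : DA) : ‖c • F‖ ≤ ‖c‖ * ‖F‖ := by
  apply norm_le_of _ (by positivity)
  intro z hz
  rw [ev_smul, norm_mul]
  gcongr
  exact norm_ev_le _ _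

theorem factor_of_diag (T : DA →L[ℂ] DA) : ∃ ε > 0, ∀ (s : ℂ) (δ : ℝ) (h : DA) (d : ℂ),
    ‖s‖ = 1 → 0 < δ → ‖h‖ ≤ 1 → 1 / 2 ≤ ‖d‖ →
      (∀ g : DA, ∀ z : ℂ, ‖z‖ = 1 → ‖z - s‖ < δ →
        ‖ev (T (mulL h g)) z - d * ev g z‖ ≤ ε * ‖g‖) →
    ∃ a b : DA →L[ℂ] DA, ∀ f, b (T (a f)) = f := by
  set M : ℝ := 2 * ‖T‖ + 2 with hM
  have hM0 : 0 < M := by positivity
  set m : ℝ := min 1 ((1 / (204 * M)) ^ 6) with hm
  have hm0 : 0 < m := by
    rw [hm]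
    exact lt_min one_pos (by positivity)
  have hm1 : m ≤ 1 := min_le_left _ _
  have hmr : m ^ (1 / 6 : ℝ) ≤ 1 / (204 * M) := by
    have h1 : m ^ (1 / 6 : ℝ) ≤ ((1 / (204 * M)) ^ 6) ^ (1 / 6 : ℝ) :=
      Real.rpow_le_rpow hm0.le (min_le_right _ _) (by norm_num)
    have h2 : ((1 / (204 * M)) ^ 6) ^ (1 / 6 : ℝ) = 1 / (204 * M) := by
      have h3 : (1 / 6 : ℝ) = (((6 : ℕ) : ℝ))⁻¹ := by norm_num
      rw [h3]
      exact Real.pow_rpow_inv_natCast (by positivity) (by norm_num)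
    rw [h2] at h1
    exact h1
  have hmm : 51 * M * m ^ (1 / 6 : ℝ) ≤ 1 / 4 := by
    calc 51 * M * m ^ (1 / 6 : ℝ) ≤ 51 * M * (1 / (204 * M)) := by gcongr
      _ = 1 / 4 := by field_simp; norm_num
  set ε : ℝ := min 1 (M * m) with hε
  have hε0 : 0 < ε := lt_min one_pos (by positivity)
  have hε1 : ε ≤ 1 := min_le_left _ _
  have hε2 : ε ≤ M * m := min_le_right _ _
  refine ⟨ε, hε0, ?_⟩
  intro s δ h d hs hδ hh hd H
  have hsmem : s ∈ closedBall (0:ℂ) 1 := by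
    rw [mem_closedBall_zero_iff, hs]
  have hone : ‖one‖ ≤ 1 := by
    apply norm_le_of _ zero_le_one
    intro z hz
    rw [ev_one z hz]; simp
  have hTop : ∀ g : DA, ‖T (mulL h g)‖ ≤ ‖T‖ * ‖g‖ := by
    intro g
    calc ‖T (mulL h g)‖ ≤ ‖T‖ * ‖mulL h g‖ := T.le_opNorm _
      _ ≤ ‖T‖ * (‖h‖ * ‖g‖) := by
          gcongr
          exact norm_mulL_le h g
      _ ≤ ‖T‖ * (1 * ‖g‖) := by gcongr
      _ = ‖T‖ * ‖g‖ := by ring
  have hdle : ‖d‖ ≤ ‖T‖ + 1 := by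
    have h1 := H one s hs (by simpa using hδ)
    rw [ev_one s hsmem, mul_one] at h1
    have h2 : ‖ev (T (mulL h one)) s‖ ≤ ‖T‖ := by
      calc ‖ev (T (mulL h one)) s‖ ≤ ‖T (mulL h one)‖ := norm_ev_le _ _
        _ ≤ ‖T‖ * ‖one‖ := hTop _
        _ ≤ ‖T‖ * 1 := by gcongr
        _ = ‖T‖ := mul_one _
    have h3 : ‖d‖ ≤ ‖ev (T (mulL h one)) s‖ + ‖ev (T (mulL h one)) s - d‖ := by
      have h4 : d = ev (T (mulL h one)) s - (ev (T (mulL h one)) s - d) := by ring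
      calc ‖d‖ = ‖ev (T (mulL h one)) s - (ev (T (mulL h one)) s - d)‖ := by rw [← h4]
        _ ≤ _ := norm_sub_le _ _
    have h5 : ε * ‖one‖ ≤ 1 := by
      calc ε * ‖one‖ ≤ 1 * 1 := by gcongr
        _ = 1 := by norm_num
    linarith
  have hd0 : d ≠ 0 := by
    intro h0
    rw [h0, norm_zero] at hd
    norm_num at hd
  obtain ⟨U, R, hRU, hU, -, -, hkey⟩ := key hs hδ
  have hest : ∀ f : DA, ‖R (T (mulL h (U f))) - d • f‖ ≤ ‖f‖ / 4 := by
    intro f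
    by_cases hf : f = 0
    · subst hf
      simp
    have hf0 : 0 < ‖f‖ := norm_pos_iff.2 hf
    have hG : ‖T (mulL h (U f)) - d • U f‖ ≤ M * ‖f‖ := by
      calc ‖T (mulL h (U f)) - d • U f‖ ≤ ‖T (mulL h (U f))‖ + ‖d • U f‖ := norm_sub_le _ _
        _ ≤ ‖T‖ * ‖U f‖ + ‖d‖ * ‖U f‖ := by
            gcongr
            · exact hTop _
            · exact fod_smul_le _ _
        _ ≤ ‖T‖ * ‖f‖ + (‖T‖ + 1) * ‖f‖ := by
            gcongr
            · exact hU f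
            · exact hU f
        _ ≤ M * ‖f‖ := by
            rw [hM]
            nlinarith
    have harc : ∀ z : ℂ, ‖z‖ = 1 → ‖z - s‖ < δ →
        ‖ev (T (mulL h (U f)) - d • U f) z‖ ≤ M * ‖f‖ * m := by
      intro z hz1 hz2
      rw [ev_sub, ev_smul]
      calc ‖ev (T (mulL h (U f))) z - d * ev (U f) z‖ ≤ ε * ‖U f‖ := H (U f) z hz1 hz2
        _ ≤ (M * m) * ‖f‖ := by
            gcongr
            exact hU f
        _ = M * ‖f‖ * m := by ring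
    have h1 := hkey (M * ‖f‖) m (by positivity) hm0 hm1 _ hG harc
    have h2 : R (T (mulL h (U f)) - d • U f) = R (T (mulL h (U f))) - d • f := by
      rw [map_sub, map_smul, hRU]
    rw [h2] at h1
    calc ‖R (T (mulL h (U f))) - d • f‖ ≤ 51 * (M * ‖f‖) * m ^ (1 / 6 : ℝ) := h1
      _ = (51 * M * m ^ (1 / 6 : ℝ)) * ‖f‖ := by ring
      _ ≤ (1 / 4) * ‖f‖ := by gcongr
      _ = ‖f‖ / 4 := by ring
  have : CompleteSpace DA := isClosed_DA.completeSpace_coe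
  have hdinv : ‖d⁻¹‖ ≤ 2 := by
    rw [norm_inv]
    rw [inv_le_comm₀ (by linarith) (by norm_num)]
    linarith
  obtain ⟨S', hS'⟩ := inv_of_near (X := DA) (d⁻¹ • (R.comp (T.comp ((mulL h).comp U)))) (by
    intro f
    have h1 : (d⁻¹ • (R.comp (T.comp ((mulL h).comp U)))) f - f =
        d⁻¹ • (R (T (mulL h (U f))) - d • f) := by
      rw [smul_sub, smul_smul, inv_mul_cancel₀ hd0, one_smul]
      rfl
    rw [h1]
    calc ‖d⁻¹ • (R (T (mulL h (U f))) - d • f)‖ ≤ ‖d⁻¹‖ * ‖R (T (mulL h (U f))) - d • f‖ :=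
          fod_smul_le _ _
      _ ≤ 2 * (‖f‖ / 4) := by
          gcongr
          exact hest f
      _ = 1 / 2 * ‖f‖ := by ring)
  refine ⟨(mulL h).comp U, S'.comp (d⁻¹ • R), ?_⟩
  intro f
  exact hS' f

end Pool.Agent.Helper621.DAP
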