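import Pool.Agent.Helper621.DAP.Defs
import Pool.Agent.Helper621.DAP.P_diag
import Pool.Agent.Helper621.DAP.P_factor_of_diag

set_option autoImplicit false

open Complex Metric Set Filter Topology Classical ZeroAtInfty

namespace Pool.Agent.Helper621.DAP


theorem factor (P : DA →L[ℂ] DA) : (∃ a b : DA →L[ℂ] DA, ∀ f, b (P (a f)) = f) ∨
    (∃ a b : DA →L[ℂ] DA, ∀ f, b (a f - P (a f)) = f) := by
  obtain ⟨ε1, hε1, H1⟩ := factor_of_diag P
  obtain ⟨ε2, hε2, H2⟩ := factor_of_diag (ContinuousLinearMap.id ℂ DA - P)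
  have hε : 0 < min ε1 ε2 / 2 := half_pos (lt_min hε1 hε2)
  have hle1 : min ε1 ε2 / 2 ≤ ε1 := by
    have := min_le_left ε1 ε2
    linarith
  have hle2 : 2 * (min ε1 ε2 / 2) ≤ ε2 := by
    have := min_le_right ε1 ε2
    linarith
  obtain ⟨s, δ, h, d, hs, hδ, hh, h1, h2⟩ := diag P hε
  by_cases hd : 1 / 2 ≤ ‖d‖
  · left
    exact H1 s δ h d hs hδ hh hd (fun g z hz hzs =>
      (h2 g z hz hzs).trans (mul_le_mul_of_nonneg_right hle1 (norm_nonneg g)))
  · right
    have hd2 : 1 / 2 ≤ ‖1 - d‖ := by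
      have := norm_sub_norm_le (1 : ℂ) d
      rw [norm_one] at this
      push Not at hd
      linarith
    obtain ⟨a, b, hab⟩ := H2 s δ h (1 - d) hs hδ hh hd2 (by
      intro g z hz hzs
      have hzc : z ∈ closedBall (0:ℂ) 1 := by
        rw [mem_closedBall_zero_iff, hz]
      have e1 : (ContinuousLinearMap.id ℂ DA - P) (mulL h g) = mulL h g - P (mulL h g) := rfl
      rw [e1, ev_sub, ev_mulL _ _ z hzc]
      have e2 : ev h z * ev g z - ev (P (mulL h g)) z - (1 - d) * ev g z =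
          (ev h z - 1) * ev g z - (ev (P (mulL h g)) z - d * ev g z) := by ring
      rw [e2]
      have h3 : ‖(ev h z - 1) * ev g z‖ ≤ min ε1 ε2 / 2 * ‖g‖ := by
        rw [norm_mul]
        exact mul_le_mul (h1 z hz hzs) (norm_ev_le _ _) (norm_nonneg _) hε.le
      have h4 := h2 g z hz hzs
      calc ‖(ev h z - 1) * ev g z - (ev (P (mulL h g)) z - d * ev g z)‖
          ≤ ‖(ev h z - 1) * ev g z‖ + ‖ev (P (mulL h g)) z - d * ev g z‖ := norm_sub_le _ _
        _ ≤ min ε1 ε2 / 2 * ‖g‖ + min ε1 ε2 / 2 * ‖g‖ := add_le_add h3 h4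
        _ = 2 * (min ε1 ε2 / 2) * ‖g‖ := by ring
        _ ≤ ε2 * ‖g‖ := mul_le_mul_of_nonneg_right hle2 (norm_nonneg g))
    exact ⟨a, b, fun f => hab f⟩

end Pool.Agent.Helper621.DAP
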