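import Mathlib
import Pool.Agent.Helper621.DAP.P_c0_congr
import Pool.Agent.Helper621.DAP.P_c0_prod
import Pool.Agent.Helper621.DAP.P_c0_shift
import Pool.Agent.Helper621.DAP.P_c0_double
import Pool.Agent.Helper621.DAP.P_c0_split

set_option autoImplicit false

open Complex Metric Set Filter Topology Classical ZeroAtInfty

namespace Pool.Agent.Helper621.DAP


theorem pelczynski {E Y : Type} [NormedAddCommGroup E] [NormedSpace ℂ E] [NormedAddCommGroup Y]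
    [NormedSpace ℂ Y] (i : Y →L[ℂ] C₀(ℕ, E)) (p : C₀(ℕ, E) →L[ℂ] Y) (hpi : ∀ y, p (i y) = y)
    (j : C₀(ℕ, E) →L[ℂ] Y) (q : Y →L[ℂ] C₀(ℕ, E)) (hqj : ∀ x, q (j x) = x) :
    Nonempty (Y ≃L[ℂ] C₀(ℕ, E)) := by
  -- `X ≃ Y × V`, `Y ≃ X × W`
  let e1 : C₀(ℕ, E) ≃L[ℂ] Y × p.ker := ContinuousLinearEquiv.equivOfRightInverse p i hpi
  let e2 : Y ≃L[ℂ] C₀(ℕ, E) × q.ker := ContinuousLinearEquiv.equivOfRightInverse q j hqj
  obtain ⟨sp⟩ := c0_split (A := E)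
  -- `Y ≃ X × Y`
  let a1 : Y ≃L[ℂ] C₀(ℕ, E) × Y :=
    (e2.trans ((sp.prodCongr (ContinuousLinearEquiv.refl ℂ _)).trans
      (ContinuousLinearEquiv.prodAssoc ℂ _ _ _))).trans
      ((ContinuousLinearEquiv.refl ℂ _).prodCongr e2.symm)
  obtain ⟨dbl⟩ := c0_double (A := E)
  obtain ⟨cg⟩ := c0_congr e1
  obtain ⟨pr⟩ := c0_prod (A := Y) (B := p.ker)
  obtain ⟨sh⟩ := c0_shift (A := Y)
  let a2 : C₀(ℕ, E) ≃L[ℂ] Y × C₀(ℕ, E) :=
    ((dbl.symm.trans (cg.trans pr)).trans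
      ((sh.prodCongr (ContinuousLinearEquiv.refl ℂ _)).trans
        (ContinuousLinearEquiv.prodAssoc ℂ _ _ _))).trans
      ((ContinuousLinearEquiv.refl ℂ _).prodCongr (pr.symm.trans (cg.symm.trans dbl)))
  exact ⟨(a1.trans (ContinuousLinearEquiv.prodComm ℂ _ _)).trans a2.symm⟩

end Pool.Agent.Helper621.DAP
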