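import Pool.Agent.Helper621.DAP.Defs
import Pool.Agent.Helper621.DAP.P_factor
import Pool.Agent.Helper621.DAP.P_c0_compl
import Pool.Agent.Helper621.DAP.P_pelczynski

set_option autoImplicit false

open Complex Metric Set Filter Topology Classical ZeroAtInfty

namespace Pool.Agent.Helper621.DAP


theorem primary_aux (S : Submodule ℂ DA) (Q : DA →L[ℂ] DA) (hQ1 : ∀ x, Q x ∈ S)
    (hQ2 : ∀ x ∈ S, Q x = x) (a b : DA →L[ℂ] DA) (hab : ∀ f, b (Q (a f)) = f)
    (e : DA ≃L[ℂ] C₀(ℕ, DA)) : Nonempty (S ≃L[ℂ] DA) := by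
  let i : S →L[ℂ] C₀(ℕ, DA) := (e : DA →L[ℂ] C₀(ℕ, DA)).comp S.subtypeL
  let p : C₀(ℕ, DA) →L[ℂ] S := (Q.codRestrict S hQ1).comp (e.symm : C₀(ℕ, DA) →L[ℂ] DA)
  let j : C₀(ℕ, DA) →L[ℂ] S :=
    (Q.codRestrict S hQ1).comp (a.comp (e.symm : C₀(ℕ, DA) →L[ℂ] DA))
  let q : S →L[ℂ] C₀(ℕ, DA) := (e : DA →L[ℂ] C₀(ℕ, DA)).comp (b.comp S.subtypeL)
  have hpi : ∀ y, p (i y) = y := by
    intro y
    apply Subtype.ext
    show Q (e.symm (e (y : DA))) = y
    rw [e.symm_apply_apply]
    exact hQ2 _ y.2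
  have hqj : ∀ x, q (j x) = x := by
    intro x
    show e (b (Q (a (e.symm x)))) = x
    rw [hab, e.apply_symm_apply]
  obtain ⟨u⟩ := pelczynski (E := DA) (Y := S) i p hpi j q hqj
  exact ⟨u.trans e.symm⟩

/-- the embedding at the coordinate `0`, linear -/
noncomputable def primary_il : DA →ₗ[ℂ] C₀(ℕ, DA) where
  toFun f :=
    { toFun := fun n => if n = 0 then f else 0
      continuous_toFun := continuous_of_discreteTopology
      zero_at_infty' := by
        rw [Filter.cocompact_eq_cofinite, Nat.cofinite_eq_atTop]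
        refine tendsto_const_nhds.congr' ?_
        filter_upwards [eventually_gt_atTop 0] with n hn
        rw [if_neg hn.ne'] }
  map_add' := by
    intro x y
    ext1 n
    show (if n = 0 then x + y else 0) = (if n = 0 then x else 0) + (if n = 0 then y else 0)
    split
    · rfl
    · rw [add_zero]
  map_smul' := by
    intro c x
    ext1 n
    show (if n = 0 then c • x else 0) = c • (if n = 0 then x else 0)
    split
    · rfl
    · rw [smul_zero]

theorem primary_il_bd (x : DA) : ‖primary_il x‖ ≤ 1 * ‖x‖ := by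
  rw [one_mul]
  show ‖(primary_il x).toBCF‖ ≤ ‖x‖
  rw [BoundedContinuousFunction.norm_le (norm_nonneg _)]
  intro n
  show ‖(if n = 0 then x else 0 : DA)‖ ≤ ‖x‖
  split
  · exact le_rfl
  · rw [norm_zero]; exact norm_nonneg _

/-- the embedding at the coordinate `0` -/
noncomputable def primary_i : DA →L[ℂ] C₀(ℕ, DA) :=
  { toLinearMap := primary_il
    cont := by
      have h := (LinearMap.mkContinuous (E := DA) (F := C₀(ℕ, DA)) (σ := RingHom.id ℂ)
        primary_il 1 primary_il_bd).continuous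
      exact h }

/-- the coordinate `0`, linear -/
noncomputable def primary_pl : C₀(ℕ, DA) →ₗ[ℂ] DA where
  toFun x := x 0
  map_add' _ _ := rfl
  map_smul' _ _ := rfl

theorem primary_pl_cont : Continuous (fun x : C₀(ℕ, DA) => x 0) := by
  have h1 : Continuous (fun x : C₀(ℕ, DA) => x.toBCF) :=
    (ZeroAtInftyContinuousMap.isometry_toBCF (α := ℕ) (β := DA)).continuous
  have h2 : Continuous (fun x : BoundedContinuousFunction ℕ DA => x 0) :=
    continuous_eval_const (F := BoundedContinuousFunction ℕ DA) (0 : ℕ)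
  exact h2.comp h1

/-- the coordinate `0` -/
noncomputable def primary_p : C₀(ℕ, DA) →L[ℂ] DA :=
  { toLinearMap := primary_pl
    cont := primary_pl_cont }

theorem primary_e : Nonempty (DA ≃L[ℂ] C₀(ℕ, DA)) := by
  obtain ⟨U, R, hUR⟩ := c0_compl
  refine pelczynski (E := DA) (Y := DA) primary_i primary_p ?_ U R hUR
  intro y
  show (primary_il y) 0 = y
  show (if (0 : ℕ) = 0 then y else 0) = y
  rw [if_pos rfl]

theorem primary (P : DA →L[ℂ] DA) (hP : P.comp P = P) :
    (Nonempty (LinearMap.range P.toLinearMap ≃L[ℂ] DA) ∨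
          Nonempty (LinearMap.ker P.toLinearMap ≃L[ℂ] DA)) := by
  obtain ⟨e⟩ := primary_e
  have hPP : ∀ x, P (P x) = P x := fun x => by
    have := congrArg (fun F : DA →L[ℂ] DA => F x) hP
    exact this
  rcases factor P with ⟨a, b, hab⟩ | ⟨a, b, hab⟩
  · left
    refine primary_aux _ P (fun x => ⟨x, rfl⟩) ?_ a b hab e
    rintro x ⟨y, rfl⟩
    exact hPP y
  · right
    refine primary_aux _ (ContinuousLinearMap.id ℂ DA - P) ?_ ?_ a b ?_ e
    · intro x
      rw [LinearMap.mem_ker]
      show P (x - P x) = 0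
      rw [map_sub, hPP, sub_self]
    · intro x hx
      rw [LinearMap.mem_ker] at hx
      have hx' : P x = 0 := hx
      show x - P x = x
      rw [hx', sub_zero]
    · intro f
      exact hab f

end Pool.Agent.Helper621.DAP
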